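import Pool.Agent.Lib.MP_a1853d_al.HH.Spec

set_option autoImplicit false

/-! CEN (helper43): the central elements of length `n` are the `z^k` with `|k| ≤ C (n+1)^2`. -/

namespace MPa1853d.HH

open MPa1853d

namespace CENM

variable {G : Type} [Group G] {m : ℕ} (D : HData G m) {S : Finset G}

/-- the ordered product -/
def P {n : ℕ} (x : Fin n → G) (c : Fin n → ℤ) : G := (List.ofFn fun i => x i ^ c i).prod

theorem P_succ {n : ℕ} (x : Fin (n + 1) → G) (c : Fin (n + 1) → ℤ) :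
    P x c = x 0 ^ c 0 * P (fun i => x i.succ) (fun i => c i.succ) := by
  unfold P
  rw [List.ofFn_succ, List.prod_cons]

theorem P_zero_arg {n : ℕ} (x : Fin n → G) : P x 0 = 1 := by
  induction n with
  | zero => simp [P]
  | succ n ih =>
    rw [P_succ, show (fun i : Fin n => (0 : Fin (n + 1) → ℤ) i.succ) = 0 from rfl, ih, Pi.zero_apply, zpow_zero, mul_one]

theorem φ_P {n : ℕ} (x : Fin n → G) (c : Fin n → ℤ) : D.φ (P x c) = ∑ i, c i • D.φ (x i) := by
  induction n with
  | zero => simp [P, D.φ_one]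
  | succ n ih => rw [P_succ, D.φ_mul, ih, D.φ_zpow, Fin.sum_univ_succ]

theorem ω_P {n : ℕ} (x : Fin n → G) (c : Fin n → ℤ) (y : G) : D.ω (P x c) y = ∑ i, c i * D.ω (x i) y := by
  induction n with
  | zero => simp [P, D.ω_one_left]
  | succ n ih => rw [P_succ, D.ω_mul_left, ih, D.ω_zpow_left, Fin.sum_univ_succ]

theorem P_mul {n : ℕ} (x : Fin n → G) (W : ℤ) (hW : ∀ i j, |D.ω (x i) (x j)| ≤ W) (hW0 : 0 ≤ W) (c d : Fin n → ℤ) :
    ∃ k : ℤ, P x c * P x d = P x (c + d) * D.z ^ k ∧ |k| ≤ W * (∑ i, |c i|) * (∑ i, |d i|) := by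
  induction n with
  | zero => exact ⟨0, by simp [P], by simp⟩
  | succ n ih =>
    obtain ⟨k, h1, h2⟩ := ih (fun i => x i.succ) (fun i j => hW _ _) (fun i => c i.succ) (fun i => d i.succ)
    set Pc := P (fun i => x i.succ) (fun i => c i.succ) with hPc
    set Pd := P (fun i => x i.succ) (fun i => d i.succ) with hPd
    refine ⟨k + D.ω Pc (x 0 ^ d 0), ?_, ?_⟩
    · rw [P_succ x c, P_succ x d, P_succ x (c + d)]
      rw [show (fun i : Fin n => (c + d) i.succ) = (fun i => c i.succ) + (fun i => d i.succ) from rfl, Pi.add_apply]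
      rw [← hPc, ← hPd]
      calc x 0 ^ c 0 * Pc * (x 0 ^ d 0 * Pd) = x 0 ^ c 0 * (Pc * x 0 ^ d 0) * Pd := by group
        _ = x 0 ^ c 0 * (x 0 ^ d 0 * Pc * D.z ^ (D.ω Pc (x 0 ^ d 0))) * Pd := by rw [D.swap Pc]
        _ = x 0 ^ c 0 * x 0 ^ d 0 * Pc * (D.z ^ (D.ω Pc (x 0 ^ d 0)) * Pd) := by group
        _ = x 0 ^ c 0 * x 0 ^ d 0 * Pc * (Pd * D.z ^ (D.ω Pc (x 0 ^ d 0))) := by rw [D.zcp]
        _ = x 0 ^ c 0 * x 0 ^ d 0 * (Pc * Pd) * D.z ^ (D.ω Pc (x 0 ^ d 0)) := by group
        _ = _ := by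
          rw [h1, zpow_add, zpow_add]
          group
    · rw [D.ω_zpow_right, ω_P]
      rw [Fin.sum_univ_succ, Fin.sum_univ_succ]
      have h3 : |∑ i : Fin n, c i.succ * D.ω (x i.succ) (x 0)| ≤ W * ∑ i : Fin n, |c i.succ| := by
        rw [Finset.mul_sum]
        refine (Finset.abs_sum_le_sum_abs _ _).trans (Finset.sum_le_sum fun i _ => ?_)
        rw [abs_mul, mul_comm]
        exact mul_le_mul_of_nonneg_right (hW _ _) (abs_nonneg _)
      have hc : 0 ≤ ∑ i : Fin n, |c i.succ| := Finset.sum_nonneg fun _ _ => abs_nonneg _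
      have hd : 0 ≤ ∑ i : Fin n, |d i.succ| := Finset.sum_nonneg fun _ _ => abs_nonneg _
      have h4 : |k + d 0 * ∑ i : Fin n, c i.succ * D.ω (x i.succ) (x 0)| ≤
          |k| + |d 0| * |∑ i : Fin n, c i.succ * D.ω (x i.succ) (x 0)| := by
        rw [← abs_mul]
        exact abs_add_le _ _
      have h5 : |d 0| * |∑ i : Fin n, c i.succ * D.ω (x i.succ) (x 0)| ≤ |d 0| * (W * ∑ i : Fin n, |c i.succ|) :=
        mul_le_mul_of_nonneg_left h3 (abs_nonneg _)
      have h6 : 0 ≤ W * |c 0| * (|d 0| + ∑ i : Fin n, |d i.succ|) := by positivity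
      have h7 : W * (|c 0| + ∑ i : Fin n, |c i.succ|) * (|d 0| + ∑ i : Fin n, |d i.succ|) =
          W * |c 0| * (|d 0| + ∑ i : Fin n, |d i.succ|) + |d 0| * (W * ∑ i : Fin n, |c i.succ|) +
            W * (∑ i : Fin n, |c i.succ|) * (∑ i : Fin n, |d i.succ|) := by ring
      rw [h7]
      linarith

end CENM

open CENM

theorem specCEN : SpecCEN := by
  classical
  intro G _ m D S _
  choose x hx using fun i : Fin m => D.φ_surj (Pi.single i 1)
  set W : ℤ := ∑ i, ∑ j, |D.ω (x i) (x j)| with hWd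
  have hW : ∀ i j, |D.ω (x i) (x j)| ≤ W := by
    intro i j
    calc |D.ω (x i) (x j)| ≤ ∑ j, |D.ω (x i) (x j)| :=
          Finset.single_le_sum (f := fun j => |D.ω (x i) (x j)|) (fun _ _ => abs_nonneg _) (Finset.mem_univ j)
      _ ≤ W := Finset.single_le_sum (f := fun i => ∑ j, |D.ω (x i) (x j)|)
          (fun _ _ => Finset.sum_nonneg fun _ _ => abs_nonneg _) (Finset.mem_univ i)
  have hW0 : 0 ≤ W := Finset.sum_nonneg fun _ _ => Finset.sum_nonneg fun _ _ => abs_nonneg _
  have hφP : ∀ c, D.φ (P x c) = c := by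
    intro c
    rw [φ_P]
    ext j
    rw [Finset.sum_apply]
    simp only [hx, Pi.smul_apply, smul_eq_mul, Pi.single_apply]
    simp
  have hP : ∀ y, ∃ k : ℤ, y = P x (D.φ y) * D.z ^ k := fun y => D.eq_of_φ (hφP (D.φ y))
  choose κ hκ using hP
  set S' : Finset G := S ∪ S.image (fun s => s⁻¹) with hS'
  have hmem : ∀ y, (y ∈ S ∨ y⁻¹ ∈ S) → y ∈ S' := by
    rintro y (h | h)
    · exact Finset.mem_union_left _ h
    · exact Finset.mem_union_right _ (Finset.mem_image.2 ⟨_, h, inv_inv y⟩)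
  set K0 : ℤ := ∑ s ∈ S', |κ s| with hK0
  set B : ℤ := ∑ s ∈ S', ∑ i, |D.φ s i| with hB
  have hK0' : ∀ s ∈ S', |κ s| ≤ K0 := fun s hs =>
    Finset.single_le_sum (f := fun s => |κ s|) (fun _ _ => abs_nonneg _) hs
  have hB' : ∀ s ∈ S', ∑ i, |D.φ s i| ≤ B := fun s hs =>
    Finset.single_le_sum (f := fun s => ∑ i, |D.φ s i|) (fun _ _ => Finset.sum_nonneg fun _ _ => abs_nonneg _) hs
  have hK00 : 0 ≤ K0 := Finset.sum_nonneg fun _ _ => abs_nonneg _
  have hB0 : 0 ≤ B := Finset.sum_nonneg fun _ _ => Finset.sum_nonneg fun _ _ => abs_nonneg _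
  have key : ∀ l : List G, IsW S l → ∑ i, |D.φ l.prod i| ≤ B * l.length ∧
      |κ l.prod| ≤ (K0 + W * B * B) * (l.length : ℤ) ^ 2 := by
    intro l
    induction l with
    | nil =>
      intro _
      have h1 := hκ 1
      rw [D.φ_one, P_zero_arg, one_mul] at h1
      have h2 := D.zinf _ h1.symm
      rw [List.prod_nil, D.φ_one, h2]
      simp
    | cons s l ih =>
      intro hl
      obtain ⟨h1, h2⟩ := ih (fun y hy => hl y (List.mem_cons_of_mem _ hy))
      have hs := hmem s (hl s List.mem_cons_self)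
      have h3 := hK0' s hs
      have h4 := hB' s hs
      obtain ⟨k, h5, h6⟩ := P_mul D x W hW hW0 (D.φ s) (D.φ l.prod)
      have h7 : κ (s * l.prod) = k + κ s + κ l.prod := by
        apply D.zinj
        have h8 := hκ (s * l.prod)
        have h9 : s * l.prod = P x (D.φ (s * l.prod)) * D.z ^ (k + κ s + κ l.prod) := by
          conv_lhs => rw [hκ s, hκ l.prod]
          calc P x (D.φ s) * D.z ^ κ s * (P x (D.φ l.prod) * D.z ^ κ l.prod) =
              P x (D.φ s) * (D.z ^ κ s * P x (D.φ l.prod)) * D.z ^ κ l.prod := by group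
            _ = P x (D.φ s) * (P x (D.φ l.prod) * D.z ^ κ s) * D.z ^ κ l.prod := by rw [D.zcp]
            _ = (P x (D.φ s) * P x (D.φ l.prod)) * D.z ^ κ s * D.z ^ κ l.prod := by group
            _ = _ := by
              rw [h5, D.φ_mul, zpow_add, zpow_add]
              group
        exact mul_left_cancel (h8.symm.trans h9)
      have h10 : |κ (s * l.prod)| ≤ |k| + |κ s| + |κ l.prod| := by
        rw [h7]
        have := abs_add_le (k + κ s) (κ l.prod)
        have := abs_add_le k (κ s)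
        linarith
      have h11 : W * (∑ i, |D.φ s i|) * (∑ i, |D.φ l.prod i|) ≤ W * B * (B * l.length) := by
        have a1 : 0 ≤ ∑ i, |D.φ s i| := Finset.sum_nonneg fun _ _ => abs_nonneg _
        have a2 : 0 ≤ ∑ i, |D.φ l.prod i| := Finset.sum_nonneg fun _ _ => abs_nonneg _
        exact mul_le_mul (mul_le_mul_of_nonneg_left h4 hW0) h1 a2 (by positivity)
      have hlen : (0 : ℤ) ≤ l.length := Int.natCast_nonneg _
      rw [List.prod_cons, List.length_cons]
      push_cast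
      constructor
      · have h12 : ∑ i, |D.φ (s * l.prod) i| ≤ ∑ i, |D.φ s i| + ∑ i, |D.φ l.prod i| := by
          rw [← Finset.sum_add_distrib]
          refine Finset.sum_le_sum fun i _ => ?_
          rw [D.φ_mul, Pi.add_apply]
          exact abs_add_le _ _
        linarith
      · have h13 : 0 ≤ W * B * B := by positivity
        have h14 : (K0 + W * B * B) * ((l.length : ℤ) + 1) ^ 2 = (K0 + W * B * B) * (l.length : ℤ) ^ 2 +
            K0 * (2 * l.length + 1) + W * B * B * (2 * l.length + 1) := by ring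
        rw [h14]
        nlinarith [mul_nonneg hK00 hlen, mul_nonneg h13 hlen]
  refine ⟨(K0 + W * B * B).toNat, ?_⟩
  rintro n k ⟨l, h1, h2, h3⟩
  obtain ⟨-, h4⟩ := key l h2
  have h5 : κ (D.z ^ k) = k := by
    apply D.zinj
    have := hκ (D.z ^ k)
    rw [D.φ_z, P_zero_arg, one_mul] at this
    exact this.symm
  rw [h3, h5] at h4
  have h6 : 0 ≤ K0 + W * B * B := by positivity
  rw [Int.toNat_of_nonneg h6]
  refine h4.trans (mul_le_mul_of_nonneg_left ?_ h6)
  have h7 : (l.length : ℤ) ≤ n := by exact_mod_cast h1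
  have h8 : (0 : ℤ) ≤ l.length := Int.natCast_nonneg _
  nlinarith

end MPa1853d.HH
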