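import Pool.Agent.Lib.MP_a1853d_al.ZERO

set_option autoImplicit false

/-!
# Conjugacy growth of the higher Heisenberg groups: statements of the modules

Theorem (target).  `G` finitely generated, centre infinite cyclic, `G / Z(G)` abelian and not
generated by two elements.  For every finite generating set `S` the conjugacy growth series is
transcendental.

Each module is one file `HH/XXX.lean` with `theorem specXXX : SpecXXX` (namespace `MPa1853d.HH`).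

Outline.  `gg x` = gcd of the `ω x y`; the class of `x` is `x ⟨z ^ gg x⟩`.  For a prime `p` and
`K` prime to `p` the partition of `G` in the sets `qc K x` is invariant under right translation by
`s ^ K` (`s` a letter), and these translations commute on it; by a pigeonhole argument all but
finitely many parts `q` have a letter `s` with `|q s ^ (-M K)| = |q| - M K`, and then the chain lemma
(CHN) gives `∑_q (r ζ) ^ |q| = o((1 - r) ^ (-m))` for every `p`-th root of unity `ζ ≠ 1`.  Every part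
contains at least one conjugacy class of the same length; the other conjugacy classes are central,
or have a large `gg`, or lie over `p ℤ^m`.  The latter have lengths in few residues mod `p` (LPC,
FIB) and there are `≥ c n^m` of them.  If the series were algebraic it would be bounded at all
`p`-th roots of unity `≠ 1` for all large `p` (CRI), contradiction.
-/

namespace MPa1853d.HH

open MPa1853d

/-! ## Analysis and counting (no groups) -/

/-- CHN (150 lines, chain lemma).  Proof.  `D y := {i | len (T i ^ (-M) y) + M K = len y}`.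
(1) If `i ∈ D y` then `len (T i ^ (-l) y) + l K = len y` for all `l ≤ M` (Lipschitz).
(2) If `len (T i ^ (-1) c) + K = len c` then `D (T i ^ (-1) c) ⊆ D c`: for `j ∈ D (T i ^ (-1) c)`,
`len (T j ^ (-M) c) ≤ len (T i ^ (-1) T j ^ (-M) c) + K = len c - M K`.
(3) For `D y ≠ ∅` let `i(y) = min D y`, `B i := {y | D y ≠ ∅, i(y) = i}`; `{D = ∅} ⊆ F`.  Let
`X i := {y ∈ B i | T i ^ (-1) y ∉ B i}`, `Z i := {y ∈ B i | T i y ∉ B i}`.
`(1 - t ^ K) ∑_{B i} t ^ len = ∑_y (a y - t ^ K a (T i ^ (-1) y))`, `a y = 1_{B i}(y) t ^ len y`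
(reindexing by `T i`), and the summand is `0` except for `y ∈ X i` or `T i ^ (-1) y ∈ Z i`
(for `y ∈ B i`, `len (T i ^ (-1) y) + K = len y` by (1)).  So the norm is at most
`∑_{X i} ‖t‖ ^ len + ∑_{Z i} ‖t‖ ^ len`.
(4) For `E = X i` or `Z i`: `(M + 1) ∑_E ‖t‖ ^ len ≤ ∑_y ‖t‖ ^ len y`, since
`‖t‖ ^ len y ≤ ‖t‖ ^ len (T i ^ (-l) y)` for `y ∈ E`, `l ≤ M`, and `(y, l) ↦ T i ^ (-l) y` is
injective on `E × {0..M}`: if `b = T i ^ k a`, `1 ≤ k ≤ M`, `a, b ∈ B i`, then by (1), (2)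
`D a ⊆ D (T i a) ⊆ .. ⊆ D b`, all contain `i` and `min D b = i`, so all `T i ^ l a` (`0 ≤ l ≤ k`) are
in `B i`; this contradicts `b ∈ X i` and contradicts `a ∈ Z i`. -/
def SpecCHN : Prop :=
  ∀ (Y : Type) (N : ℕ) (T : Fin N → Equiv.Perm Y) (len : Y → ℕ) (K M : ℕ) (F : Finset Y) (t : ℂ),
    0 < K → 0 < M →
    (∀ i j y, T i (T j y) = T j (T i y)) →
    (∀ i y, len (T i y) ≤ len y + K) → (∀ i y, len y ≤ len (T i y) + K) →
    (∀ y, y ∉ F → ∃ i, len (((T i) ^ M).symm y) + M * K = len y) →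
    ‖t‖ < 1 → Summable (fun y => ‖t‖ ^ len y) →
    ‖∑' y, t ^ len y‖ * ‖1 - t ^ K‖ ≤
      2 * (F.card : ℝ) + (2 * (N : ℝ) / ((M : ℝ) + 1)) * ∑' y, ‖t‖ ^ len y

/-- GFA (60 lines, Abel summation).  For a finite set `J` of indices,
`∑_{i ∈ J} r ^ len i = (1 - r) ∑_n r ^ n #{i ∈ J | len i ≤ n} ≤ (1 - r) C ∑_n (n+1)^m r ^ n`, and
`(n+1)^m ≤ m! * (n+m).choose m`, `∑_n (n+m).choose m * r ^ n = (1 - r)^(-m-1)`
(`tsum_choose_mul_geometric_of_norm_lt_one`). -/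
def SpecGFA : Prop :=
  ∀ (I : Type) (len : I → ℕ) (m : ℕ) (C : ℝ), 0 ≤ C →
    (∀ n : ℕ, {i | len i ≤ n}.Finite) →
    (∀ n : ℕ, ({i | len i ≤ n}.ncard : ℝ) ≤ C * ((n : ℝ) + 1) ^ m) →
    ∀ r : ℝ, 0 ≤ r → r < 1 →
      Summable (fun i => r ^ len i) ∧ ∑' i, r ^ len i ≤ C * m.factorial * ((1 - r)⁻¹) ^ m

/-- GFB (50 lines): sort the sum by the value of `len` (`HasSum.sigma`, `Equiv.sigmaFiberEquiv`). -/
def SpecGFB : Prop :=
  ∀ (I : Type) (len : I → ℕ) (t : ℂ), (∀ n : ℕ, {i | len i = n}.Finite) →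
    Summable (fun i => ‖t‖ ^ len i) →
    Summable (fun n : ℕ => ({i | len i = n}.ncard : ℝ) * ‖t‖ ^ n) ∧
    ∑' n : ℕ, ({i | len i = n}.ncard : ℂ) * t ^ n = ∑' i, t ^ len i

/-- CRI (120 lines).  An algebraic series is bounded on the rays to almost all roots of unity.
Proof.  `F(w) = ∑ c n w ^ n` for `‖w‖ < 1`; as in `TR.lean` (`TR.Ok`, there for real `z`; copy for
complex `z`) `P(w, F(w)) = 0`, i.e. `∑_{i ≤ d} a_i(w) F(w)^i = 0`, `a_d ≠ 0` the leading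
coefficient.  `a_d` has finitely many complex roots; take `B` larger than the order of every root
which has finite order.  For `ω ^ p = 1`, `ω ≠ 1`, `p > B` prime, `a_d ω ≠ 0`.  There is `r₁ < 1` with
`‖a_d(r ω)‖ ≥ ‖a_d ω‖ / 2` for `r₁ ≤ r ≤ 1` and all `‖a_i(r ω)‖ ≤ A`; a root `y` of
`∑ a_i y^i = 0` has `‖y‖ ≤ max 1 ((d+1) A / (‖a_d ω‖/2))` (`d = 0` is impossible).  For `r ≤ r₁`:
`‖F(r ω)‖ ≤ ∑ c n r₁^n`. -/
def SpecCRI : Prop :=
  ∀ c : ℕ → ℕ, (∀ r : ℝ, 0 ≤ r → r < 1 → Summable (fun n : ℕ => (c n : ℝ) * r ^ n)) →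
    ∀ P : Polynomial (Polynomial ℚ), P ≠ 0 →
      Polynomial.eval₂ Polynomial.coeToPowerSeries.ringHom
        (PowerSeries.mk (fun n : ℕ => ((c n : ℕ) : ℚ))) P = 0 →
      ∃ B : ℕ, ∀ p : ℕ, p.Prime → B < p → ∀ ω : ℂ, ω ^ p = 1 → ω ≠ 1 →
        ∃ M : ℝ, ∀ r : ℝ, 0 ≤ r → r < 1 → ‖∑' n : ℕ, (c n : ℂ) * ((r : ℂ) * ω) ^ n‖ ≤ M

/-- SKL (200 lines, from CRI, GFA, GFB): the contradiction.  Proof.  Suppose `P`; take a prime
`p > max(P0, B)`, `b`, `c`, and `M₁` with `‖F(r ζ)‖ ≤ M₁` for all `ζ ^ p = 1`, `ζ ≠ 1`.  Let `T` be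
large, `σ`, `Big` the data for `T`, `J := (range σ)ᶜ`.  For `r < 1` (all sums converge by GFA),
with `ζ` a primitive `p`-th root, `G_J(t) := ∑_{i ∈ J} t ^ len i = F(t) - ∑_q t ^ len (σ q)`,
`∑_{j<p} ζ^(-j b) G_J(r ζ^j) = p ∑_{i ∈ J, len i ≡ b} r ^ len i`.  Hence
`G_J(r) ≤ p (∑_{Cent} r ^ len + ∑_{Big} r ^ len) + p max_{0<j<p} ‖G_J(r ζ^j)‖`
`≤ p C (m-1)! (1-r)^(-(m-1)) + p C m! (1-r)^(-m) / (T+1) + p (M₁ + R + ε (1-r)^(-m))`.
For `r = 1 - 1/N` the left side is `≥ c N^m`.  Choose `T`, then `ε`, `R`, then `N → ∞`. -/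
def SpecSKL : Prop :=
  ∀ (I : Type) (len : I → ℕ) (m : ℕ) (C : ℝ) (Cent : Set I) (P0 : ℕ), 1 ≤ m → 0 ≤ C →
    (∀ n : ℕ, {i | len i ≤ n}.Finite) →
    (∀ n : ℕ, ({i | len i ≤ n}.ncard : ℝ) ≤ C * ((n : ℝ) + 1) ^ m) →
    (∀ n : ℕ, ({i | i ∈ Cent ∧ len i ≤ n}.ncard : ℝ) ≤ C * ((n : ℝ) + 1) ^ (m - 1)) →
    (∀ p : ℕ, p.Prime → P0 < p → ∃ (b : ℕ) (c : ℝ), 0 < c ∧ ∀ T : ℕ,
      ∃ (Q : Type) (σ : Q → I) (Big : Set I), Function.Injective σ ∧
        (∀ ω : ℂ, ω ^ p = 1 → ω ≠ 1 → ∀ ε : ℝ, 0 < ε → ∃ R : ℝ, ∀ r : ℝ, 0 ≤ r → r < 1 →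
          ‖∑' q, ((r : ℂ) * ω) ^ (len (σ q))‖ ≤ R + ε * ((1 - r)⁻¹) ^ m) ∧
        (∀ n : ℕ, ({i | i ∈ Big ∧ len i ≤ n}.ncard : ℝ) ≤ C * ((n : ℝ) + 1) ^ m / ((T : ℝ) + 1)) ∧
        (∀ i, i ∉ Set.range σ → i ∉ Cent → i ∉ Big → len i % p ≠ b % p) ∧
        (∀ N : ℕ, 2 ≤ N → ∃ s : Finset I, (∀ i ∈ s, i ∉ Set.range σ) ∧
          c * (N : ℝ) ^ m ≤ ∑ i ∈ s, (1 - 1 / (N : ℝ)) ^ (len i))) →
    ¬ ∃ P : Polynomial (Polynomial ℚ), P ≠ 0 ∧
      Polynomial.eval₂ Polynomial.coeToPowerSeries.ringHom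
        (PowerSeries.mk (fun n : ℕ => (({i | len i = n}.ncard : ℕ) : ℚ))) P = 0

/-- LPC (200 lines, linear programming).  `a i` generate `ℤ^m` as a monoid, `len` = minimal number
of summands.  Proof.  (1) Let `v ∈ ℚ^m`, `c ≥ 0` rational with `∑ c i a i = v`.  There is
`c' ≥ 0` with `∑ c' i a i = v`, `∑ c' ≤ ∑ c` and `{a i | c' i ≠ 0}` linearly independent (minimal
support: for a relation `∑ λ i a i = 0` on the support, `λ ≠ 0`, WLOG `∑ λ ≤ 0`, some `λ i < 0`; go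
to `c + τ λ`, `τ = min {c i / -λ i | λ i < 0}`).
(2) For a linearly independent subfamily `I` there are `φ i : ℚ^m → ℚ` linear (`i ∈ I`) with
`φ i (a j) = δ_ij`; so `c' i = φ i v`, and there is a `q_I > 0` with all `q_I φ i (u) ∈ ℤ` for
`u ∈ ℤ^m` (common denominator).  `q := ∏ q_I`.
(3) `p len (q u) ≤ q len (p u)`: take a shortest `c` for `p u`, `c'` from (1) for `v = p u`; `q u`
has the coefficients `q c' i / p = q φ i (u) ∈ ℕ`.  (`p = 0` is trivial.)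
(4) `q len (p u) ≤ p len (q u) + C`: `b` shortest for `q u`; `p b i = q e i + r i`, `0 ≤ r i < q`;
`y := p u - ∑ e i a i` has `q y = ∑ r i a i`; for each of the finitely many `r : Fin N → Fin q` for
which such a `y` exists (it is unique) let `C_r = len y`, `C = q * max C_r`. -/
def SpecLPC : Prop :=
  ∀ (m N : ℕ) (a : Fin N → (Fin m → ℤ)) (len : (Fin m → ℤ) → ℕ),
    (∀ v n, len v ≤ n ↔ ∃ c : Fin N → ℕ, ∑ i, c i ≤ n ∧ ∑ i, (c i : ℤ) • a i = v) →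
    ∃ q C : ℕ, 0 < q ∧ ∀ (p : ℕ) (u : Fin m → ℤ),
      p * len ((q : ℤ) • u) ≤ q * len ((p : ℤ) • u) ∧
      q * len ((p : ℤ) • u) ≤ p * len ((q : ℤ) • u) + C

/-- CNT (150 lines, lattice counting).  Proof.  For `D ≥ 1` the number of `v ≠ 0` in the box with
`D ∣ g v` is at most `(3 R Δ / D)^m`: with `D' = D / gcd (D, Δ) ≥ D / Δ`, `D' ∣ v i` for all `i`, so
`D' ≤ R` (as `v ≠ 0`) and every coordinate has at most `2 (R / D') + 1 ≤ 3 R / D'` values.  So the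
sum is at most `∑_{D > T} D (3 R Δ / D)^m ≤ (3 R Δ)^m ∑_{D > T} D^(-2) ≤ 2 (3 R Δ)^m / (T + 1)`
(`m ≥ 3`; only `D ≤ R Δ` occur). -/
def SpecCNT : Prop :=
  ∀ (m Δ : ℕ), 3 ≤ m → 0 < Δ → ∃ C : ℝ, 0 ≤ C ∧ ∀ (R T : ℕ) (g : (Fin m → ℤ) → ℕ),
    (∀ v, v ≠ 0 → 0 < g v ∧ ∀ i, (g v : ℤ) ∣ Δ * v i) →
    ((∑ v ∈ (Fintype.piFinset (fun _ : Fin m => Finset.Icc (-(R : ℤ)) R)).filter
      (fun v => v ≠ 0 ∧ T < g v), g v : ℕ) : ℝ) ≤ C * (R : ℝ) ^ m / ((T : ℝ) + 1)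

/-! ## Groups -/

/-- length of a conjugacy class. -/
noncomputable def clen {G : Type} [Group G] (S : Finset G) (κ : ConjClasses G) : ℕ :=
  ln S κ.carrier

/-- CGC (40 lines, any group): `clen` counts as in the frozen statement. -/
def SpecCGC : Prop :=
  ∀ (G : Type) [Group G] (S : Finset G), Subgroup.closure (S : Set G) = ⊤ → ∀ n : ℕ,
    cgc G S n = {κ : ConjClasses G | clen S κ = n}.ncard ∧
      {κ : ConjClasses G | clen S κ ≤ n}.Finite

/-- DET (60 lines).  `M i j = ω (lift e_i) (lift e_j)`; `∑ i, φ x i * M i j = ω x (lift e_j)`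
(induction / bilinearity: build `x` up to a power of `z` from the lifts).  `det M ≠ 0`, otherwise
`Matrix.exists_vecMul_eq_zero_iff` gives `v ≠ 0` with `v ᵥ* M = 0` and `x` over `v` contradicts
`nondeg`.  `Δ = |det M|`; multiply `φ x ᵥ* M` by the adjugate. -/
def SpecDET : Prop :=
  ∀ (G : Type) [Group G] (m : ℕ) (D : HData G m), ∃ Δ : ℕ, 0 < Δ ∧
    ∀ x i, (D.gg x : ℤ) ∣ Δ * D.φ x i

/-- ABL (150 lines, from LPC).  Length in `ℤ^m`: `ln S (fib v)` is the minimal number of letters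
`φ s`, `s ∈ S ∪ S⁻¹`, with sum `v` (enumerate the letters by `Fin N`; a word ↔ its counts).
(A1), (A2) are easy, (A3) is LPC. -/
def SpecABL : Prop :=
  ∀ (G : Type) [Group G] (m : ℕ) (D : HData G m) (S : Finset G),
    Subgroup.closure (S : Set G) = ⊤ →
    (∃ B : ℕ, ∀ v i, |v i| ≤ B * (ln S (D.fib v) : ℤ)) ∧
    (∃ C : ℕ, ∀ (v : Fin m → ℤ) (R : ℕ), (∀ i, |v i| ≤ R) → ln S (D.fib v) ≤ C * R) ∧
    (∃ q C : ℕ, 0 < q ∧ ∀ (p : ℕ) (u : Fin m → ℤ),
      p * ln S (D.fib ((q : ℤ) • u)) ≤ q * ln S (D.fib ((p : ℤ) • u)) ∧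
      q * ln S (D.fib ((p : ℤ) • u)) ≤ p * ln S (D.fib ((q : ℤ) • u)) + C)

/-- FIB (120 lines).  All classes over `v ≠ 0` have almost the same length.  Proof.  `l` shortest
word over `φ x`; `l.prod = x z^k₀`.  There is a letter `t` with `ω t x > 0` (letters generate, `x`
not central, replace `t` by `t⁻¹` if necessary), so `ω t x ≥ g := gg x`.  For `l = l₁ ++ l₂` the word
`l₁ ++ [t] ++ l₂ ++ [t⁻¹]` has the product `l.prod z^(ω t l₂.prod)`.  Let `r ∈ [0, g)`,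
`r ≡ -k₀ mod g`.  `h(l₂) = ω t l₂.prod` goes from `0` to `ω t x ≥ g > r` in steps `≤ W :=
max |ω s s'|`: there is a suffix with `r ≤ h ≤ r + W` (induction on `l`).  Append a word for
`z^(r - h)`, of length `≤ C' = max over |j| ≤ W`. -/
def SpecFIB : Prop :=
  ∀ (G : Type) [Group G] (m : ℕ) (D : HData G m) (S : Finset G),
    Subgroup.closure (S : Set G) = ⊤ →
    ∃ C : ℕ, ∀ x, D.φ x ≠ 0 → clen S (ConjClasses.mk x) ≤ ln S (D.fib (D.φ x)) + C

/-- CEN (120 lines).  A power `z^k` of length `n` has `|k| ≤ C (n+1)^2`.  Proof.  Let `x i` be a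
lift of `e i`, `P c := ∏ x i ^ c i` (ordered product, `List.ofFn`), `c : Fin m → ℤ`.  Every element is
`P c z^k` with `c = φ`.  Moving one letter: for `s ∈ S ∪ S⁻¹`, `P c * s = P (c + φ s) z^k` with
`|k| ≤ C₁ (1 + ∑ |c i|)`; by induction on the word, `l.prod = P c z^k` with `|k| ≤ C n^2 + ..`; for
`φ l.prod = 0`, `P 0 = 1`. -/
def SpecCEN : Prop :=
  ∀ (G : Type) [Group G] (m : ℕ) (D : HData G m) (S : Finset G),
    Subgroup.closure (S : Set G) = ⊤ →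
    ∃ C : ℕ, ∀ (n : ℕ) (k : ℤ), Rch S (D.z ^ k) n → |k| ≤ C * ((n : ℤ) + 1) ^ 2

/-- CLC (150 lines, from ABL, DET, CNT, CEN, CGC): counting conjugacy classes.  A class over
`v ≠ 0` of length `≤ n` has `|v i| ≤ B n`, and over `v` there are at most `g v` classes
(`x_v z^j`, `0 ≤ j < g v`, represent them); the classes over `0` are the `{z^k}`. -/
def SpecCLC : Prop :=
  ∀ (G : Type) [Group G] (m : ℕ) (D : HData G m) (S : Finset G), 3 ≤ m →
    Subgroup.closure (S : Set G) = ⊤ →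
    ∃ C : ℝ, 0 ≤ C ∧
      (∀ n : ℕ, ({κ : ConjClasses G | clen S κ ≤ n}.ncard : ℝ) ≤ C * ((n : ℝ) + 1) ^ m) ∧
      (∀ n : ℕ, ({κ : ConjClasses G | (∃ x, ConjClasses.mk x = κ ∧ D.φ x = 0) ∧
        clen S κ ≤ n}.ncard : ℝ) ≤ C * ((n : ℝ) + 1) ^ (m - 1)) ∧
      (∀ T n : ℕ, ({κ : ConjClasses G | (∃ x, ConjClasses.mk x = κ ∧ D.φ x ≠ 0 ∧ T < D.gg x) ∧
        clen S κ ≤ n}.ncard : ℝ) ≤ C * ((n : ℝ) + 1) ^ m / ((T : ℝ) + 1))

/-- SIG (60 lines): every part of the partition contains a class of the same length (the class of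
the product of a shortest word). -/
def SpecSIG : Prop :=
  ∀ (G : Type) [Group G] (m : ℕ) (D : HData G m) (S : Finset G) (K : ℕ),
    Subgroup.closure (S : Set G) = ⊤ →
    ∃ σ : D.QK K → ConjClasses G, Function.Injective σ ∧
      (∀ q, clen S (σ q) = ln S q.1) ∧ ∀ q, (σ q).carrier ⊆ q.1

/-- XTR (60 lines): over `p u` there is a class which is not in the image of `σ`.  Proof.
`x` over `p u`, `d = gcd (gg x, K)`; `p ∣ gg x` (`x = w^p z^j`), `p ∤ K`, so `gg x ∤ d`, and the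
classes of `x` and `x z^d` are different, both contained in `qc K x`; `σ` of this part is only one
of them and the other parts are disjoint. -/
def SpecXTR : Prop :=
  ∀ (G : Type) [Group G] (m : ℕ) (D : HData G m) (K p : ℕ) (σ : D.QK K → ConjClasses G),
    0 < K → p.Prime → ¬ p ∣ K → (∀ q, (σ q).carrier ⊆ q.1) → ∀ u : Fin m → ℤ, u ≠ 0 →
    ∃ x, D.φ x = (p : ℤ) • u ∧ ConjClasses.mk x ∉ Set.range σ

/-- QSY (200 lines): translations by `s ^ K` on the partition.  `T s q := {y * s ^ K | y ∈ q}`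
(`qc K x * s^K = qc K (x s^K)` by `gcd_mul_pow`); they commute as `ω (s^K) (s'^K)` is a multiple of
`K`.  Lipschitz: append `K` letters.  Last property: let `l` be a shortest word of `q`,
`x = l.prod ∈ q`.  If `l.length ≥ N K M K` (`N` = number of letters) there are a letter `s` and a
residue `c mod K` such that at least `M K` suffixes `s :: l₂` of `l` have `ω s l₂.prod ≡ c mod K`.
Moving `M K` of these letters to the end (induction on the word) gives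
`x = l'.prod * s ^ (M K) * z ^ (M K c + K j)` with `l'.length + M K = l.length`, so
`l'.prod ∈ q s^(- M K)`.  `F` = the parts with `ln < N K M K + 1` (finite). -/
def SpecQSY : Prop :=
  ∀ (G : Type) [Group G] (m : ℕ) (D : HData G m) (S : Finset G) (K : ℕ), 0 < K →
    Subgroup.closure (S : Set G) = ⊤ →
    ∃ (N : ℕ) (T : Fin N → Equiv.Perm (D.QK K)),
      (∀ i j y, T i (T j y) = T j (T i y)) ∧
      (∀ i y, ln S (T i y).1 ≤ ln S y.1 + K) ∧ (∀ i y, ln S y.1 ≤ ln S (T i y).1 + K) ∧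
      ∀ M : ℕ, ∃ F : Finset (D.QK K), ∀ y, y ∉ F →
        ∃ i, ln S (((T i) ^ M).symm y).1 + M * K = ln S y.1

/-- FIN (200 lines, from CHN, GFA, SKL, CGC, DET, ABL, FIB, CLC, SIG, XTR, QSY).
`I = ConjClasses G`, `len = clen S`, `Cent` = classes over `0`.  `Δ` (DET), `q`, `C₁` (ABL), `C₀`
(FIB), `P0 = max (Δ, q, C₁ + q C₀ + 1)`.  For `p`: `b` with `q b ≡ C₁ + q C₀ + 1 mod p`,
`c = (1/4)^(C₂ p + C₀)`.  For `T`: `K = ∏ (D ≤ T, p ∤ D, D > 0)`, `Q = QK K`, `σ` (SIG),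
`Big` = classes with `gg > T`.
A class of `x ∉ range σ`, `φ x ≠ 0`, `gg x ≤ T`: `p ∣ gg x`, otherwise `gg x ∣ K`,
`qc K x` = class of `x` = `σ (qc K x)`.  As `p > Δ`, `φ x = p u`.  Then
`p |q u| ≤ q |p u| ≤ q clen ≤ q |p u| + q C₀ ≤ p |q u| + C₁ + q C₀`: `clen ≢ b`.
Lower bound: `u ∈ {1..N}^m`, `x_u` from XTR, `clen ≤ C₂ p N + C₀`, `(1 - 1/N)^N ≥ 1/4`. -/
def SpecFIN : Prop :=
  ∀ (G : Type) [Group G] (m : ℕ) (_ : HData G m) (S : Finset G), 3 ≤ m →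
    Subgroup.closure (S : Set G) = ⊤ →
    ¬ ∃ P : Polynomial (Polynomial ℚ), P ≠ 0 ∧
      Polynomial.eval₂ Polynomial.coeToPowerSeries.ringHom
        (PowerSeries.mk (fun n : ℕ => ((cgc G S n : ℕ) : ℚ))) P = 0

/-- MOD (120 lines).  `A = Additive (G ⧸ center G)` is abelian, finitely generated and torsion-free
(`x^n ∈ center` gives `n ω x y = 0`), so free with a basis `Fin m`; `m ≥ 3`, otherwise lifts of the
basis elements and the centre generate `G`. -/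
def SpecMOD : Prop :=
  ∀ (G : Type) [Group G] (S : Finset G) (z : G), Subgroup.closure (S : Set G) = ⊤ →
    (∀ x : G, x ∈ Subgroup.center G ↔ ∃ k : ℤ, x = z ^ k) → (∀ k : ℤ, z ^ k = 1 → k = 0) →
    (∀ x y : G, x⁻¹ * y⁻¹ * x * y ∈ Subgroup.center G) →
    (∀ a b : G, Subgroup.closure {a, b} ⊔ Subgroup.center G ≠ ⊤) →
    ∃ m : ℕ, 3 ≤ m ∧ Nonempty (HData G m)

end MPa1853d.HH
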