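import Pool.Agent.Lib.MP_a1853d_al.HH.Spec

section
set_option autoImplicit false

/-! ABL (helper43): word lengths in `ℤ^m`. -/

namespace MPa1853d.HH

open MPa1853d

namespace ABLM

variable {G : Type} [Group G] {m : ℕ} (D : HData G m) {S : Finset G}

/-- the length of `v` -/
noncomputable def f (S : Finset G) (v : Fin m → ℤ) : ℕ := ln S (D.fib v)

theorem f_le {l : List G} (hl : IsW S l) {v : Fin m → ℤ} (h : D.φ l.prod = v) : f D S v ≤ l.length :=
  ln_le hl h

theorem f_spec (hS : Subgroup.closure (S : Set G) = ⊤) (v : Fin m → ℤ) :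
    ∃ l : List G, l.length = f D S v ∧ IsW S l ∧ D.φ l.prod = v := ln_spec hS (D.fib_nonempty v)

theorem f_zero : f D S (0 : Fin m → ℤ) = 0 := by
  have := f_le D (S := S) (l := []) IsW.nil (v := 0) (by rw [List.prod_nil, D.φ_one])
  simpa using this

theorem f_add (hS : Subgroup.closure (S : Set G) = ⊤) (v w : Fin m → ℤ) : f D S (v + w) ≤ f D S v + f D S w := by
  obtain ⟨l, h1, h2, h3⟩ := f_spec D hS v
  obtain ⟨l', h1', h2', h3'⟩ := f_spec D hS w
  have := f_le D (IsW.append h2 h2') (v := v + w) (by rw [List.prod_append, D.φ_mul, h3, h3'])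
  rwa [List.length_append, h1, h1'] at this

theorem f_neg_le (hS : Subgroup.closure (S : Set G) = ⊤) (v : Fin m → ℤ) : f D S (-v) ≤ f D S v := by
  obtain ⟨l, h1, h2, h3⟩ := f_spec D hS v
  have h4 : IsW S ((l.map fun x => x⁻¹).reverse) := by
    intro x hx
    rw [List.mem_reverse, List.mem_map] at hx
    obtain ⟨y, hy, rfl⟩ := hx
    rw [inv_inv]
    exact (h2 y hy).symm
  have := f_le D h4 (v := -v) (by rw [← List.prod_inv_reverse, D.φ_inv, h3])
  rwa [List.length_reverse, List.length_map, h1] at this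

theorem f_nsmul (hS : Subgroup.closure (S : Set G) = ⊤) (v : Fin m → ℤ) (n : ℕ) :
    f D S ((n : ℤ) • v) ≤ n * f D S v := by
  induction n with
  | zero => simp [f_zero]
  | succ n ih =>
    have := f_add D hS ((n : ℤ) • v) v
    push_cast
    rw [add_smul, one_smul]
    calc f D S ((n : ℤ) • v + v) ≤ f D S ((n : ℤ) • v) + f D S v := this
      _ ≤ n * f D S v + f D S v := by omega
      _ = (n + 1) * f D S v := by ring

theorem f_zsmul (hS : Subgroup.closure (S : Set G) = ⊤) (v : Fin m → ℤ) (n : ℤ) :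
    f D S (n • v) ≤ n.natAbs * f D S v := by
  obtain ⟨k, rfl | rfl⟩ := n.eq_nat_or_neg
  · simpa using f_nsmul D hS v k
  · rw [neg_smul]
    refine (f_neg_le D hS _).trans ?_
    simpa using f_nsmul D hS v k

theorem f_sum (hS : Subgroup.closure (S : Set G) = ⊤) {ι : Type} (s : Finset ι) (g : ι → (Fin m → ℤ)) :
    f D S (∑ i ∈ s, g i) ≤ ∑ i ∈ s, f D S (g i) := by
  classical
  induction s using Finset.induction_on with
  | empty => simp [f_zero]
  | insert a s ha ih =>
    rw [Finset.sum_insert ha, Finset.sum_insert ha]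
    exact (f_add D hS _ _).trans (by omega)

end ABLM

open ABLM

theorem specABL (hLPC : SpecLPC) : SpecABL := by
  classical
  intro G _ m D S hS
  refine ⟨?_, ?_, ?_⟩
  · -- (A1)
    let B : ℕ := ∑ s ∈ S, ∑ i, (D.φ s i).natAbs
    have hB : ∀ s ∈ S, ∀ i, (D.φ s i).natAbs ≤ B := by
      intro s hs i
      calc (D.φ s i).natAbs ≤ ∑ i, (D.φ s i).natAbs :=
            Finset.single_le_sum (f := fun i => (D.φ s i).natAbs) (fun _ _ => Nat.zero_le _) (Finset.mem_univ i)
        _ ≤ B := Finset.single_le_sum (f := fun s => ∑ i, (D.φ s i).natAbs) (fun _ _ => Nat.zero_le _) hs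
    have hB2 : ∀ x, (x ∈ S ∨ x⁻¹ ∈ S) → ∀ i, (D.φ x i).natAbs ≤ B := by
      rintro x (hx | hx) i
      · exact hB x hx i
      · have := hB _ hx i
        rwa [D.φ_inv, Pi.neg_apply, Int.natAbs_neg] at this
    refine ⟨B, fun v i => ?_⟩
    obtain ⟨l, h1, h2, h3⟩ := f_spec D hS v
    have key : ∀ l : List G, IsW S l → |D.φ l.prod i| ≤ B * (l.length : ℤ) := by
      intro l
      induction l with
      | nil =>
        intro _
        rw [List.prod_nil, D.φ_one]
        simp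
      | cons x l ih =>
        intro hl
        have ih' := ih (fun y hy => hl y (List.mem_cons_of_mem _ hy))
        have h4 := hB2 x (hl x List.mem_cons_self) i
        rw [List.prod_cons, D.φ_mul, Pi.add_apply, List.length_cons]
        have h5 : |D.φ x i| ≤ B := by
          rw [Int.abs_eq_natAbs]
          exact_mod_cast h4
        have h6 := abs_add_le (D.φ x i) (D.φ l.prod i)
        push_cast
        linarith
    have := key l h2
    rw [h3, h1] at this
    exact this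
  · -- (A2)
    refine ⟨∑ i, f D S (Pi.single i 1), fun v R hR => ?_⟩
    have hv : v = ∑ i, v i • (Pi.single i (1 : ℤ) : Fin m → ℤ) := by
      refine (Finset.univ_sum_single v).symm.trans (Finset.sum_congr rfl fun i _ => ?_)
      ext j
      by_cases h : j = i
      · subst h; simp
      · simp [h]
    calc ln S (D.fib v) = f D S v := rfl
      _ ≤ ∑ i, f D S (v i • (Pi.single i (1 : ℤ) : Fin m → ℤ)) := by
          conv_lhs => rw [hv]
          exact f_sum D hS _ _
      _ ≤ ∑ i, f D S (Pi.single i 1) * R := by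
          refine Finset.sum_le_sum fun i _ => (f_zsmul D hS _ _).trans ?_
          rw [mul_comm]
          refine Nat.mul_le_mul_left _ ?_
          have := abs_le.1 (hR i)
          omega
      _ = (∑ i, f D S (Pi.single i 1)) * R := by rw [Finset.sum_mul]
  · -- (A3)
    let L : Finset (Fin m → ℤ) := S.image D.φ ∪ S.image (fun s => - D.φ s)
    have hL : ∀ x, (x ∈ S ∨ x⁻¹ ∈ S) → D.φ x ∈ L := by
      rintro x (hx | hx)
      · exact Finset.mem_union_left _ (Finset.mem_image_of_mem _ hx)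
      · refine Finset.mem_union_right _ (Finset.mem_image.2 ⟨_, hx, ?_⟩)
        rw [D.φ_inv, neg_neg]
    have hL1 : ∀ v ∈ L, f D S v ≤ 1 := by
      intro v hv
      rcases Finset.mem_union.1 hv with hv | hv
      · obtain ⟨s, hs, rfl⟩ := Finset.mem_image.1 hv
        have := f_le D (S := S) (l := [s]) (by
          intro x hx
          rw [List.mem_singleton] at hx
          rw [hx]
          exact Or.inl hs) (v := D.φ s) (by rw [List.prod_singleton])
        simpa using this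
      · obtain ⟨s, hs, rfl⟩ := Finset.mem_image.1 hv
        have := f_le D (S := S) (l := [s⁻¹]) (by
          intro x hx
          rw [List.mem_singleton] at hx
          rw [hx, inv_inv]
          exact Or.inr hs) (v := - D.φ s) (by rw [List.prod_singleton, D.φ_inv])
        simpa using this
    let e := L.equivFin
    have key : ∀ l : List G, IsW S l → ∃ c : Fin L.card → ℕ, ∑ i, c i = l.length ∧
        ∑ i, (c i : ℤ) • ((e.symm i : Fin m → ℤ)) = D.φ l.prod := by
      intro l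
      induction l with
      | nil =>
        intro _
        exact ⟨fun _ => 0, by simp, by rw [List.prod_nil, D.φ_one]; simp⟩
      | cons x l ih =>
        intro hl
        obtain ⟨c, h1, h2⟩ := ih (fun y hy => hl y (List.mem_cons_of_mem _ hy))
        have hx := hL x (hl x List.mem_cons_self)
        refine ⟨fun i => c i + if i = e ⟨_, hx⟩ then 1 else 0, ?_, ?_⟩
        · rw [Finset.sum_add_distrib, h1, Finset.sum_ite_eq' Finset.univ (e ⟨_, hx⟩)]
          simp
        · have h3 : ∀ i, ((c i + (if i = e ⟨_, hx⟩ then 1 else 0) : ℕ) : ℤ) • ((e.symm i : Fin m → ℤ)) =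
              (c i : ℤ) • ((e.symm i : Fin m → ℤ)) + if i = e ⟨_, hx⟩ then ((e.symm i : Fin m → ℤ)) else 0 := by
            intro i
            by_cases h : i = e ⟨_, hx⟩
            · rw [if_pos h, if_pos h]
              push_cast
              rw [add_smul, one_smul]
            · rw [if_neg h, if_neg h]
              simp
          rw [Finset.sum_congr rfl (fun i _ => h3 i), Finset.sum_add_distrib, h2,
            Finset.sum_ite_eq' Finset.univ (e ⟨_, hx⟩)]
          simp only [Finset.mem_univ, if_true, Equiv.symm_apply_apply]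
          rw [List.prod_cons, D.φ_mul, add_comm]
    refine hLPC m L.card (fun i => (e.symm i : Fin m → ℤ)) (fun v => ln S (D.fib v)) ?_
    intro v n
    constructor
    · intro h
      obtain ⟨l, h1, h2, h3⟩ := f_spec D hS v
      obtain ⟨c, h4, h5⟩ := key l h2
      refine ⟨c, ?_, by rw [h5, h3]⟩
      rw [h4, h1]
      exact h
    · rintro ⟨c, h1, rfl⟩
      calc ln S (D.fib (∑ i, (c i : ℤ) • ((e.symm i : Fin m → ℤ)))) ≤
            ∑ i, f D S ((c i : ℤ) • ((e.symm i : Fin m → ℤ))) := f_sum D hS _ _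
        _ ≤ ∑ i, c i := by
            refine Finset.sum_le_sum fun i _ => (f_nsmul D hS _ _).trans ?_
            have := hL1 _ (e.symm i).2
            calc c i * f D S ((e.symm i : Fin m → ℤ)) ≤ c i * 1 := Nat.mul_le_mul_left _ this
              _ = c i := mul_one _
        _ ≤ n := h1

end MPa1853d.HH
end

section
set_option autoImplicit false

/-! # Module CGC: the count of conjugacy classes by length, in terms of `clen` -/

namespace MPa1853d.HH

open MPa1853d

namespace CGCM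

variable {G : Type} [Group G] {S : Finset G}

theorem carrier_nonempty (κ : ConjClasses G) : κ.carrier.Nonempty := by
  obtain ⟨x, rfl⟩ := ConjClasses.mk_surjective κ
  exact ⟨x, ConjClasses.mem_carrier_mk⟩

theorem clen_iff (hS : Subgroup.closure (S : Set G) = ⊤) (κ : ConjClasses G) (n : ℕ) :
    clen S κ = n ↔ ((∃ g : G, ConjClasses.mk g = κ ∧
      ∃ l : List G, l.length ≤ n ∧ (∀ x ∈ l, x ∈ S ∨ x⁻¹ ∈ S) ∧ l.prod = g) ∧
      (∀ g : G, ConjClasses.mk g = κ →
        ∀ l : List G, (∀ x ∈ l, x ∈ S ∨ x⁻¹ ∈ S) → l.prod = g → n ≤ l.length)) := by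
  obtain ⟨l, h1, h2, h3⟩ := ln_spec hS (carrier_nonempty κ)
  constructor
  · rintro rfl
    refine ⟨⟨l.prod, ConjClasses.mem_carrier_iff_mk_eq.1 h3, l, h1.le, h2, rfl⟩, ?_⟩
    intro g hg l' hl' hp
    exact ln_le hl' (by rw [hp]; exact ConjClasses.mem_carrier_iff_mk_eq.2 hg)
  · rintro ⟨⟨g, hg, l', hl, hw, hp⟩, h4⟩
    apply le_antisymm
    · exact (ln_le hw (by rw [hp]; exact ConjClasses.mem_carrier_iff_mk_eq.2 hg)).trans hl
    · have := h4 l.prod (ConjClasses.mem_carrier_iff_mk_eq.1 h3) l h2 rfl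
      rw [h1] at this
      exact this

theorem fin (hS : Subgroup.closure (S : Set G) = ⊤) (n : ℕ) :
    {κ : ConjClasses G | clen S κ ≤ n}.Finite := by
  have hAf : {x : G | x ∈ S ∨ x⁻¹ ∈ S}.Finite := by
    refine (S.finite_toSet.union (S.finite_toSet.image (fun x => x⁻¹))).subset ?_
    rintro x (h | h)
    · exact Or.inl h
    · exact Or.inr ⟨x⁻¹, h, inv_inv x⟩
  have : Finite {x : G | x ∈ S ∨ x⁻¹ ∈ S} := hAf
  have h0 : {l : List {x : G | x ∈ S ∨ x⁻¹ ∈ S} | l.length ≤ n}.Finite :=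
    List.finite_length_le _ n
  refine (h0.image (fun l => ConjClasses.mk (l.map Subtype.val).prod)).subset ?_
  intro κ hκ
  obtain ⟨l, h1, h2, h3⟩ := ln_spec hS (carrier_nonempty κ)
  have h2' : ∀ x ∈ l, x ∈ {x : G | x ∈ S ∨ x⁻¹ ∈ S} := h2
  refine ⟨l.pmap Subtype.mk h2', ?_, ?_⟩
  · show (l.pmap Subtype.mk h2').length ≤ n
    rw [List.length_pmap, h1]
    exact hκ
  · show ConjClasses.mk (((l.pmap Subtype.mk h2').map Subtype.val).prod) = κ
    have h4 : (l.pmap Subtype.mk h2').map Subtype.val = l := by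
      rw [List.map_pmap]
      exact (List.pmap_eq_map h2').trans (List.map_id l)
    rw [h4]
    exact ConjClasses.mem_carrier_iff_mk_eq.1 h3

end CGCM

theorem specCGC : SpecCGC := by
  intro G _ S hS n
  refine ⟨?_, CGCM.fin hS n⟩
  unfold cgc
  congr 1
  ext κ
  exact (CGCM.clen_iff hS κ n).symm

end MPa1853d.HH
end

section
set_option autoImplicit false

/-!
# MP_a1853d, module CHN: the chain lemma
-/

namespace MPa1853d.HH

namespace CHNM

open Finset

section Core

variable {Y : Type}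

open Classical in
lemma core (T : Equiv.Perm Y) (len : Y → ℕ) (M : ℕ) (r : ℝ) (h0 : 0 ≤ r) (h1 : r ≤ 1)
    (hs : Summable fun y => r ^ len y) (E : Y → Prop)
    (hE : ∀ a, E a → ∀ k, 1 ≤ k → k ≤ M → ¬ E ((T ^ k) a))
    (hlen : ∀ z, ∀ l, l ≤ M → E ((T ^ l) z) → len z ≤ len ((T ^ l) z)) :
    ((M : ℝ) + 1) * ∑' y, (if E y then r ^ len y else 0) ≤ ∑' y, r ^ len y := by
  have hsE : ∀ l : ℕ, Summable fun z => (if E ((T ^ l) z) then r ^ len z else 0) := by
    intro l
    refine Summable.of_nonneg_of_le (fun z => ?_) (fun z => ?_) hs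
    · split_ifs
      · exact pow_nonneg h0 _
      · exact le_rfl
    · split_ifs
      · exact le_rfl
      · exact pow_nonneg h0 _
  have step : ∀ l ∈ range (M + 1), ∑' y, (if E y then r ^ len y else 0) ≤
      ∑' z, (if E ((T ^ l) z) then r ^ len z else 0) := by
    intro l hl
    rw [mem_range] at hl
    rw [← (T ^ l).tsum_eq (fun y => if E y then r ^ len y else 0)]
    refine Summable.tsum_le_tsum (fun z => ?_) ?_ (hsE l)
    · split_ifs with h
      · exact pow_le_pow_of_le_one h0 h1 (hlen z l (by omega) h)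
      · exact le_rfl
    · have h2 : Summable (fun y => if E y then r ^ len y else 0) := by
        simpa using hsE 0
      exact ((T ^ l).summable_iff (f := fun y => if E y then r ^ len y else 0)).2 h2
  have hpt : ∀ z, ∑ l ∈ range (M + 1), (if E ((T ^ l) z) then r ^ len z else 0) ≤ r ^ len z := by
    intro z
    rw [← Finset.sum_filter, Finset.sum_const, nsmul_eq_mul]
    have hc : ((range (M + 1)).filter (fun l => E ((T ^ l) z))).card ≤ 1 := by
      rw [Finset.card_le_one]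
      have key : ∀ a b, a < b → b < M + 1 → E ((T ^ a) z) → E ((T ^ b) z) → False := by
        intro a b hab hb ha hb'
        refine hE _ ha (b - a) (by omega) (by omega) ?_
        rw [← Equiv.Perm.mul_apply, ← pow_add, Nat.sub_add_cancel hab.le]
        exact hb'
      intro a ha b hb
      rw [mem_filter, mem_range] at ha hb
      rcases lt_trichotomy a b with h | h | h
      · exact (key a b h hb.1 ha.2 hb.2).elim
      · exact h
      · exact (key b a h ha.1 hb.2 ha.2).elim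
    have hc' : (((range (M + 1)).filter (fun l => E ((T ^ l) z))).card : ℝ) ≤ 1 := by
      exact_mod_cast hc
    exact mul_le_of_le_one_left (pow_nonneg h0 _) hc'
  calc ((M : ℝ) + 1) * ∑' y, (if E y then r ^ len y else 0)
      = ∑ l ∈ range (M + 1), ∑' y, (if E y then r ^ len y else 0) := by
        rw [Finset.sum_const, card_range, nsmul_eq_mul]; push_cast; ring
    _ ≤ ∑ l ∈ range (M + 1), ∑' z, (if E ((T ^ l) z) then r ^ len z else 0) :=
        Finset.sum_le_sum step
    _ = ∑' z, ∑ l ∈ range (M + 1), (if E ((T ^ l) z) then r ^ len z else 0) :=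
        (Summable.tsum_finsetSum fun l _ => hsE l).symm
    _ ≤ ∑' z, r ^ len z :=
        Summable.tsum_le_tsum hpt (summable_sum fun l _ => hsE l) hs

end Core

section Main

variable {Y : Type} {N : ℕ} (T : Fin N → Equiv.Perm Y) (len : Y → ℕ) (K M : ℕ)

/-- `i ∈ D y` -/
def DD (i : Fin N) (y : Y) : Prop := len (((T i) ^ M).symm y) + M * K = len y

/-- `y ∈ B i` -/
def BB (i : Fin N) (y : Y) : Prop := DD T len K M i y ∧ ∀ j, j < i → ¬ DD T len K M j y

variable {T len K M}

lemma lip (h1 : ∀ i y, len (T i y) ≤ len y + K) (i : Fin N) (l : ℕ) (y : Y) :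
    len (((T i) ^ l) y) ≤ len y + l * K := by
  induction l with
  | zero => simp
  | succ l ih =>
    rw [pow_succ', Equiv.Perm.mul_apply]
    have := h1 i (((T i) ^ l) y)
    rw [add_mul, one_mul]
    omega

lemma one (h1 : ∀ i y, len (T i y) ≤ len y + K) {i : Fin N} {y : Y} (h : DD T len K M i y) {l : ℕ}
    (hl : l ≤ M) : len (((T i) ^ l).symm y) + l * K = len y := by
  unfold DD at h
  obtain ⟨x, hx⟩ : ∃ x, x = ((T i) ^ M).symm y := ⟨_, rfl⟩
  obtain ⟨w, hw⟩ : ∃ w, w = ((T i) ^ l).symm y := ⟨_, rfl⟩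
  rw [← hx] at h
  rw [← hw]
  have hx' : ((T i) ^ M) x = y := by rw [hx]; exact Equiv.apply_symm_apply _ _
  have hw' : ((T i) ^ l) w = y := by rw [hw]; exact Equiv.apply_symm_apply _ _
  have e : w = ((T i) ^ (M - l)) x := by
    apply ((T i) ^ l).injective
    rw [hw', ← Equiv.Perm.mul_apply, ← pow_add, Nat.add_sub_cancel' hl, hx']
  have a1 := lip h1 i l w
  rw [hw'] at a1
  have a2 := lip h1 i (M - l) x
  rw [← e] at a2
  have a3 : (M - l) * K + l * K = M * K := by
    rw [← add_mul, Nat.sub_add_cancel hl]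
  omega

lemma two (hc : ∀ i j y, T i (T j y) = T j (T i y)) (h1 : ∀ i y, len (T i y) ≤ len y + K)
    {i j : Fin N} {c : Y} (hs : len ((T i).symm c) + K = len c)
    (h : DD T len K M j ((T i).symm c)) : DD T len K M j c := by
  unfold DD at h ⊢
  obtain ⟨x', hx'⟩ : ∃ x', x' = ((T j) ^ M).symm ((T i).symm c) := ⟨_, rfl⟩
  obtain ⟨x, hx⟩ : ∃ x, x = ((T j) ^ M).symm c := ⟨_, rfl⟩
  rw [← hx'] at h
  rw [← hx]
  have e1 : ((T j) ^ M) x' = (T i).symm c := by rw [hx']; exact Equiv.apply_symm_apply _ _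
  have e2 : ((T j) ^ M) x = c := by rw [hx]; exact Equiv.apply_symm_apply _ _
  have hcomm : Commute (T i) (T j) := Equiv.ext (hc i j)
  have e3 : T i x' = x := by
    apply ((T j) ^ M).injective
    rw [e2]
    have h2 : (T i * (T j) ^ M) x' = ((T j) ^ M * T i) x' := by rw [(hcomm.pow_right M).eq]
    rw [Equiv.Perm.mul_apply, Equiv.Perm.mul_apply, e1, Equiv.apply_symm_apply] at h2
    exact h2.symm
  have a1 := h1 i x'
  rw [e3] at a1
  have a2 := lip h1 j M x
  rw [e2] at a2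
  omega

lemma chain (hc : ∀ i j y, T i (T j y) = T j (T i y)) (h1 : ∀ i y, len (T i y) ≤ len y + K)
    {i j : Fin N} {b : Y} (hb : DD T len K M i b) (l : ℕ) (hl : l + 1 ≤ M)
    (h : DD T len K M j (((T i) ^ (l + 1)).symm b)) : DD T len K M j (((T i) ^ l).symm b) := by
  have e : ((T i) ^ (l + 1)).symm b = (T i).symm (((T i) ^ l).symm b) := by
    rw [Equiv.symm_apply_eq, pow_succ, Equiv.Perm.mul_apply, Equiv.apply_symm_apply,
      Equiv.apply_symm_apply]
  rw [e] at h
  refine two hc h1 ?_ h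
  have a1 := one h1 hb hl
  have a2 := one h1 hb (l := l) (by omega)
  rw [e] at a1
  rw [add_mul, one_mul] at a1
  omega

lemma chain2 (hc : ∀ i j y, T i (T j y) = T j (T i y)) (h1 : ∀ i y, len (T i y) ≤ len y + K)
    {i j : Fin N} {b : Y} (hb : DD T len K M i b) (l d : ℕ) (hl : l + d ≤ M)
    (h : DD T len K M j (((T i) ^ (l + d)).symm b)) : DD T len K M j (((T i) ^ l).symm b) := by
  induction d with
  | zero => simpa using h
  | succ d ih =>
    refine ih (by omega) ?_
    exact chain hc h1 hb (l + d) (by omega) h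

/-- all intermediate points are in `B i` -/
lemma mid (hc : ∀ i j y, T i (T j y) = T j (T i y)) (h1 : ∀ i y, len (T i y) ≤ len y + K)
    {i : Fin N} {a : Y} {k : ℕ} (hk : k ≤ M) (ha : BB T len K M i a)
    (hb : BB T len K M i (((T i) ^ k) a)) {l : ℕ} (hl : l ≤ k) :
    BB T len K M i (((T i) ^ l).symm (((T i) ^ k) a)) := by
  have hak : ((T i) ^ k).symm (((T i) ^ k) a) = a := Equiv.symm_apply_apply _ _
  constructor
  · refine chain2 hc h1 hb.1 l (k - l) (by omega) ?_
    rw [Nat.add_sub_cancel' hl, hak]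
    exact ha.1
  · intro j hj hD
    refine hb.2 j hj ?_
    have := chain2 (j := j) hc h1 hb.1 0 l (by omega) (by rwa [zero_add])
    rw [pow_zero] at this
    exact this

open Classical in
lemma part (hc : ∀ i j y, T i (T j y) = T j (T i y)) (h1 : ∀ i y, len (T i y) ≤ len y + K)
    (hM : 0 < M) {t : ℂ} (ht : ‖t‖ < 1) (hs : Summable fun y => ‖t‖ ^ len y) (i : Fin N) :
    ‖∑' y, (if BB T len K M i y then t ^ len y else 0)‖ * ‖1 - t ^ K‖ ≤
      2 / ((M : ℝ) + 1) * ∑' y, ‖t‖ ^ len y := by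
  have hM1 : (0 : ℝ) < (M : ℝ) + 1 := by positivity
  obtain ⟨b, hb⟩ : ∃ b : Y → ℂ, b = fun y => (if BB T len K M i y then t ^ len y else 0) :=
    ⟨_, rfl⟩
  have hbs : Summable b := by
    refine Summable.of_norm_bounded hs fun y => ?_
    rw [hb]
    simp only
    split_ifs
    · rw [norm_pow]
    · rw [norm_zero]; positivity
  rw [← hb]
  -- the two exceptional sets
  have hX := core (T i) len M ‖t‖ (norm_nonneg _) ht.le hs
    (fun y => BB T len K M i y ∧ ¬ BB T len K M i ((T i).symm y)) (by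
      intro a ha k hk1 hkM hbad
      refine hbad.2 ?_
      have := mid hc h1 hkM ha.1 hbad.1 hk1
      rwa [pow_one] at this) (by
      intro z l hl hE
      have := one h1 hE.1.1 hl
      rw [Equiv.symm_apply_apply] at this
      omega)
  have hZ := core (T i) len M ‖t‖ (norm_nonneg _) ht.le hs
    (fun y => BB T len K M i y ∧ ¬ BB T len K M i (T i y)) (by
      intro a ha k hk1 hkM hbad
      refine ha.2 ?_
      have := mid hc h1 hkM ha.1 hbad.1 (l := k - 1) (by omega)
      have e : ((T i) ^ (k - 1)).symm (((T i) ^ k) a) = T i a := by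
        rw [Equiv.symm_apply_eq, ← Equiv.Perm.mul_apply, ← pow_succ, Nat.sub_add_cancel hk1]
      rwa [e] at this) (by
      intro z l hl hE
      have := one h1 hE.1.1 hl
      rw [Equiv.symm_apply_apply] at this
      omega)
  obtain ⟨x, hx⟩ : ∃ x : Y → ℝ, x = fun y =>
    (if BB T len K M i y ∧ ¬ BB T len K M i ((T i).symm y) then ‖t‖ ^ len y else 0) := ⟨_, rfl⟩
  obtain ⟨z, hz⟩ : ∃ z : Y → ℝ, z = fun y =>
    (if BB T len K M i y ∧ ¬ BB T len K M i (T i y) then ‖t‖ ^ len y else 0) := ⟨_, rfl⟩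
  have hxs : Summable x := by
    refine Summable.of_nonneg_of_le (fun y => ?_) (fun y => ?_) hs
    · rw [hx]; simp only; split_ifs <;> positivity
    · rw [hx]; simp only; split_ifs
      · exact le_rfl
      · positivity
  have hzs : Summable z := by
    refine Summable.of_nonneg_of_le (fun y => ?_) (fun y => ?_) hs
    · rw [hz]; simp only; split_ifs <;> positivity
    · rw [hz]; simp only; split_ifs
      · exact le_rfl
      · positivity
  have hX' : ((M : ℝ) + 1) * ∑' y, x y ≤ ∑' y, ‖t‖ ^ len y := by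
    rw [hx]; convert hX
  have hZ' : ((M : ℝ) + 1) * ∑' y, z y ≤ ∑' y, ‖t‖ ^ len y := by
    rw [hz]; convert hZ
  have hbs' : Summable fun y => b ((T i).symm y) := ((T i).symm.summable_iff (f := b)).2 hbs
  have hzs' : Summable fun y => z ((T i).symm y) := ((T i).symm.summable_iff (f := z)).2 hzs
  have key : (∑' y, b y) * (1 - t ^ K) = ∑' y, (b y - t ^ K * b ((T i).symm y)) := by
    rw [hbs.tsum_sub (hbs'.mul_left _), tsum_mul_left, (T i).symm.tsum_eq b]
    ring
  have hpt : ∀ y, ‖b y - t ^ K * b ((T i).symm y)‖ ≤ x y + z ((T i).symm y) := by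
    intro y
    rw [hb, hx, hz]
    simp only [Equiv.apply_symm_apply]
    by_cases h3 : BB T len K M i y
    · by_cases h4 : BB T len K M i ((T i).symm y)
      · have h5 := one h1 h3.1 (l := 1) hM
        rw [pow_one, one_mul] at h5
        rw [if_pos h3, if_pos h4, ← h5, pow_add, mul_comm (t ^ K), sub_self, norm_zero]
        simp [h3, h4]
      · rw [if_pos h3, if_neg h4, mul_zero, sub_zero, norm_pow, if_pos ⟨h3, h4⟩,
          if_neg (fun h => h4 h.1), add_zero]
    · by_cases h4 : BB T len K M i ((T i).symm y)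
      · rw [if_neg h3, if_pos h4, zero_sub, norm_neg, norm_mul, norm_pow, norm_pow,
          if_neg (fun h => h3 h.1), if_pos ⟨h4, h3⟩, zero_add]
        exact mul_le_of_le_one_left (by positivity) (pow_le_one₀ (norm_nonneg _) ht.le)
      · rw [if_neg h3, if_neg h4]
        simp [h3, h4]
  rw [← norm_mul, key]
  have h6 : ‖∑' y, (b y - t ^ K * b ((T i).symm y))‖ ≤ ∑' y, (x y + z ((T i).symm y)) :=
    tsum_of_norm_bounded (hxs.add hzs').hasSum hpt
  have h7 : ∑' y, (x y + z ((T i).symm y)) = ∑' y, x y + ∑' y, z y := by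
    rw [hxs.tsum_add hzs', (T i).symm.tsum_eq z]
  rw [h7] at h6
  refine le_trans h6 ?_
  rw [div_mul_eq_mul_div, le_div_iff₀ hM1]
  nlinarith

end Main

end CHNM

open Classical in
theorem specCHN : SpecCHN := by
  intro Y N T len K M F t hK hM hc h1 h2 h3 ht hs
  have hfs : Summable fun y => t ^ len y := by
    refine Summable.of_norm_bounded hs fun y => ?_
    rw [norm_pow]
  have hBs : ∀ i : Fin N, Summable fun y =>
      (if CHNM.BB T len K M i y then t ^ len y else 0) := by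
    intro i
    refine Summable.of_norm_bounded hs fun y => ?_
    split_ifs
    · rw [norm_pow]
    · rw [norm_zero]; positivity
  obtain ⟨a, ha⟩ : ∃ a : Y → ℂ, a = fun y =>
    (if ∃ i, CHNM.DD T len K M i y then 0 else t ^ len y) := ⟨_, rfl⟩
  have has : ∀ y, y ∉ F → a y = 0 := by
    intro y hy
    rw [ha]
    exact if_pos (h3 y hy)
  have hdec : ∀ y, t ^ len y = a y + ∑ i : Fin N,
      (if CHNM.BB T len K M i y then t ^ len y else 0) := by
    intro y
    rw [ha]
    simp only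
    by_cases h : ∃ i, CHNM.DD T len K M i y
    · rw [if_pos h, zero_add]
      obtain ⟨i, hi, hmin⟩ : ∃ i, CHNM.DD T len K M i y ∧ ∀ j, j < i → ¬ CHNM.DD T len K M j y := by
        obtain ⟨i, hi, hm⟩ := WellFounded.has_min (wellFounded_lt (α := Fin N))
          {i | CHNM.DD T len K M i y} h
        exact ⟨i, hi, fun j hj hD => hm j hD hj⟩
      rw [Finset.sum_eq_single i]
      · rw [if_pos ⟨hi, hmin⟩]
      · intro j _ hji
        rw [if_neg]
        rintro ⟨hj1, hj2⟩
        rcases lt_or_gt_of_ne hji with h4 | h4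
        · exact hmin j h4 hj1
        · exact hj2 i h4 hi
      · intro h4
        exact absurd (Finset.mem_univ i) h4
    · rw [if_neg h]
      have : ∑ i : Fin N, (if CHNM.BB T len K M i y then t ^ len y else 0) = 0 :=
        Finset.sum_eq_zero fun i _ => if_neg fun h4 => h ⟨i, h4.1⟩
      rw [this, add_zero]
  have hasum : Summable a := summable_of_ne_finset_zero (s := F) has
  have htot : ∑' y, t ^ len y = ∑' y, a y + ∑ i : Fin N, ∑' y,
      (if CHNM.BB T len K M i y then t ^ len y else 0) := by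
    rw [← Summable.tsum_finsetSum fun i _ => hBs i,
      ← hasum.tsum_add (summable_sum fun i _ => hBs i)]
    exact tsum_congr hdec
  have hnorm1 : ‖1 - t ^ K‖ ≤ 2 := by
    calc ‖1 - t ^ K‖ ≤ ‖(1 : ℂ)‖ + ‖t ^ K‖ := norm_sub_le _ _
      _ ≤ 1 + 1 := by
          rw [norm_one, norm_pow]
          exact add_le_add le_rfl (pow_le_one₀ (norm_nonneg _) ht.le)
      _ = 2 := by norm_num
  have hA : ‖∑' y, a y‖ ≤ F.card := by
    rw [tsum_eq_sum has]
    refine le_trans (norm_sum_le _ _) ?_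
    calc ∑ y ∈ F, ‖a y‖ ≤ ∑ y ∈ F, (1 : ℝ) := by
          refine Finset.sum_le_sum fun y _ => ?_
          rw [ha]
          simp only
          split_ifs
          · rw [norm_zero]; exact zero_le_one
          · rw [norm_pow]; exact pow_le_one₀ (norm_nonneg _) ht.le
      _ = F.card := by rw [Finset.sum_const, nsmul_eq_mul, mul_one]
  rw [htot]
  calc ‖∑' y, a y + ∑ i : Fin N, ∑' y, (if CHNM.BB T len K M i y then t ^ len y else 0)‖ *
        ‖1 - t ^ K‖
      ≤ (‖∑' y, a y‖ + ∑ i : Fin N, ‖∑' y, (if CHNM.BB T len K M i y then t ^ len y else 0)‖) *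
        ‖1 - t ^ K‖ := by
        refine mul_le_mul_of_nonneg_right ?_ (norm_nonneg _)
        exact le_trans (norm_add_le _ _) (add_le_add le_rfl (norm_sum_le _ _))
    _ = ‖∑' y, a y‖ * ‖1 - t ^ K‖ + ∑ i : Fin N,
        ‖∑' y, (if CHNM.BB T len K M i y then t ^ len y else 0)‖ * ‖1 - t ^ K‖ := by
        rw [add_mul, Finset.sum_mul]
    _ ≤ (F.card : ℝ) * 2 + ∑ i : Fin N, 2 / ((M : ℝ) + 1) * ∑' y, ‖t‖ ^ len y := by
        refine add_le_add ?_ (Finset.sum_le_sum fun i _ => CHNM.part hc h1 hM ht hs i)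
        exact mul_le_mul hA hnorm1 (norm_nonneg _) (Nat.cast_nonneg _)
    _ = 2 * (F.card : ℝ) + (2 * (N : ℝ) / ((M : ℝ) + 1)) * ∑' y, ‖t‖ ^ len y := by
        rw [Finset.sum_const, Finset.card_univ, Fintype.card_fin, nsmul_eq_mul]
        ring

end MPa1853d.HH
end

section
set_option autoImplicit false

/-!
# Module CLC: counting the conjugacy classes of length at most `n`
-/

namespace MPa1853d.HH

open MPa1853d

namespace CLCM

variable {G : Type} [Group G] {m : ℕ} (D : HData G m)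

theorem mem_carrier {x y : G} : y ∈ (ConjClasses.mk x).carrier ↔ IsConj x y := by
  rw [ConjClasses.mem_carrier_iff_mk_eq, ConjClasses.mk_eq_mk_iff_isConj, isConj_comm]

theorem carrier_subset_fib (x : G) : (ConjClasses.mk x).carrier ⊆ D.fib (D.φ x) := by
  intro y hy
  rw [mem_carrier] at hy
  exact D.φ_of_mem_qc (K := 0) (D.mem_qc_of_isConj hy)

theorem ln_fib_le {S : Finset G} (hS : Subgroup.closure (S : Set G) = ⊤) (x : G) :
    ln S (D.fib (D.φ x)) ≤ clen S (ConjClasses.mk x) :=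
  ln_anti hS ⟨x, mem_carrier.2 (IsConj.refl x)⟩ (carrier_subset_fib D x)

/-- a lift of `v`. -/
noncomputable def lift (v : Fin m → ℤ) : G := (D.φ_surj v).choose

theorem φ_lift (v : Fin m → ℤ) : D.φ (lift D v) = v := (D.φ_surj v).choose_spec

theorem exists_rep (x : G) (hx : D.φ x ≠ 0) :
    ∃ j ∈ Finset.range (D.gg (lift D (D.φ x))),
      ConjClasses.mk (lift D (D.φ x) * D.z ^ (j : ℤ)) = ConjClasses.mk x := by
  have h1 : D.φ (lift D (D.φ x)) = D.φ x := φ_lift D _
  obtain ⟨k, hk⟩ := D.eq_of_φ h1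
  have hg : 0 < D.gg (lift D (D.φ x)) := D.gg_pos (by rw [h1]; exact hx)
  have hg' : (0 : ℤ) < (D.gg (lift D (D.φ x)) : ℤ) := by exact_mod_cast hg
  refine ⟨(k % (D.gg (lift D (D.φ x)) : ℤ)).toNat, ?_, ?_⟩
  · rw [Finset.mem_range]
    have := Int.emod_lt_of_pos k hg'
    have := Int.emod_nonneg k hg'.ne'
    omega
  · rw [ConjClasses.mk_eq_mk_iff_isConj, D.isConj_iff]
    refine ⟨k / (D.gg (lift D (D.φ x)) : ℤ), ?_⟩
    rw [Int.toNat_of_nonneg (Int.emod_nonneg k hg'.ne')]
    rw [D.gg_congr (x' := lift D (D.φ x)) (D.φ_mul_z _ _)]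
    rw [mul_assoc, ← zpow_add, mul_comm (k / _), Int.emod_add_mul_ediv]
    exact hk

theorem carrier_z (k : ℤ) {y : G} (hy : y ∈ (ConjClasses.mk (D.z ^ k)).carrier) : y = D.z ^ k := by
  rw [mem_carrier, D.isConj_iff] at hy
  obtain ⟨j, rfl⟩ := hy
  rw [D.gg_eq_zero.2 (D.φ_z k)]
  simp

end CLCM

open CLCM in
theorem specCLC (hABL : SpecABL) (hDET : SpecDET) (hCNT : SpecCNT) (hCEN : SpecCEN)
    (hCGC : SpecCGC) : SpecCLC := by
  classical
  intro G _ m D S hm hS
  obtain ⟨⟨B, hB⟩, _, _⟩ := hABL G m D S hS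
  obtain ⟨Δ, hΔ, hdet⟩ := hDET G m D
  obtain ⟨Ct, hCt, hcnt⟩ := hCNT m Δ hm hΔ
  obtain ⟨Cc, hcen⟩ := hCEN G m D S hS
  have hfin : ∀ n : ℕ, {κ : ConjClasses G | clen S κ ≤ n}.Finite := fun n => (hCGC G S hS n).2
  let g : (Fin m → ℤ) → ℕ := fun v => D.gg (lift D v)
  have hg : ∀ v, v ≠ 0 → 0 < g v ∧ ∀ i, (g v : ℤ) ∣ Δ * v i := by
    intro v hv
    refine ⟨D.gg_pos (by rw [φ_lift]; exact hv), fun i => ?_⟩
    have := hdet (lift D v) i
    rwa [φ_lift] at this
  -- big classes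
  have hbig : ∀ T n : ℕ, ({κ : ConjClasses G | (∃ x, ConjClasses.mk x = κ ∧ D.φ x ≠ 0 ∧
      T < D.gg x) ∧ clen S κ ≤ n}.ncard : ℝ) ≤ Ct * (B : ℝ) ^ m * ((n : ℝ) + 1) ^ m /
        ((T : ℝ) + 1) := by
    intro T n
    set V := (Fintype.piFinset (fun _ : Fin m =>
      Finset.Icc (-((B * n : ℕ) : ℤ)) ((B * n : ℕ) : ℤ))).filter (fun v => v ≠ 0 ∧ T < g v) with hV
    have hsub : {κ : ConjClasses G | (∃ x, ConjClasses.mk x = κ ∧ D.φ x ≠ 0 ∧
        T < D.gg x) ∧ clen S κ ≤ n} ⊆ ((V.biUnion (fun v => (Finset.range (g v)).image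
          (fun j : ℕ => ConjClasses.mk (lift D v * D.z ^ (j : ℤ))))) : Finset (ConjClasses G)) := by
      rintro κ ⟨⟨x, rfl, hx0, hxT⟩, hlen⟩
      rw [Finset.mem_coe, Finset.mem_biUnion]
      refine ⟨D.φ x, ?_, ?_⟩
      · rw [hV, Finset.mem_filter, Fintype.mem_piFinset]
        refine ⟨fun i => ?_, hx0, ?_⟩
        · rw [Finset.mem_Icc]
          have h1 := hB (D.φ x) i
          have h2 : (ln S (D.fib (D.φ x)) : ℤ) ≤ n := by
            exact_mod_cast (ln_fib_le D hS x).trans hlen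
          have h3 : |D.φ x i| ≤ ((B * n : ℕ) : ℤ) := by
            push_cast
            exact h1.trans (mul_le_mul_of_nonneg_left h2 (by positivity))
          exact abs_le.1 h3
        · show T < D.gg (lift D (D.φ x))
          rw [D.gg_congr (φ_lift D (D.φ x))]
          exact hxT
      · rw [Finset.mem_image]
        exact exists_rep D x hx0
    have h1 := Set.ncard_le_ncard hsub (Finset.finite_toSet _)
    rw [Set.ncard_coe_finset] at h1
    have h2 : (V.biUnion (fun v => (Finset.range (g v)).image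
          (fun j : ℕ => ConjClasses.mk (lift D v * D.z ^ (j : ℤ))))).card ≤ ∑ v ∈ V, g v := by
      refine Finset.card_biUnion_le.trans (Finset.sum_le_sum fun v _ => ?_)
      refine Finset.card_image_le.trans ?_
      rw [Finset.card_range]
    have h3 := hcnt (B * n) T g hg
    calc ({κ : ConjClasses G | (∃ x, ConjClasses.mk x = κ ∧ D.φ x ≠ 0 ∧
        T < D.gg x) ∧ clen S κ ≤ n}.ncard : ℝ) ≤ ((∑ v ∈ V, g v : ℕ) : ℝ) := by
          exact_mod_cast h1.trans h2
      _ ≤ Ct * ((B * n : ℕ) : ℝ) ^ m / ((T : ℝ) + 1) := h3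
      _ ≤ Ct * (B : ℝ) ^ m * ((n : ℝ) + 1) ^ m / ((T : ℝ) + 1) := by
          apply div_le_div_of_nonneg_right _ (by positivity)
          push_cast
          rw [mul_pow, ← mul_assoc]
          apply mul_le_mul_of_nonneg_left _ (by positivity)
          exact pow_le_pow_left₀ (by positivity) (by linarith) m
  -- central classes
  have hcent : ∀ n : ℕ, ({κ : ConjClasses G | (∃ x, ConjClasses.mk x = κ ∧ D.φ x = 0) ∧
      clen S κ ≤ n}.ncard : ℝ) ≤ (2 * Cc + 1) * ((n : ℝ) + 1) ^ (m - 1) := by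
    intro n
    have hsub : {κ : ConjClasses G | (∃ x, ConjClasses.mk x = κ ∧ D.φ x = 0) ∧
        clen S κ ≤ n} ⊆ (((Finset.Icc (-((Cc : ℤ) * ((n : ℤ) + 1) ^ 2))
          ((Cc : ℤ) * ((n : ℤ) + 1) ^ 2)).image (fun k : ℤ => ConjClasses.mk (D.z ^ k)) :
            Finset (ConjClasses G)) : Set (ConjClasses G)) := by
      rintro κ ⟨⟨x, rfl, hx0⟩, hlen⟩
      obtain ⟨k, rfl⟩ := (D.φ_ker x).1 hx0
      rw [Finset.mem_coe, Finset.mem_image]
      refine ⟨k, ?_, rfl⟩
      rw [Finset.mem_Icc]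
      obtain ⟨l, hl1, hl2, hl3⟩ := ln_spec hS
        (X := (ConjClasses.mk (D.z ^ k)).carrier) ⟨_, mem_carrier.2 (IsConj.refl _)⟩
      have h4 := carrier_z D k hl3
      have h5 := hcen n k ⟨l, by rw [hl1]; exact hlen, hl2, h4⟩
      exact abs_le.1 h5
    have h1 := Set.ncard_le_ncard hsub (Finset.finite_toSet _)
    rw [Set.ncard_coe_finset] at h1
    have h2 := h1.trans Finset.card_image_le
    rw [Int.card_Icc] at h2
    have h3 : ((Cc : ℤ) * ((n : ℤ) + 1) ^ 2 + 1 - -((Cc : ℤ) * ((n : ℤ) + 1) ^ 2)).toNat =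
        2 * (Cc * (n + 1) ^ 2) + 1 := by
      have : (Cc : ℤ) * ((n : ℤ) + 1) ^ 2 + 1 - -((Cc : ℤ) * ((n : ℤ) + 1) ^ 2) =
        ((2 * (Cc * (n + 1) ^ 2) + 1 : ℕ) : ℤ) := by push_cast; ring
      rw [this, Int.toNat_natCast]
    rw [h3] at h2
    have h4 : ((2 * (Cc * (n + 1) ^ 2) + 1 : ℕ) : ℝ) ≤ (2 * Cc + 1) * ((n : ℝ) + 1) ^ (m - 1) := by
      have h5 : ((n : ℝ) + 1) ^ 2 ≤ ((n : ℝ) + 1) ^ (m - 1) :=
        pow_le_pow_right₀ (by linarith [(Nat.cast_nonneg n : (0 : ℝ) ≤ n)]) (by omega)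
      have h6 : (1 : ℝ) ≤ ((n : ℝ) + 1) ^ 2 :=
        one_le_pow₀ (by linarith [(Nat.cast_nonneg n : (0 : ℝ) ≤ n)])
      have h7 : (0 : ℝ) ≤ Cc := Nat.cast_nonneg _
      push_cast
      nlinarith
    exact le_trans (by exact_mod_cast h2) h4
  refine ⟨2 * Cc + 1 + Ct * (B : ℝ) ^ m, by positivity, ?_, ?_, ?_⟩
  · intro n
    have hsub : {κ : ConjClasses G | clen S κ ≤ n} ⊆
        {κ : ConjClasses G | (∃ x, ConjClasses.mk x = κ ∧ D.φ x = 0) ∧ clen S κ ≤ n} ∪
        {κ : ConjClasses G | (∃ x, ConjClasses.mk x = κ ∧ D.φ x ≠ 0 ∧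
          0 < D.gg x) ∧ clen S κ ≤ n} := by
      intro κ hκ
      obtain ⟨x, rfl⟩ := ConjClasses.exists_rep κ
      by_cases hx : D.φ x = 0
      · exact Or.inl ⟨⟨x, rfl, hx⟩, hκ⟩
      · exact Or.inr ⟨⟨x, rfl, hx, D.gg_pos hx⟩, hκ⟩
    have h1 := Set.ncard_le_ncard hsub
      (((hfin n).subset fun κ hκ => hκ.2).union ((hfin n).subset fun κ hκ => hκ.2))
    have h2 := h1.trans (Set.ncard_union_le _ _)
    have h3 := hbig 0 n
    have h4 := hcent n
    have h5 : ((n : ℝ) + 1) ^ (m - 1) ≤ ((n : ℝ) + 1) ^ m :=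
      pow_le_pow_right₀ (by linarith [(Nat.cast_nonneg n : (0 : ℝ) ≤ n)]) (by omega)
    have h6 : (0 : ℝ) ≤ 2 * Cc + 1 := by positivity
    have h7 := (Nat.cast_le (α := ℝ)).2 h2
    push_cast at h3 h7
    rw [zero_add, div_one] at h3
    nlinarith
  · intro n
    refine (hcent n).trans ?_
    apply mul_le_mul_of_nonneg_right _ (by positivity)
    have : (0 : ℝ) ≤ Ct * (B : ℝ) ^ m := by positivity
    linarith
  · intro T n
    refine (hbig T n).trans ?_
    apply div_le_div_of_nonneg_right _ (by positivity)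
    apply mul_le_mul_of_nonneg_right _ (by positivity)
    have : (0 : ℝ) ≤ 2 * (Cc : ℝ) + 1 := by positivity
    linarith

end MPa1853d.HH
end

section
set_option autoImplicit false

/-!
# Conjugacy growth of the higher Heisenberg groups, module CNT: lattice counting
-/

namespace MPa1853d.HH

namespace CNTM

/-- the number of the `t` in `[-R, R]` with `D ∣ Δ t`. -/
theorem card_line (Δ R D : ℕ) (hΔ : 0 < Δ) (hD : 0 < D) :
    ((Finset.Icc (-(R : ℤ)) R).filter fun t => (D : ℤ) ∣ Δ * t).card ≤ 2 * (Δ * R / D) + 1 := by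
  have hcard : (Finset.Icc (-((Δ * R / D : ℕ) : ℤ)) ((Δ * R / D : ℕ) : ℤ)).card
      = 2 * (Δ * R / D) + 1 := by
    rw [Int.card_Icc]
    omega
  rw [← hcard]
  apply Finset.card_le_card_of_injOn (fun t => (Δ : ℤ) * t / D)
  · intro t ht
    rw [Finset.mem_coe, Finset.mem_filter, Finset.mem_Icc] at ht
    obtain ⟨⟨h1, h2⟩, k, hk⟩ := ht
    have hD' : (0 : ℤ) < D := by exact_mod_cast hD
    have h3 : (Δ : ℤ) * t / D = k := by rw [hk, Int.mul_ediv_cancel_left _ hD'.ne']
    rw [Finset.mem_coe, Finset.mem_Icc]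
    simp only
    rw [h3]
    have hΔ' : (0 : ℤ) < Δ := by exact_mod_cast hΔ
    have h4 : ((Δ * R / D : ℕ) : ℤ) = (Δ * R : ℤ) / D := by push_cast; rfl
    rw [h4]
    constructor
    · have h5 : -k ≤ (Δ * R : ℤ) / D := by
        rw [Int.le_ediv_iff_mul_le hD']
        nlinarith
      linarith
    · rw [Int.le_ediv_iff_mul_le hD']
      nlinarith
  · intro t ht t' ht' h
    rw [Finset.mem_coe, Finset.mem_filter] at ht ht'
    obtain ⟨-, k, hk⟩ := ht
    obtain ⟨-, k', hk'⟩ := ht'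
    have hD' : (0 : ℤ) < D := by exact_mod_cast hD
    have hΔ' : (0 : ℤ) < Δ := by exact_mod_cast hΔ
    simp only at h
    rw [hk, hk', Int.mul_ediv_cancel_left _ hD'.ne', Int.mul_ediv_cancel_left _ hD'.ne'] at h
    have h6 : (Δ : ℤ) * t = Δ * t' := by rw [hk, hk', h]
    exact mul_left_cancel₀ hΔ'.ne' h6

end CNTM

theorem specCNT : SpecCNT := by
  intro m Δ hm hΔ
  refine ⟨2 * (3 * Δ) ^ m, by positivity, fun R T g hg => ?_⟩
  set B := (Fintype.piFinset (fun _ : Fin m => Finset.Icc (-(R : ℤ)) R)).filter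
      (fun v => v ≠ 0 ∧ T < g v) with hB
  -- the values
  have hval : ∀ v ∈ B, g v ∈ Finset.Ioo T (Δ * R + 1) := by
    intro v hv
    rw [hB, Finset.mem_filter, Fintype.mem_piFinset] at hv
    obtain ⟨h1, h2, h3⟩ := hv
    rw [Finset.mem_Ioo]
    refine ⟨h3, ?_⟩
    obtain ⟨i, hi⟩ : ∃ i, v i ≠ 0 := by
      by_contra hcon
      push Not at hcon
      exact h2 (funext hcon)
    have h4 := (hg v h2).2 i
    have h5 := h1 i
    rw [Finset.mem_Icc] at h5
    have h6 : (Δ : ℤ) * v i ≠ 0 := mul_ne_zero (by exact_mod_cast hΔ.ne') hi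
    have h7 : (g v : ℤ) ≤ |(Δ : ℤ) * v i| :=
      Int.le_of_dvd (abs_pos.2 h6) ((dvd_abs _ _).2 h4)
    have h8 : |(Δ : ℤ) * v i| ≤ Δ * R := by
      rw [abs_mul, Nat.abs_cast]
      exact mul_le_mul_of_nonneg_left (abs_le.2 h5) (by positivity)
    have h9 : (g v : ℤ) ≤ ((Δ * R : ℕ) : ℤ) := by push_cast; linarith
    have := Int.ofNat_le.1 h9
    omega
  have hcount : ∀ D ∈ Finset.Ioo T (Δ * R + 1),
      (((B.filter fun v => g v = D).card : ℕ) : ℝ) * D ≤ (3 * Δ * R) ^ m * ((D : ℝ) ^ 2)⁻¹ := by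
    intro D hD
    rw [Finset.mem_Ioo] at hD
    have hD0 : 0 < D := by omega
    have hsub : B.filter (fun v => g v = D) ⊆
        Fintype.piFinset (fun _ : Fin m => (Finset.Icc (-(R : ℤ)) R).filter
          fun t => (D : ℤ) ∣ Δ * t) := by
      intro v hv
      rw [Finset.mem_filter, hB, Finset.mem_filter, Fintype.mem_piFinset] at hv
      obtain ⟨⟨h1, h2, h3⟩, h4⟩ := hv
      rw [Fintype.mem_piFinset]
      intro i
      rw [Finset.mem_filter]
      exact ⟨h1 i, h4 ▸ (hg v h2).2 i⟩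
    have h1 : (B.filter fun v => g v = D).card ≤ (2 * (Δ * R / D) + 1) ^ m := by
      refine (Finset.card_le_card hsub).trans ?_
      rw [Fintype.card_piFinset]
      simp only [Finset.prod_const, Finset.card_univ, Fintype.card_fin]
      exact Nat.pow_le_pow_left (CNTM.card_line Δ R D hΔ hD0) m
    have hDR : (0 : ℝ) < D := by exact_mod_cast hD0
    have h2 : (((2 * (Δ * R / D) + 1 : ℕ)) : ℝ) ≤ 3 * Δ * R / D := by
      have h3 : 1 ≤ Δ * R / D := (Nat.one_le_div_iff hD0).2 (by omega)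
      have h4 : (((Δ * R / D : ℕ)) : ℝ) ≤ ((Δ * R : ℕ) : ℝ) / (D : ℝ) := Nat.cast_div_le
      have h5 : ((1 : ℕ) : ℝ) ≤ ((Δ * R / D : ℕ) : ℝ) := by exact_mod_cast h3
      push_cast at h4 h5 ⊢
      have h6 : (3 : ℝ) * Δ * R / D = 3 * (Δ * R / D) := by ring
      rw [h6]
      linarith
    have h7 : (((B.filter fun v => g v = D).card : ℕ) : ℝ) ≤ (3 * Δ * R / D) ^ m := by
      calc (((B.filter fun v => g v = D).card : ℕ) : ℝ)
          ≤ (((2 * (Δ * R / D) + 1 : ℕ)) : ℝ) ^ m := by exact_mod_cast h1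
        _ ≤ (3 * Δ * R / D) ^ m := pow_le_pow_left₀ (by positivity) h2 m
    have hDone : (1 : ℝ) ≤ D := by exact_mod_cast hD0
    calc (((B.filter fun v => g v = D).card : ℕ) : ℝ) * D
        ≤ (3 * Δ * R / D) ^ m * D := mul_le_mul_of_nonneg_right h7 hDR.le
      _ = (3 * Δ * R) ^ m * (D / (D : ℝ) ^ m) := by rw [div_pow]; ring
      _ ≤ (3 * Δ * R) ^ m * ((D : ℝ) ^ 2)⁻¹ := by
          apply mul_le_mul_of_nonneg_left _ (by positivity)
          rw [div_le_iff₀ (by positivity)]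
          obtain ⟨k, rfl⟩ : ∃ k, m = k + 3 := ⟨m - 3, by omega⟩
          have h8 : ((D : ℝ) ^ 2)⁻¹ * (D : ℝ) ^ (k + 3) = (D : ℝ) ^ k * D := by
            field_simp
            ring
          rw [h8]
          have h9 : (1 : ℝ) ≤ (D : ℝ) ^ k := one_le_pow₀ hDone
          nlinarith
  calc ((∑ v ∈ B, g v : ℕ) : ℝ)
      = ∑ D ∈ Finset.Ioo T (Δ * R + 1), (((B.filter fun v => g v = D).card : ℕ) : ℝ) * D := by
        rw [← Finset.sum_fiberwise_of_maps_to hval]
        push_cast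
        refine Finset.sum_congr rfl fun D _ => ?_
        rw [Finset.sum_congr rfl (g := fun _ => (D : ℝ)) ?_]
        · rw [Finset.sum_const, nsmul_eq_mul]
        · intro v hv
          rw [(Finset.mem_filter.1 hv).2]
    _ ≤ ∑ D ∈ Finset.Ioo T (Δ * R + 1), (3 * Δ * R) ^ m * ((D : ℝ) ^ 2)⁻¹ :=
        Finset.sum_le_sum hcount
    _ = (3 * Δ * R) ^ m * ∑ D ∈ Finset.Ioo T (Δ * R + 1), ((D : ℝ) ^ 2)⁻¹ := by
        rw [Finset.mul_sum]
    _ ≤ (3 * Δ * R) ^ m * (2 / ((T : ℝ) + 1)) :=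
        mul_le_mul_of_nonneg_left (sum_Ioo_inv_sq_le T (Δ * R + 1)) (by positivity)
    _ = 2 * (3 * Δ) ^ m * (R : ℝ) ^ m / ((T : ℝ) + 1) := by
        rw [mul_pow (3 * (Δ : ℝ)) (R : ℝ) m]
        ring

end MPa1853d.HH
end

section
set_option autoImplicit false

/-!
# Module CRI: an algebraic series is bounded on the rays to almost all roots of unity
-/

namespace MPa1853d.HH

open MPa1853d

namespace CRIM

open Filter Topology Polynomial

/-- `f` converges absolutely at `z` with the sum `v`. -/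
def Ok (z : ℂ) (f : PowerSeries ℚ) (v : ℂ) : Prop :=
  Summable (fun n : ℕ => ‖((PowerSeries.coeff n f : ℚ) : ℂ) * z ^ n‖) ∧
    ∑' n : ℕ, ((PowerSeries.coeff n f : ℚ) : ℂ) * z ^ n = v

theorem Ok.add {z : ℂ} {f g : PowerSeries ℚ} {v w : ℂ} (hf : Ok z f v) (hg : Ok z g w) :
    Ok z (f + g) (v + w) := by
  have h : ∀ n : ℕ, ((PowerSeries.coeff n (f + g) : ℚ) : ℂ) * z ^ n =
      ((PowerSeries.coeff n f : ℚ) : ℂ) * z ^ n + ((PowerSeries.coeff n g : ℚ) : ℂ) * z ^ n := by
    intro n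
    rw [map_add]
    push_cast
    ring
  refine ⟨?_, ?_⟩
  · refine Summable.of_nonneg_of_le (fun n => norm_nonneg _) (fun n => ?_) (hf.1.add hg.1)
    rw [h]
    exact norm_add_le _ _
  · simp_rw [h]
    rw [(Summable.of_norm hf.1).tsum_add (Summable.of_norm hg.1), hf.2, hg.2]

theorem Ok.mul {z : ℂ} {f g : PowerSeries ℚ} {v w : ℂ} (hf : Ok z f v) (hg : Ok z g w) :
    Ok z (f * g) (v * w) := by
  have h : ∀ n : ℕ, ((PowerSeries.coeff n (f * g) : ℚ) : ℂ) * z ^ n =
      ∑ kl ∈ Finset.HasAntidiagonal.antidiagonal n, (((PowerSeries.coeff kl.1 f : ℚ) : ℂ) * z ^ kl.1) *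
        (((PowerSeries.coeff kl.2 g : ℚ) : ℂ) * z ^ kl.2) := by
    intro n
    rw [PowerSeries.coeff_mul]
    push_cast
    rw [Finset.sum_mul]
    refine Finset.sum_congr rfl fun kl hkl => ?_
    rw [← Finset.HasAntidiagonal.mem_antidiagonal.1 hkl, pow_add]
    ring
  refine ⟨?_, ?_⟩
  · refine (summable_norm_sum_mul_antidiagonal_of_summable_norm hf.1 hg.1).congr fun n => ?_
    rw [h n]
  · calc ∑' n : ℕ, ((PowerSeries.coeff n (f * g) : ℚ) : ℂ) * z ^ n
        = ∑' n : ℕ, ∑ kl ∈ Finset.HasAntidiagonal.antidiagonal n,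
          (((PowerSeries.coeff kl.1 f : ℚ) : ℂ) * z ^ kl.1) *
            (((PowerSeries.coeff kl.2 g : ℚ) : ℂ) * z ^ kl.2) := tsum_congr h
      _ = (∑' n : ℕ, ((PowerSeries.coeff n f : ℚ) : ℂ) * z ^ n) *
          (∑' n : ℕ, ((PowerSeries.coeff n g : ℚ) : ℂ) * z ^ n) :=
        (tsum_mul_tsum_eq_tsum_sum_antidiagonal_of_summable_norm hf.1 hg.1).symm
      _ = v * w := by rw [hf.2, hg.2]

theorem Ok.single {z : ℂ} (m : ℕ) (q : ℚ) :
    Ok z (PowerSeries.monomial m q) ((q : ℂ) * z ^ m) := by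
  have h : ∀ n : ℕ, n ≠ m → ((PowerSeries.coeff n (PowerSeries.monomial m q) : ℚ) : ℂ) * z ^ n = 0 := by
    intro n hn
    rw [PowerSeries.coeff_monomial, if_neg hn]
    simp
  refine ⟨?_, ?_⟩
  · refine summable_of_ne_finset_zero (s := {m}) fun n hn => ?_
    rw [Finset.mem_singleton] at hn
    rw [h n hn, norm_zero]
  · rw [tsum_eq_single m h, PowerSeries.coeff_monomial, if_pos rfl]

theorem Ok.poly {z : ℂ} (p : ℚ[X]) : Ok z (p : PowerSeries ℚ) (aeval z p) := by
  induction p using Polynomial.induction_on' with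
  | add p q hp hq =>
    rw [Polynomial.coe_add, map_add]
    exact hp.add hq
  | monomial n a =>
    rw [Polynomial.coe_monomial, aeval_monomial]
    exact Ok.single n a

theorem Ok.pow {z : ℂ} {f : PowerSeries ℚ} {v : ℂ} (hf : Ok z f v) (n : ℕ) :
    Ok z (f ^ n) (v ^ n) := by
  induction n with
  | zero =>
    rw [pow_zero, pow_zero]
    have := Ok.poly (z := z) (1 : ℚ[X])
    simpa using this
  | succ n ih =>
    rw [pow_succ, pow_succ]
    exact ih.mul hf

theorem Ok.eval₂ {z : ℂ} {f : PowerSeries ℚ} {v : ℂ} (hf : Ok z f v)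
    (P : ℚ[X][X]) :
    Ok z (P.eval₂ Polynomial.coeToPowerSeries.ringHom f)
      (P.eval₂ (aeval z : ℚ[X] →ₐ[ℚ] ℂ).toRingHom v) := by
  induction P using Polynomial.induction_on' with
  | add p q hp hq =>
    rw [eval₂_add, eval₂_add]
    exact hp.add hq
  | monomial n a =>
    rw [eval₂_monomial, eval₂_monomial]
    exact (Ok.poly a).mul (hf.pow n)

/-- a bound for the roots of `∑_{i ≤ d} a i y ^ i = 0`. -/
theorem root_bound {d : ℕ} {a : ℕ → ℂ} {y : ℂ} {A ε : ℝ} (hε : 0 < ε) (hA : 0 ≤ A)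
    (h : ∑ i ∈ Finset.range (d + 1), a i * y ^ i = 0) (hd : ε ≤ ‖a d‖) (ha : ∀ i, i ≤ d → ‖a i‖ ≤ A) :
    ‖y‖ ≤ 1 + d * A / ε := by
  by_contra hcon
  push Not at hcon
  have hq : 0 ≤ d * A / ε := by positivity
  have hy : 1 < ‖y‖ := by linarith
  rcases Nat.eq_zero_or_pos d with hd0 | hd0
  · subst hd0
    rw [Finset.sum_range_one, pow_zero, mul_one] at h
    rw [h, norm_zero] at hd
    linarith
  · rw [Finset.sum_range_succ] at h
    have e : a d * y ^ d = -∑ i ∈ Finset.range d, a i * y ^ i := by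
      linear_combination h
    have h1 : ‖a d‖ * ‖y‖ ^ d ≤ d * (A * ‖y‖ ^ (d - 1)) := by
      rw [← norm_pow, ← norm_mul, e, norm_neg]
      refine (norm_sum_le _ _).trans ?_
      calc ∑ i ∈ Finset.range d, ‖a i * y ^ i‖ ≤ ∑ _i ∈ Finset.range d, A * ‖y‖ ^ (d - 1) := by
            refine Finset.sum_le_sum fun i hi => ?_
            rw [Finset.mem_range] at hi
            rw [norm_mul, norm_pow]
            refine mul_le_mul (ha i hi.le) ?_ (by positivity) hA
            exact pow_le_pow_right₀ hy.le (by omega)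
        _ = _ := by simp
    have h2 : ‖y‖ ^ d = ‖y‖ ^ (d - 1) * ‖y‖ := by
      rw [← pow_succ]
      congr 1
      omega
    have hp : 0 < ‖y‖ ^ (d - 1) := by positivity
    rw [h2] at h1
    have h3 : ε * ‖y‖ ≤ d * A := by
      have h4 : (‖a d‖ * ‖y‖) * ‖y‖ ^ (d - 1) ≤ (d * A) * ‖y‖ ^ (d - 1) := by
        calc _ = ‖a d‖ * (‖y‖ ^ (d - 1) * ‖y‖) := by ring
          _ ≤ _ := h1
          _ = _ := by ring
      have h5 := le_of_mul_le_mul_right h4 hp
      exact (mul_le_mul_of_nonneg_right hd (by positivity)).trans h5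
    have h6 : ‖y‖ ≤ d * A / ε := by
      rw [le_div_iff₀ hε]
      linarith
    linarith

end CRIM

open CRIM Polynomial in
theorem specCRI : SpecCRI := by
  intro c hsum P hP hzero
  set F : ℂ → ℂ := fun w => ∑' n : ℕ, (c n : ℂ) * w ^ n with hF
  have hrel : ∀ w : ℂ, ‖w‖ < 1 →
      ∑ i ∈ Finset.range (P.natDegree + 1), (aeval w (P.coeff i)) * F w ^ i = 0 := by
    intro w hw
    have hok : Ok w (PowerSeries.mk (fun n : ℕ => ((c n : ℕ) : ℚ))) (F w) := by
      refine ⟨?_, ?_⟩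
      · refine (hsum ‖w‖ (norm_nonneg _) hw).congr fun n => ?_
        rw [PowerSeries.coeff_mk, norm_mul, norm_pow]
        push_cast
        rw [Complex.norm_natCast]
      · rw [hF]
        refine tsum_congr fun n => ?_
        rw [PowerSeries.coeff_mk]
        push_cast
        rfl
    have h1 := (hok.eval₂ P).2
    rw [hzero] at h1
    have h2 : P.eval₂ (aeval w : ℚ[X] →ₐ[ℚ] ℂ).toRingHom (F w) = 0 := by
      simpa using h1.symm
    rw [Polynomial.eval₂_eq_sum_range] at h2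
    exact h2
  -- the leading coefficient
  set a := P.leadingCoeff with ha
  have ha0 : a ≠ 0 := Polynomial.leadingCoeff_ne_zero.2 hP
  set ac : ℂ[X] := a.map (algebraMap ℚ ℂ) with hac
  have hac0 : ac ≠ 0 := by
    rw [hac]
    exact (Polynomial.map_ne_zero_iff (algebraMap ℚ ℂ).injective).2 ha0
  refine ⟨∑ w ∈ ac.roots.toFinset, orderOf w, fun p hp hBp ω hω hω1 => ?_⟩
  have : Fact p.Prime := ⟨hp⟩
  have hord : orderOf ω = p := orderOf_eq_prime hω hω1
  have hne : aeval ω a ≠ 0 := by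
    intro h
    have hroot : ω ∈ ac.roots.toFinset := by
      rw [Multiset.mem_toFinset, Polynomial.mem_roots hac0, Polynomial.IsRoot.def, hac,
        Polynomial.eval_map_algebraMap]
      exact h
    have := Finset.single_le_sum (f := fun w : ℂ => orderOf w) (fun _ _ => Nat.zero_le _) hroot
    simp only [hord] at this
    omega
  have hωn : ‖ω‖ = 1 := by
    have h1 : ‖ω‖ ^ p = 1 := by rw [← norm_pow, hω, norm_one]
    exact (pow_eq_one_iff_of_nonneg (norm_nonneg _) hp.ne_zero).1 h1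
  set ε : ℝ := ‖aeval ω a‖ / 2 with hε
  have hε0 : 0 < ε := by
    have : 0 < ‖aeval ω a‖ := norm_pos_iff.2 hne
    linarith
  -- continuity of the leading coefficient at `ω`
  have hcont : Continuous (fun r : ℝ => ‖aeval ((r : ℂ) * ω) a‖) := by
    have h1 : Continuous (fun w : ℂ => aeval w a) := Polynomial.continuous_aeval a
    exact (h1.comp ((Complex.continuous_ofReal).mul continuous_const)).norm
  obtain ⟨δ, hδ0, hδ⟩ : ∃ δ : ℝ, 0 < δ ∧ ∀ r : ℝ, 1 - δ < r → r < 1 →
      ε ≤ ‖aeval ((r : ℂ) * ω) a‖ := by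
    have h1 : ∀ᶠ r : ℝ in nhds (1 : ℝ), ε < ‖aeval ((r : ℂ) * ω) a‖ := by
      refine hcont.continuousAt.eventually (lt_mem_nhds ?_)
      simp only [Complex.ofReal_one, one_mul]
      linarith
    obtain ⟨δ, h2, h3⟩ := Metric.eventually_nhds_iff.1 h1
    refine ⟨δ, h2, fun r h4 h5 => (h3 ?_).le⟩
    rw [Real.dist_eq, abs_lt]
    constructor <;> linarith
  -- bounds of the coefficients on the unit disc
  obtain ⟨A, hA⟩ : ∃ A : ℝ, ∀ i, i ≤ P.natDegree → ∀ w : ℂ, ‖w‖ ≤ 1 → ‖aeval w (P.coeff i)‖ ≤ A := by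
    have h1 : ∀ i : ℕ, ∃ A : ℝ, ∀ w : ℂ, ‖w‖ ≤ 1 → ‖aeval w (P.coeff i)‖ ≤ A := by
      intro i
      obtain ⟨A, hA⟩ := (isCompact_closedBall (0 : ℂ) 1).exists_bound_of_continuousOn
        (f := fun w : ℂ => aeval w (P.coeff i)) (Polynomial.continuous_aeval _).continuousOn
      exact ⟨A, fun w hw => hA w (by rw [Metric.mem_closedBall, dist_zero_right]; exact hw)⟩
    choose A hA using h1
    refine ⟨∑ i ∈ Finset.range (P.natDegree + 1), |A i|, fun i hi w hw => ?_⟩
    refine (hA i w hw).trans ((le_abs_self _).trans ?_)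
    exact Finset.single_le_sum (f := fun i => |A i|) (fun _ _ => abs_nonneg _)
      (Finset.mem_range.2 (by omega))
  have hA0 : 0 ≤ A := (norm_nonneg _).trans (hA 0 (by omega) 0 (by simp))
  -- the bound
  set r₁ : ℝ := max 0 (1 - δ / 2) with hr₁
  have hr₁0 : 0 ≤ r₁ := le_max_left _ _
  have hr₁1 : r₁ < 1 := max_lt (by norm_num) (by linarith)
  refine ⟨(1 + P.natDegree * A / ε) + ∑' n : ℕ, (c n : ℝ) * r₁ ^ n, fun r hr0 hr1 => ?_⟩
  have hT : 0 ≤ ∑' n : ℕ, (c n : ℝ) * r₁ ^ n := tsum_nonneg fun n => by positivity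
  have hnn : ‖(r : ℂ) * ω‖ = r := by
    rw [norm_mul, hωn, mul_one, Complex.norm_real, Real.norm_of_nonneg hr0]
  rcases le_or_gt r r₁ with h | h
  · have h1 : Summable (fun n : ℕ => (c n : ℝ) * r₁ ^ n) := hsum r₁ hr₁0 hr₁1
    have h2 : ∀ n : ℕ, ‖(c n : ℂ) * ((r : ℂ) * ω) ^ n‖ ≤ (c n : ℝ) * r₁ ^ n := by
      intro n
      rw [norm_mul, norm_pow, hnn, Complex.norm_natCast]
      exact mul_le_mul_of_nonneg_left (pow_le_pow_left₀ hr0 h n) (by positivity)
    have h3 := tsum_of_norm_bounded h1.hasSum h2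
    have h4 : 0 ≤ 1 + P.natDegree * A / ε := by positivity
    linarith
  · have h1 : ‖(r : ℂ) * ω‖ < 1 := by rw [hnn]; exact hr1
    have h2 := root_bound (d := P.natDegree) (a := fun i => aeval ((r : ℂ) * ω) (P.coeff i))
      (y := F ((r : ℂ) * ω)) hε0 hA0 (hrel _ h1)
      (hδ r (by
        have : 1 - δ / 2 ≤ r₁ := le_max_right _ _
        linarith) hr1)
      (fun i hi => hA i hi _ h1.le)
    have h3 : ‖F ((r : ℂ) * ω)‖ ≤ 1 + P.natDegree * A / ε := h2
    rw [hF] at h3
    linarith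

end MPa1853d.HH
end

section
set_option autoImplicit false

/-! # Module DET: `gg x` divides `Δ * φ x` -/

namespace MPa1853d.HH

open MPa1853d Matrix

namespace DETM

variable {G : Type} [Group G] {m : ℕ} (D : HData G m)

/-- `ω x y` in coordinates of `x`. -/
theorem lin (e : Fin m → G) (he : ∀ i, D.φ (e i) = Pi.single i 1) (x y : G) :
    D.ω x y = ∑ i, D.φ x i * D.ω (e i) y := by
  choose lift hl using D.φ_surj
  let f : (Fin m → ℤ) →+ ℤ := AddMonoidHom.mk' (fun v => D.ω (lift v) y) (by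
    intro a b
    show D.ω (lift (a + b)) y = D.ω (lift a) y + D.ω (lift b) y
    rw [← D.ω_mul_left]
    exact D.ω_congr (by rw [hl, D.φ_mul, hl, hl]) rfl)
  have hf : ∀ w : G, D.ω w y = f (D.φ w) := fun w =>
    D.ω_congr (by rw [hl]) rfl
  have h1 : D.φ x = ∑ i, D.φ x i • (Pi.single i (1 : ℤ) : Fin m → ℤ) := by
    conv_lhs => rw [← Finset.univ_sum_single (D.φ x)]
    refine Finset.sum_congr rfl fun i _ => ?_
    rw [← Pi.single_smul, smul_eq_mul, mul_one]
  rw [hf x]
  conv_lhs => rw [h1]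
  rw [map_sum]
  refine Finset.sum_congr rfl fun i _ => ?_
  rw [map_zsmul, ← he i, ← hf, smul_eq_mul]

end DETM

theorem specDET : SpecDET := by
  intro G _ m D
  choose e he using fun i : Fin m => D.φ_surj (Pi.single i 1)
  let M : Matrix (Fin m) (Fin m) ℤ := fun i j => D.ω (e i) (e j)
  have hM : ∀ x j, D.ω x (e j) = (D.φ x ᵥ* M) j := fun x j => DETM.lin D e he x (e j)
  have hdet : M.det ≠ 0 := by
    intro h0
    obtain ⟨v, hv, hv0⟩ := Matrix.exists_vecMul_eq_zero_iff.2 h0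
    obtain ⟨x, hx⟩ := D.φ_surj v
    apply hv
    rw [← hx]
    apply D.nondeg
    intro y
    rw [D.ω_anti y x, DETM.lin D e he y x, neg_eq_zero]
    refine Finset.sum_eq_zero fun i _ => ?_
    rw [D.ω_anti x (e i), hM x i, hx, hv0]
    simp
  refine ⟨M.det.natAbs, Int.natAbs_pos.2 hdet, fun x i => ?_⟩
  have h1 : M.det * D.φ x i = ∑ j, D.ω x (e j) * M.adjugate j i := by
    have h2 : (D.φ x ᵥ* M) ᵥ* M.adjugate = M.det • D.φ x := by
      rw [Matrix.vecMul_vecMul, Matrix.mul_adjugate, Matrix.vecMul_smul, Matrix.vecMul_one]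
    have h3 := congrFun h2 i
    rw [Pi.smul_apply, smul_eq_mul] at h3
    rw [← h3]
    show ∑ j, (D.φ x ᵥ* M) j * M.adjugate j i = _
    refine Finset.sum_congr rfl fun j _ => ?_
    rw [hM]
  have h4 : (D.gg x : ℤ) ∣ M.det * D.φ x i := by
    rw [h1]
    exact Finset.dvd_sum fun j _ => (D.gg_dvd x (e j)).mul_right _
  rcases Int.natAbs_eq M.det with h | h
  · rwa [← h]
  · rw [h, neg_mul] at h4
    exact (dvd_neg).1 h4

end MPa1853d.HH
end

section
set_option autoImplicit false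

/-! # Module FIB: all classes over `v ≠ 0` have almost the same length -/

namespace MPa1853d.HH

open MPa1853d

namespace FIBM

variable {G : Type} [Group G] {m : ℕ} (D : HData G m) {S : Finset G}

/-- bound for the commutators of the letters. -/
noncomputable def W (S : Finset G) : ℕ := ∑ s ∈ S, ∑ t ∈ S, (D.ω s t).natAbs

theorem le_W0 {s t : G} (hs : s ∈ S) (ht : t ∈ S) : (D.ω s t).natAbs ≤ W D S :=
  (Finset.single_le_sum (f := fun t => (D.ω s t).natAbs) (fun _ _ => Nat.zero_le _) ht).trans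
    (Finset.single_le_sum (f := fun s => ∑ t ∈ S, (D.ω s t).natAbs)
      (fun _ _ => Nat.zero_le _) hs)

theorem le_W {s t : G} (hs : s ∈ S ∨ s⁻¹ ∈ S) (ht : t ∈ S ∨ t⁻¹ ∈ S) :
    |D.ω s t| ≤ (W D S : ℤ) := by
  have key : ∀ a b : G, a ∈ S → b ∈ S → |D.ω a b| ≤ (W D S : ℤ) := by
    intro a b ha hb
    have := le_W0 D ha hb
    rw [Int.abs_eq_natAbs]
    exact_mod_cast this
  rcases hs with hs | hs <;> rcases ht with ht | ht
  · exact key _ _ hs ht
  · have := key _ _ hs ht
    rwa [D.ω_inv_right, abs_neg] at this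
  · have := key _ _ hs ht
    rwa [D.ω_inv_left, abs_neg] at this
  · have := key _ _ hs ht
    rwa [D.ω_inv_left, D.ω_inv_right, neg_neg] at this

/-- a suffix with a prescribed commutator, up to `W`. -/
theorem suffix {t : G} (ht : t ∈ S ∨ t⁻¹ ∈ S) (r : ℤ) (hr : 0 ≤ r) :
    ∀ l : List G, IsW S l → r ≤ D.ω t l.prod →
      ∃ l₁ l₂ : List G, l = l₁ ++ l₂ ∧ r ≤ D.ω t l₂.prod ∧ D.ω t l₂.prod ≤ r + W D S := by
  intro l
  induction l with
  | nil =>
    intro _ h
    refine ⟨[], [], rfl, h, ?_⟩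
    rw [List.prod_nil, D.ω_one_right]
    positivity
  | cons a l ih =>
    intro hl h
    by_cases h1 : r ≤ D.ω t l.prod
    · obtain ⟨l₁, l₂, rfl, h3, h4⟩ := ih (fun x hx => hl x (List.mem_cons_of_mem _ hx)) h1
      exact ⟨a :: l₁, l₂, rfl, h3, h4⟩
    · refine ⟨[], a :: l, rfl, h, ?_⟩
      rw [List.prod_cons, D.ω_mul_right]
      have := le_W D ht (hl a List.mem_cons_self)
      have := (abs_le.1 this).2
      omega

/-- a letter which does not commute with `x`. -/
theorem exists_letter (hS : Subgroup.closure (S : Set G) = ⊤) {x : G} (hx : D.φ x ≠ 0) :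
    ∃ t : G, (t ∈ S ∨ t⁻¹ ∈ S) ∧ 0 < D.ω t x := by
  have h0 : ∃ s : G, (s ∈ S ∨ s⁻¹ ∈ S) ∧ D.ω s x ≠ 0 := by
    by_contra hcon
    push Not at hcon
    apply hx
    apply D.nondeg
    intro y
    obtain ⟨l, hl, rfl⟩ := exists_word hS y
    rw [D.ω_anti, neg_eq_zero]
    clear hx
    induction l with
    | nil => exact D.ω_one_left x
    | cons a l ih =>
      rw [List.prod_cons, D.ω_mul_left, hcon a (hl a List.mem_cons_self),
        ih (fun x hx => hl x (List.mem_cons_of_mem _ hx)), add_zero]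
  obtain ⟨s, hs, h1⟩ := h0
  rcases lt_or_gt_of_ne h1 with h | h
  · refine ⟨s⁻¹, ?_, ?_⟩
    · rw [inv_inv]; exact hs.symm
    · rw [D.ω_inv_left]; omega
  · exact ⟨s, hs, h⟩

end FIBM

theorem specFIB : SpecFIB := by
  intro G _ m D S hS
  choose w hw hwp using fun j : ℤ => exists_word hS (D.z ^ j)
  set C' : ℕ := ∑ j ∈ Finset.Icc (-(FIBM.W D S : ℤ)) (FIBM.W D S), (w j).length with hC'
  refine ⟨C' + 2, fun x hx => ?_⟩
  obtain ⟨l, hl1, hl2, hl3⟩ := ln_spec hS (D.fib_nonempty (D.φ x))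
  have hl3' : D.φ l.prod = D.φ x := hl3
  obtain ⟨k, hk⟩ := D.eq_of_φ hl3'
  obtain ⟨t, ht, htx⟩ := FIBM.exists_letter D hS hx
  have hg := D.gg_pos hx
  have hgZ : (0 : ℤ) < (D.gg x : ℤ) := by exact_mod_cast hg
  have hge : (D.gg x : ℤ) ≤ D.ω t x := by
    apply Int.le_of_dvd htx
    rw [D.ω_anti x t]
    exact (dvd_neg).2 (D.gg_dvd x t)
  set r : ℤ := k % (D.gg x : ℤ) with hr
  have hr0 : 0 ≤ r := Int.emod_nonneg _ hgZ.ne'
  have hr1 : r < D.gg x := Int.emod_lt_of_pos _ hgZ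
  have hlt : D.ω t l.prod = D.ω t x := D.ω_congr rfl hl3'
  obtain ⟨l₁, l₂, h12, h3, h4⟩ := FIBM.suffix D ht r hr0 l hl2 (by rw [hlt]; omega)
  set h := D.ω t l₂.prod with hh
  have hjm : r - h ∈ Finset.Icc (-(FIBM.W D S : ℤ)) (FIBM.W D S) := by
    rw [Finset.mem_Icc]
    constructor <;> omega
  have hlen : (w (r - h)).length ≤ C' :=
    Finset.single_le_sum (f := fun j => (w j).length) (fun _ _ => Nat.zero_le _) hjm
  have hW : IsW S (l₁ ++ [t] ++ l₂ ++ [t⁻¹] ++ w (r - h)) := by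
    have hl1' : IsW S l₁ := fun y hy => hl2 y (by rw [h12]; exact List.mem_append_left _ hy)
    have hl2' : IsW S l₂ := fun y hy => hl2 y (by rw [h12]; exact List.mem_append_right _ hy)
    have ht1 : IsW S [t] := by
      intro y hy
      rw [List.mem_singleton.1 hy]; exact ht
    have ht2 : IsW S [t⁻¹] := by
      intro y hy
      rw [List.mem_singleton.1 hy, inv_inv]; exact ht.symm
    exact IsW.append (IsW.append (IsW.append (IsW.append hl1' ht1) hl2') ht2) (hw _)
  have hprod : (l₁ ++ [t] ++ l₂ ++ [t⁻¹] ++ w (r - h)).prod = x * D.z ^ (r - k) := by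
    have e1 : t * l₂.prod = l₂.prod * t * D.z ^ h := D.swap t l₂.prod
    have e2 : l.prod = l₁.prod * l₂.prod := by rw [h12, List.prod_append]
    have e3 : x = l.prod * D.z ^ k := hk
    rw [List.prod_append, List.prod_append, List.prod_append, List.prod_append,
      List.prod_singleton, List.prod_singleton, hwp]
    calc l₁.prod * t * l₂.prod * t⁻¹ * D.z ^ (r - h)
        = l₁.prod * (t * l₂.prod) * t⁻¹ * D.z ^ (r - h) := by group
      _ = l₁.prod * (l₂.prod * t * D.z ^ h) * t⁻¹ * D.z ^ (r - h) := by rw [e1]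
      _ = l₁.prod * l₂.prod * (t * D.z ^ h) * t⁻¹ * D.z ^ (r - h) := by group
      _ = l₁.prod * l₂.prod * (D.z ^ h * t) * t⁻¹ * D.z ^ (r - h) := by rw [D.zcp]
      _ = l.prod * D.z ^ (h + (r - h)) := by rw [e2, zpow_add]; group
      _ = l.prod * D.z ^ (k + (r - k)) := by congr 2; ring
      _ = x * D.z ^ (r - k) := by rw [e3, zpow_add]; group
  have hconj : ConjClasses.mk (x * D.z ^ (r - k)) = ConjClasses.mk x := by
    rw [ConjClasses.mk_eq_mk_iff_isConj]
    refine IsConj.symm (D.isConj_iff.2 ⟨-(k / (D.gg x : ℤ)), ?_⟩)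
    congr 2
    have := Int.emod_add_mul_ediv k (D.gg x : ℤ)
    rw [← hr] at this
    linarith
  have hmem : (l₁ ++ [t] ++ l₂ ++ [t⁻¹] ++ w (r - h)).prod ∈ (ConjClasses.mk x).carrier := by
    rw [hprod]
    exact ConjClasses.mem_carrier_iff_mk_eq.2 hconj
  have hfin := ln_le hW hmem
  show ln S (ConjClasses.mk x).carrier ≤ _
  refine hfin.trans ?_
  rw [← hl1, h12]
  simp only [List.length_append, List.length_singleton]
  omega

end MPa1853d.HH
end

section
set_option autoImplicit false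

/-!
# Module FIN: assembly
-/

namespace MPa1853d.HH

open MPa1853d

namespace FINM

theorem mem_carrier {G : Type} [Group G] {x y : G} :
    y ∈ (ConjClasses.mk x).carrier ↔ IsConj x y := by
  rw [ConjClasses.mem_carrier_iff_mk_eq, ConjClasses.mk_eq_mk_iff_isConj, isConj_comm]

theorem ln_fib_le {G : Type} [Group G] {m : ℕ} (D : HData G m) {S : Finset G}
    (hS : Subgroup.closure (S : Set G) = ⊤) (x : G) :
    ln S (D.fib (D.φ x)) ≤ clen S (ConjClasses.mk x) := by
  refine ln_anti hS ⟨x, mem_carrier.2 (IsConj.refl x)⟩ ?_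
  intro y hy
  rw [mem_carrier] at hy
  exact D.φ_of_mem_qc (K := 0) (D.mem_qc_of_isConj hy)

/-- `q b ≡ c mod p`. -/
theorem exists_b {p q : ℕ} (hp : p.Prime) (hq : 0 < q) (hqp : q < p) (c : ℕ) :
    ∃ b, (q * b) % p = c % p := by
  have hcop : Nat.Coprime q p := by
    rw [Nat.coprime_comm, Nat.Prime.coprime_iff_not_dvd hp]
    intro h
    exact absurd (Nat.le_of_dvd hq h) (by omega)
  obtain ⟨k, -, hk⟩ := Nat.exists_mul_mod_eq_one_of_coprime hcop hp.one_lt
  refine ⟨k * c, ?_⟩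
  rw [← mul_assoc, Nat.mul_mod, hk, one_mul, Nat.mod_mod]

/-- the part of `T!` prime to `p`. -/
def KK (p T : ℕ) : ℕ := ∏ d ∈ (Finset.Icc 1 T).filter (fun d => ¬ p ∣ d), d

theorem KK_pos (p T : ℕ) : 0 < KK p T := by
  apply Finset.prod_pos
  intro d hd
  rw [Finset.mem_filter, Finset.mem_Icc] at hd
  omega

theorem not_dvd_KK {p : ℕ} (hp : p.Prime) (T : ℕ) : ¬ p ∣ KK p T := by
  intro h
  obtain ⟨d, hd, hpd⟩ := (Prime.dvd_finset_prod_iff hp.prime _).1 h
  exact (Finset.mem_filter.1 hd).2 hpd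

theorem dvd_KK {p T d : ℕ} (h0 : 0 < d) (h1 : d ≤ T) (h2 : ¬ p ∣ d) : d ∣ KK p T :=
  Finset.dvd_prod_of_mem _ (Finset.mem_filter.2 ⟨Finset.mem_Icc.2 ⟨h0, h1⟩, h2⟩)

theorem norm_one_sub {ω : ℂ} (hω : ‖ω‖ = 1) {r : ℝ} (hr0 : 0 ≤ r) (hr1 : r ≤ 1) :
    ‖1 - ω‖ / 2 ≤ ‖1 - (r : ℂ) * ω‖ := by
  have h1 : ‖1 - ω‖ ≤ ‖1 - (r : ℂ) * ω‖ + (1 - r) := by
    calc ‖1 - ω‖ = ‖(1 - (r : ℂ) * ω) + ((r : ℂ) * ω - ω)‖ := by congr 1; ring
      _ ≤ ‖1 - (r : ℂ) * ω‖ + ‖(r : ℂ) * ω - ω‖ := norm_add_le _ _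
      _ = ‖1 - (r : ℂ) * ω‖ + (1 - r) := by
        congr 1
        have : (r : ℂ) * ω - ω = ((r - 1 : ℝ) : ℂ) * ω := by push_cast; ring
        rw [this, norm_mul, hω, mul_one, Complex.norm_real, Real.norm_eq_abs, abs_of_nonpos (by linarith)]
        ring
  have h2 : 1 - r ≤ ‖1 - (r : ℂ) * ω‖ := by
    have h3 := norm_sub_norm_le (1 : ℂ) ((r : ℂ) * ω)
    rw [norm_one, norm_mul, hω, mul_one, Complex.norm_real, Real.norm_eq_abs, abs_of_nonneg hr0] at h3
    exact h3
  linarith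

theorem quarter {N : ℕ} (hN : 2 ≤ N) : (1 / 4 : ℝ) ≤ (1 - 1 / (N : ℝ)) ^ N := by
  have hN' : (2 : ℝ) ≤ N := by exact_mod_cast hN
  have hpos : (0 : ℝ) < N := by linarith
  have h1 : 1 / (N : ℝ) ≤ 1 / 2 := one_div_le_one_div_of_le (by norm_num) hN'
  have h0 : (0 : ℝ) < 1 / (N : ℝ) := by positivity
  have hb := one_add_mul_self_le_rpow_one_add (s := -(1 / (N : ℝ))) (by linarith)
    (p := (N : ℝ) / 2) (by linarith)
  have h2 : 1 + (N : ℝ) / 2 * -(1 / (N : ℝ)) = 1 / 2 := by field_simp; norm_num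
  rw [h2] at hb
  have h3 : (1 + -(1 / (N : ℝ))) = 1 - 1 / (N : ℝ) := by ring
  rw [h3] at hb
  have hb0 : (0 : ℝ) ≤ 1 - 1 / (N : ℝ) := by linarith
  have h4 : ((1 - 1 / (N : ℝ)) ^ ((N : ℝ) / 2)) ^ (2 : ℕ) = (1 - 1 / (N : ℝ)) ^ N := by
    rw [← Real.rpow_natCast, ← Real.rpow_mul hb0]
    rw [show (N : ℝ) / 2 * ((2 : ℕ) : ℝ) = N by push_cast; ring, Real.rpow_natCast]
  rw [← h4]
  calc (1 / 4 : ℝ) = (1 / 2) ^ 2 := by norm_num
    _ ≤ _ := pow_le_pow_left₀ (by norm_num) hb 2

/-- the first condition of SKL. -/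
theorem cond1 (hCHN : SpecCHN) (hGFA : SpecGFA) (hQSY : SpecQSY)
    {G : Type} [Group G] {m : ℕ} (D : HData G m) {S : Finset G}
    (hS : Subgroup.closure (S : Set G) = ⊤) {C : ℝ} (hC : 0 ≤ C)
    (hfin : ∀ n : ℕ, {κ : ConjClasses G | clen S κ ≤ n}.Finite)
    (hcard : ∀ n : ℕ, ({κ : ConjClasses G | clen S κ ≤ n}.ncard : ℝ) ≤ C * ((n : ℝ) + 1) ^ m)
    {K : ℕ} (hK : 0 < K) (σ : D.QK K → ConjClasses G) (hσ : Function.Injective σ)
    (hσl : ∀ q, clen S (σ q) = ln S q.1) {ω : ℂ} (hω : ‖ω‖ = 1) (hωK : ω ^ K ≠ 1)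
    {ε : ℝ} (hε : 0 < ε) : ∃ R : ℝ, ∀ r : ℝ, 0 ≤ r → r < 1 →
      ‖∑' q, ((r : ℂ) * ω) ^ (clen S (σ q))‖ ≤ R + ε * ((1 - r)⁻¹) ^ m := by
  obtain ⟨N, T, hcomm, hlip, hlip', hM⟩ := hQSY G m D S K hK hS
  set δ := ‖1 - ω ^ K‖ with hδ
  have hδ0 : 0 < δ := by
    rw [hδ, norm_pos_iff, sub_ne_zero]
    exact fun h => hωK h.symm
  have hfinQ : ∀ n : ℕ, {q : D.QK K | ln S q.1 ≤ n}.Finite := by
    intro n
    refine Set.Finite.of_finite_image ((hfin n).subset ?_) (hσ.injOn (s := _))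
    rintro κ ⟨q, hq, rfl⟩
    show clen S (σ q) ≤ n
    rw [hσl]
    exact hq
  have hcardQ : ∀ n : ℕ, ({q : D.QK K | ln S q.1 ≤ n}.ncard : ℝ) ≤ C * ((n : ℝ) + 1) ^ m := by
    intro n
    refine le_trans ?_ (hcard n)
    have := Set.ncard_le_ncard_of_injOn (s := {q : D.QK K | ln S q.1 ≤ n})
      (t := {κ : ConjClasses G | clen S κ ≤ n}) σ (by
        intro q hq
        show clen S (σ q) ≤ n
        rw [hσl]
        exact hq) hσ.injOn (hfin n)
    exact_mod_cast this
  obtain ⟨M, hMbig⟩ := exists_nat_gt (4 * N * (C * m.factorial) / (δ * ε))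
  obtain ⟨F, hF⟩ := hM (M + 1)
  refine ⟨4 * F.card / δ, fun r hr0 hr1 => ?_⟩
  have hnorm : ‖(r : ℂ) * ω‖ = r := by
    rw [norm_mul, hω, mul_one, Complex.norm_real, Real.norm_eq_abs, abs_of_nonneg hr0]
  obtain ⟨hsum, hle⟩ := hGFA (D.QK K) (fun q => ln S q.1) m C hC hfinQ hcardQ r hr0 hr1
  have hch := hCHN (D.QK K) N T (fun q => ln S q.1) K (M + 1) F ((r : ℂ) * ω) hK (by omega)
    hcomm hlip hlip' hF (by rw [hnorm]; exact hr1) (by rw [hnorm]; exact hsum)
  rw [hnorm] at hch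
  have hlow : δ / 2 ≤ ‖1 - ((r : ℂ) * ω) ^ K‖ := by
    rw [mul_pow, ← Complex.ofReal_pow]
    exact norm_one_sub (by rw [norm_pow, hω, one_pow]) (by positivity) (pow_le_one₀ hr0 hr1.le)
  set X := ((1 - r)⁻¹) ^ m with hX
  have hX0 : 0 ≤ X := by
    have : 0 < 1 - r := by linarith
    positivity
  have e : ∑' q, ((r : ℂ) * ω) ^ (clen S (σ q)) = ∑' q : D.QK K, ((r : ℂ) * ω) ^ (ln S q.1) :=
    tsum_congr fun q => by rw [hσl]
  rw [e]
  set Y := ‖∑' q : D.QK K, ((r : ℂ) * ω) ^ (ln S q.1)‖ with hY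
  have hY0 : 0 ≤ Y := norm_nonneg _
  have h1 : Y * (δ / 2) ≤ 2 * (F.card : ℝ) + (2 * (N : ℝ) / ((((M + 1 : ℕ) : ℝ)) + 1)) *
      (C * m.factorial * X) := by
    calc Y * (δ / 2) ≤ Y * ‖1 - ((r : ℂ) * ω) ^ K‖ := mul_le_mul_of_nonneg_left hlow hY0
      _ ≤ _ := hch
      _ ≤ _ := by
        have : 0 ≤ 2 * (N : ℝ) / ((((M + 1 : ℕ) : ℝ)) + 1) := by positivity
        have := mul_le_mul_of_nonneg_left hle this
        linarith
  have hA : 0 ≤ 4 * N * (C * m.factorial) := by positivity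
  have h2 : 4 * N * (C * m.factorial) ≤ ε * δ * ((((M + 1 : ℕ) : ℝ)) + 1) := by
    rw [div_lt_iff₀ (by positivity)] at hMbig
    push_cast
    nlinarith [mul_pos hδ0 hε]
  have h3 : (2 * (N : ℝ) / ((((M + 1 : ℕ) : ℝ)) + 1)) * (C * m.factorial * X) ≤
      ε * δ / 2 * X := by
    have hpos : (0 : ℝ) < (((M + 1 : ℕ) : ℝ)) + 1 := by positivity
    rw [div_mul_eq_mul_div, div_le_iff₀ hpos]
    have := mul_le_mul_of_nonneg_right h2 hX0
    nlinarith
  have h4 : Y * (δ / 2) ≤ 2 * (F.card : ℝ) + ε * δ / 2 * X := by linarith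
  have h5 : Y ≤ (2 * (F.card : ℝ) + ε * δ / 2 * X) / (δ / 2) := by
    rw [le_div_iff₀ (by positivity)]
    exact h4
  refine h5.trans (le_of_eq ?_)
  field_simp
  ring

/-- the third condition of SKL. -/
theorem cond3 {G : Type} [Group G] {m : ℕ} (D : HData G m) {S : Finset G}
    (hS : Subgroup.closure (S : Set G) = ⊤) {Δ q C1 C0 p b T : ℕ} (hΔ : 0 < Δ)
    (hdet : ∀ x i, (D.gg x : ℤ) ∣ Δ * D.φ x i)
    (habl : ∀ (p : ℕ) (u : Fin m → ℤ),
      p * ln S (D.fib ((q : ℤ) • u)) ≤ q * ln S (D.fib ((p : ℤ) • u)) ∧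
      q * ln S (D.fib ((p : ℤ) • u)) ≤ p * ln S (D.fib ((q : ℤ) • u)) + C1)
    (hfib : ∀ x, D.φ x ≠ 0 → clen S (ConjClasses.mk x) ≤ ln S (D.fib (D.φ x)) + C0)
    (hp : p.Prime) (hP : Δ + q + (C1 + q * C0) + 1 < p)
    (hb : (q * b) % p = (C1 + q * C0 + 1) % p)
    (σ : D.QK (KK p T) → ConjClasses G) (hσc : ∀ q, (σ q).carrier ⊆ q.1)
    (κ : ConjClasses G) (h1 : κ ∉ Set.range σ)
    (h2 : ¬ ∃ x, ConjClasses.mk x = κ ∧ D.φ x = 0)
    (h3 : ¬ ∃ x, ConjClasses.mk x = κ ∧ D.φ x ≠ 0 ∧ T < D.gg x) :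
    clen S κ % p ≠ b % p := by
  obtain ⟨x, rfl⟩ := ConjClasses.exists_rep κ
  have hx0 : D.φ x ≠ 0 := fun h => h2 ⟨x, rfl, h⟩
  have hxT : D.gg x ≤ T := by
    by_contra h
    exact h3 ⟨x, rfl, hx0, by omega⟩
  have hg0 := D.gg_pos hx0
  have hpg : p ∣ D.gg x := by
    by_contra hnd
    have hd : D.gg x ∣ KK p T := dvd_KK hg0 hxT hnd
    have hgcd : Nat.gcd (D.gg x) (KK p T) = D.gg x := Nat.gcd_eq_left hd
    apply h1
    refine ⟨⟨D.qc (KK p T) x, x, rfl⟩, ?_⟩
    obtain ⟨y, hy⟩ := ConjClasses.exists_rep (σ ⟨D.qc (KK p T) x, x, rfl⟩)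
    have hmem : y ∈ (σ ⟨D.qc (KK p T) x, x, rfl⟩).carrier := by
      rw [ConjClasses.mem_carrier_iff_mk_eq, hy]
    obtain ⟨j, hj⟩ := hσc _ hmem
    rw [hgcd] at hj
    rw [← hy]
    exact (ConjClasses.mk_eq_mk_iff_isConj.2 (D.isConj_iff.2 ⟨j, hj⟩)).symm
  have hpx : ∀ i, (p : ℤ) ∣ D.φ x i := by
    intro i
    have h4 : (p : ℤ) ∣ Δ * D.φ x i := (Int.natCast_dvd_natCast.2 hpg).trans (hdet x i)
    rcases (Int.prime_iff_natAbs_prime.2 (by simpa using hp) : Prime (p : ℤ)).dvd_or_dvd h4 with h | h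
    · have := Nat.le_of_dvd hΔ (Int.natCast_dvd_natCast.1 h)
      omega
    · exact h
  choose u hu using hpx
  have hux : D.φ x = (p : ℤ) • u := by
    funext i
    rw [hu i]
    rfl
  have h5 := ln_fib_le D hS x
  have h6 := hfib x hx0
  rw [hux] at h5 h6
  obtain ⟨h7, h8⟩ := habl p u
  set L := clen S (ConjClasses.mk x) with hL
  set a := ln S (D.fib ((q : ℤ) • u)) with ha
  set w := ln S (D.fib ((p : ℤ) • u)) with hw
  intro hcon
  have h9 : p * a ≤ q * L := h7.trans (Nat.mul_le_mul_left _ h5)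
  have h10 : q * L ≤ p * a + (C1 + q * C0) := by
    calc q * L ≤ q * (w + C0) := Nat.mul_le_mul_left _ h6
      _ = q * w + q * C0 := by ring
      _ ≤ p * a + C1 + q * C0 := by omega
      _ = _ := by ring
  have h11 : (q * L) % p = (C1 + q * C0 + 1) % p := by
    rw [← hb, Nat.mul_mod, hcon, ← Nat.mul_mod]
  rw [Nat.mod_eq_of_lt (show C1 + q * C0 + 1 < p by omega)] at h11
  have h12 : q * L = p * a + (q * L - p * a) := by omega
  rw [h12, Nat.mul_add_mod, Nat.mod_eq_of_lt (by omega)] at h11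
  omega

end FINM

open FINM in
theorem specFIN (hCHN : SpecCHN) (hGFA : SpecGFA) (hSKL : SpecSKL) (hCGC : SpecCGC)
    (hDET : SpecDET) (hABL : SpecABL) (hFIB : SpecFIB) (hCLC : SpecCLC) (hSIG : SpecSIG)
    (hXTR : SpecXTR) (hQSY : SpecQSY) : SpecFIN := by
  classical
  intro G _ m D S hm hS
  have e : (PowerSeries.mk (fun n : ℕ => ((cgc G S n : ℕ) : ℚ))) =
      PowerSeries.mk (fun n : ℕ => (({i : ConjClasses G | clen S i = n}.ncard : ℕ) : ℚ)) := by
    congr 1
    funext n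
    rw [(hCGC G S hS n).1]
  rw [e]
  obtain ⟨C, hC, hc1, hc2, hc3⟩ := hCLC G m D S hm hS
  obtain ⟨Δ, hΔ, hdet⟩ := hDET G m D
  obtain ⟨_, ⟨C2, hC2⟩, ⟨q, C1, hq, habl⟩⟩ := hABL G m D S hS
  obtain ⟨C0, hfib⟩ := hFIB G m D S hS
  have hfin : ∀ n : ℕ, {κ : ConjClasses G | clen S κ ≤ n}.Finite := fun n => (hCGC G S hS n).2
  refine hSKL (ConjClasses G) (clen S) m C {κ | ∃ x, ConjClasses.mk x = κ ∧ D.φ x = 0}
    (Δ + q + (C1 + q * C0) + 1) (by omega) hC hfin hc1 hc2 ?_
  intro p hp hP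
  obtain ⟨b, hb⟩ := exists_b hp hq (by omega) (C1 + q * C0 + 1)
  refine ⟨b, (1 / 4 : ℝ) ^ (C2 * p + C0), by positivity, fun T => ?_⟩
  obtain ⟨σ, hσ, hσl, hσc⟩ := hSIG G m D S (KK p T) hS
  refine ⟨D.QK (KK p T), σ, {κ | ∃ x, ConjClasses.mk x = κ ∧ D.φ x ≠ 0 ∧ T < D.gg x}, hσ,
    ?_, hc3 T, ?_, ?_⟩
  · intro ω hωp hω1 ε hε
    have hω : ‖ω‖ = 1 := Complex.norm_eq_one_of_pow_eq_one hωp hp.ne_zero
    have hωK : ω ^ (KK p T) ≠ 1 := by
      intro h
      have h1 : orderOf ω ∣ Nat.gcd p (KK p T) :=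
        Nat.dvd_gcd (orderOf_dvd_of_pow_eq_one hωp) (orderOf_dvd_of_pow_eq_one h)
      rw [(Nat.Prime.coprime_iff_not_dvd hp).2 (not_dvd_KK hp T)] at h1
      exact hω1 (orderOf_eq_one_iff.1 (Nat.dvd_one.1 h1))
    exact cond1 hCHN hGFA hQSY D hS hC hfin hc1 (KK_pos p T) σ hσ hσl hω hωK hε
  · intro κ h1 h2 h3
    exact cond3 D hS hΔ hdet habl hfib hp hP hb σ hσc κ h1 h2 h3
  · intro N hN
    have hx : ∀ u : Fin m → ℤ, ∃ x, u ≠ 0 →
        D.φ x = (p : ℤ) • u ∧ ConjClasses.mk x ∉ Set.range σ := by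
      intro u
      by_cases hu : u = 0
      · exact ⟨1, fun h => absurd hu h⟩
      · obtain ⟨x, h⟩ := hXTR G m D (KK p T) p σ (KK_pos p T) hp (not_dvd_KK hp T) hσc u hu
        exact ⟨x, fun _ => h⟩
    choose x hx using hx
    set box := Fintype.piFinset (fun _ : Fin m => Finset.Icc (1 : ℤ) (N : ℤ)) with hbox
    have hbox0 : ∀ u ∈ box, u ≠ 0 := by
      intro u hu h0
      have h1 := (Fintype.mem_piFinset.1 hu) ⟨0, by omega⟩
      rw [h0, Finset.mem_Icc] at h1
      simp at h1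
    have hinj : Set.InjOn (fun u => ConjClasses.mk (x u)) (box : Set (Fin m → ℤ)) := by
      intro u hu v hv huv
      have h1 := (hx u (hbox0 u hu)).1
      have h2 := (hx v (hbox0 v hv)).1
      have h3 : D.φ (x v) = D.φ (x u) := by
        have h4 : IsConj (x u) (x v) := ConjClasses.mk_eq_mk_iff_isConj.1 huv
        exact D.φ_of_mem_qc (K := 0) (D.mem_qc_of_isConj h4)
      rw [h1, h2] at h3
      funext i
      have h5 := congrFun h3 i
      simp only [Pi.smul_apply, smul_eq_mul] at h5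
      have hp0 : (p : ℤ) ≠ 0 := by exact_mod_cast hp.ne_zero
      exact (mul_left_cancel₀ hp0 h5).symm
    refine ⟨box.image (fun u => ConjClasses.mk (x u)), ?_, ?_⟩
    · intro κ hκ
      rw [Finset.mem_image] at hκ
      obtain ⟨u, hu, rfl⟩ := hκ
      exact (hx u (hbox0 u hu)).2
    · rw [Finset.sum_image hinj]
      have hterm : ∀ u ∈ box, (1 / 4 : ℝ) ^ (C2 * p + C0) ≤
          (1 - 1 / (N : ℝ)) ^ (clen S (ConjClasses.mk (x u))) := by
        intro u hu
        have hu0 := hbox0 u hu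
        have h1 := (hx u hu0).1
        have hp0 : (p : ℤ) ≠ 0 := by exact_mod_cast hp.ne_zero
        have h2 : D.φ (x u) ≠ 0 := by
          rw [h1]
          exact smul_ne_zero hp0 hu0
        have h3 := hfib (x u) h2
        rw [h1] at h3
        have h4 := hC2 ((p : ℤ) • u) (p * N) (by
          intro i
          have h5 := (Fintype.mem_piFinset.1 hu) i
          rw [Finset.mem_Icc] at h5
          simp only [Pi.smul_apply, smul_eq_mul]
          rw [abs_mul, abs_of_nonneg (by positivity : (0 : ℤ) ≤ p), abs_of_nonneg (by omega)]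
          push_cast
          exact mul_le_mul_of_nonneg_left h5.2 (by positivity))
        have h5 : clen S (ConjClasses.mk (x u)) ≤ N * (C2 * p + C0) := by
          calc clen S (ConjClasses.mk (x u)) ≤ C2 * (p * N) + C0 := by omega
            _ ≤ C2 * (p * N) + N * C0 := by
              have : 1 * C0 ≤ N * C0 := Nat.mul_le_mul_right _ (by omega)
              omega
            _ = N * (C2 * p + C0) := by ring
        have hN' : (2 : ℝ) ≤ N := by exact_mod_cast hN
        have h6 : 1 / (N : ℝ) ≤ 1 / 2 := one_div_le_one_div_of_le (by norm_num) hN'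
        have h7 : (0 : ℝ) < 1 / (N : ℝ) := by positivity
        calc (1 / 4 : ℝ) ^ (C2 * p + C0) ≤ ((1 - 1 / (N : ℝ)) ^ N) ^ (C2 * p + C0) :=
              pow_le_pow_left₀ (by norm_num) (quarter hN) _
          _ = (1 - 1 / (N : ℝ)) ^ (N * (C2 * p + C0)) := by rw [pow_mul]
          _ ≤ _ := pow_le_pow_of_le_one (by linarith) (by linarith) h5
      calc (1 / 4 : ℝ) ^ (C2 * p + C0) * (N : ℝ) ^ m
          = ∑ _u ∈ box, (1 / 4 : ℝ) ^ (C2 * p + C0) := by
            rw [Finset.sum_const, hbox, Fintype.card_piFinset_const, Int.card_Icc, nsmul_eq_mul]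
            rw [show ((N : ℤ) + 1 - 1).toNat = N by simp]
            push_cast
            ring
        _ ≤ _ := Finset.sum_le_sum hterm

end MPa1853d.HH
end

section
set_option autoImplicit false

/-!
# Module GFA: Abel summation
-/

namespace MPa1853d.HH

open MPa1853d

namespace GFAM

/-- `r ^ k / (1 - r)` as a sum over `n ≥ k`. -/
theorem hasSum_tail {r : ℝ} (h0 : 0 ≤ r) (h1 : r < 1) (k : ℕ) :
    HasSum (fun n : ℕ => if k ≤ n then r ^ n else 0) (r ^ k * (1 - r)⁻¹) := by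
  have h := (hasSum_geometric_of_lt_one h0 h1).mul_left (r ^ k)
  have hinj : Function.Injective (fun n : ℕ => n + k) := fun a b hab => by
    have : a + k = b + k := hab
    omega
  refine (hinj.hasSum_iff (f := fun n : ℕ => if k ≤ n then r ^ n else 0) ?_).1 ?_
  · intro x hx
    show (if k ≤ x then r ^ x else 0) = 0
    rw [if_neg]
    intro hkx
    exact hx ⟨x - k, by show x - k + k = x; omega⟩
  · have e : ((fun n : ℕ => if k ≤ n then r ^ n else 0) ∘ fun n : ℕ => n + k) =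
        fun n : ℕ => r ^ k * r ^ n := by
      funext n
      show (if k ≤ n + k then r ^ (n + k) else 0) = _
      rw [if_pos (by omega), pow_add]
      ring
    rw [e]
    exact h

theorem pow_le_choose (n m : ℕ) : ((n : ℝ) + 1) ^ m ≤ (m.factorial : ℝ) * ((n + m).choose m : ℕ) := by
  have h1 := Nat.pow_succ_le_ascFactorial (n + 1) m
  rw [Nat.ascFactorial_eq_factorial_mul_choose] at h1
  exact_mod_cast h1

theorem finite_bound {I : Type} {len : I → ℕ} {m : ℕ} {C : ℝ} (hC : 0 ≤ C)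
    (hfin : ∀ n : ℕ, {i | len i ≤ n}.Finite)
    (hcard : ∀ n : ℕ, ({i | len i ≤ n}.ncard : ℝ) ≤ C * ((n : ℝ) + 1) ^ m)
    {r : ℝ} (h0 : 0 ≤ r) (h1 : r < 1) (J : Finset I) :
    ∑ i ∈ J, r ^ len i ≤ C * m.factorial * ((1 - r)⁻¹) ^ m := by
  classical
  have hr : 0 < 1 - r := by linarith
  have s1 : HasSum (fun n : ℕ => ∑ i ∈ J, if len i ≤ n then r ^ n else 0)
      (∑ i ∈ J, r ^ len i * (1 - r)⁻¹) := hasSum_sum fun i _ => hasSum_tail h0 h1 (len i)
  have s2 : HasSum (fun n : ℕ => C * m.factorial * (((n + m).choose m : ℕ) * r ^ n))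
      (C * m.factorial * (1 / (1 - r) ^ (m + 1))) := by
    refine (hasSum_choose_mul_geometric_of_norm_lt_one m ?_).mul_left _
    rw [Real.norm_of_nonneg h0]
    exact h1
  have hle : ∀ n : ℕ, (∑ i ∈ J, if len i ≤ n then r ^ n else 0) ≤
      C * m.factorial * (((n + m).choose m : ℕ) * r ^ n) := by
    intro n
    have hn : 0 ≤ r ^ n := pow_nonneg h0 n
    rw [← Finset.sum_filter, Finset.sum_const, nsmul_eq_mul]
    have c1 : ((J.filter fun i => len i ≤ n).card : ℝ) ≤ C * ((n : ℝ) + 1) ^ m := by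
      refine le_trans ?_ (hcard n)
      rw [← Set.ncard_coe_finset]
      have : (↑(J.filter fun i => len i ≤ n) : Set I) ⊆ {i | len i ≤ n} := by
        intro i hi
        rw [Finset.mem_coe, Finset.mem_filter] at hi
        exact hi.2
      exact_mod_cast Set.ncard_le_ncard this (hfin n)
    calc ((J.filter fun i => len i ≤ n).card : ℝ) * r ^ n
        ≤ (C * ((n : ℝ) + 1) ^ m) * r ^ n := mul_le_mul_of_nonneg_right c1 hn
      _ ≤ (C * ((m.factorial : ℝ) * ((n + m).choose m : ℕ))) * r ^ n :=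
          mul_le_mul_of_nonneg_right (mul_le_mul_of_nonneg_left (pow_le_choose n m) hC) hn
      _ = _ := by ring
  have key := hasSum_le hle s1 s2
  rw [← Finset.sum_mul] at key
  have k2 : (∑ i ∈ J, r ^ len i) = (∑ i ∈ J, r ^ len i) * (1 - r)⁻¹ * (1 - r) := by
    field_simp
  rw [k2]
  calc _ ≤ C * m.factorial * (1 / (1 - r) ^ (m + 1)) * (1 - r) :=
        mul_le_mul_of_nonneg_right key hr.le
    _ = _ := by
      rw [pow_succ, inv_pow]
      field_simp

end GFAM

theorem specGFA : SpecGFA := by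
  intro I len m C hC hfin hcard r h0 h1
  have hb := GFAM.finite_bound (len := len) hC hfin hcard h0 h1
  have hs : Summable (fun i => r ^ len i) :=
    summable_of_sum_le (fun i => pow_nonneg h0 _) hb
  exact ⟨hs, hs.tsum_le_of_sum_le hb⟩

end MPa1853d.HH
end

section
set_option autoImplicit false

/-! # Module GFB: the generating function as a sum over the objects -/

namespace MPa1853d.HH

open MPa1853d

namespace GFBM

theorem card_fiber {I : Type} (len : I → ℕ) (n : ℕ) :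
    Nat.card {i // len i = n} = {i | len i = n}.ncard :=
  Nat.card_coe_set_eq {i | len i = n}

theorem inner {I : Type} (len : I → ℕ) {A : Type} [NormedField A] (t : A) (n : ℕ)
    (h : {i | len i = n}.Finite) :
    ∑' x : {i // len i = n}, t ^ len (Equiv.sigmaFiberEquiv len ⟨n, x⟩) =
      ({i | len i = n}.ncard : A) * t ^ n := by
  have h1 : ∀ x : {i // len i = n}, t ^ len (Equiv.sigmaFiberEquiv len ⟨n, x⟩) = t ^ n := by
    intro x
    show t ^ len x.1 = t ^ n
    rw [x.2]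
  rw [tsum_congr h1]
  have : Finite {i // len i = n} := h
  have : Fintype {i // len i = n} := Fintype.ofFinite _
  rw [tsum_fintype, Finset.sum_const, Finset.card_univ, ← Nat.card_eq_fintype_card,
    card_fiber, nsmul_eq_mul]

end GFBM

theorem specGFB : SpecGFB := by
  intro I len t hfin hsum
  have hs1 : Summable (fun p : (Σ n : ℕ, {i // len i = n}) =>
      ‖t‖ ^ len (Equiv.sigmaFiberEquiv len p)) :=
    (Equiv.sigmaFiberEquiv len).summable_iff.2 hsum
  have hs2 : Summable (fun p : (Σ n : ℕ, {i // len i = n}) =>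
      t ^ len (Equiv.sigmaFiberEquiv len p)) := by
    refine Summable.of_norm ?_
    refine hs1.congr fun p => ?_
    rw [norm_pow]
  refine ⟨?_, ?_⟩
  · refine hs1.sigma.congr fun n => ?_
    exact (GFBM.inner len ‖t‖ n (hfin n)).symm ▸ rfl
  · rw [← (Equiv.sigmaFiberEquiv len).tsum_eq (fun i => t ^ len i), hs2.tsum_sigma]
    exact tsum_congr fun n => (GFBM.inner len t n (hfin n)).symm

end MPa1853d.HH
end

section
set_option autoImplicit false

/-!
# Conjugacy growth of the higher Heisenberg groups: module LPC (linear programming)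
-/

namespace MPa1853d.HH

namespace LPCM

/-- Minimal support (conic Caratheodory) with smaller sum of the coefficients. -/
theorem carath {m N : ℕ} (A : Fin N → Fin m → ℚ) : ∀ (k : ℕ) (c : Fin N → ℚ), (∀ i, 0 ≤ c i) →
    (Finset.univ.filter fun i => c i ≠ 0).card ≤ k →
    ∃ c' : Fin N → ℚ, (∀ i, 0 ≤ c' i) ∧ (∀ j, ∑ i, c' i * A i j = ∑ i, c i * A i j) ∧
      ∑ i, c' i ≤ ∑ i, c i ∧
      (∀ l : Fin N → ℚ, (∀ i, c' i = 0 → l i = 0) → (∀ j, ∑ i, l i * A i j = 0) →
        ∀ i, l i = 0) := by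
  intro k
  induction k with
  | zero =>
    intro c h0 hk
    refine ⟨c, h0, fun _ => rfl, le_rfl, ?_⟩
    intro l hl _ i
    apply hl
    by_contra h
    have h1 : i ∈ Finset.univ.filter fun i => c i ≠ 0 := by simp [h]
    have := Finset.card_pos.2 ⟨i, h1⟩
    omega
  | succ k ih =>
    intro c h0 hk
    by_cases hind : ∀ l : Fin N → ℚ, (∀ i, c i = 0 → l i = 0) → (∀ j, ∑ i, l i * A i j = 0) →
        ∀ i, l i = 0
    · exact ⟨c, h0, fun _ => rfl, le_rfl, hind⟩
    · have hneg : ∀ l : Fin N → ℚ, (∃ i, l i ≠ 0) → ∑ i, l i ≤ 0 → ∃ i, l i < 0 := by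
        intro l ⟨i, hi⟩ hs
        by_contra hc
        push Not at hc
        have h1 : ∑ i, l i = 0 := le_antisymm hs (Finset.sum_nonneg fun i _ => hc i)
        rw [Finset.sum_eq_zero_iff_of_nonneg (fun i _ => hc i)] at h1
        exact hi (h1 i (Finset.mem_univ _))
      obtain ⟨l, h1, h2, hs, i1, h3⟩ : ∃ l : Fin N → ℚ, (∀ i, c i = 0 → l i = 0) ∧
          (∀ j, ∑ i, l i * A i j = 0) ∧ ∑ i, l i ≤ 0 ∧ ∃ i, l i < 0 := by
        push Not at hind
        obtain ⟨l, h1, h2, i1, h3⟩ := hind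
        rcases le_total (∑ i, l i) 0 with h4 | h4
        · exact ⟨l, h1, h2, h4, hneg l ⟨i1, h3⟩ h4⟩
        · have h5 : ∑ i, (-l) i ≤ 0 := by
            simp only [Pi.neg_apply, Finset.sum_neg_distrib]
            linarith
          refine ⟨-l, fun i hi => by simp [h1 i hi], fun j => ?_, h5,
            hneg (-l) ⟨i1, by simpa using h3⟩ h5⟩
          simp only [Pi.neg_apply, neg_mul, Finset.sum_neg_distrib, h2 j, neg_zero]
      obtain ⟨i0, hi0, hmin⟩ := Finset.exists_min_image (Finset.univ.filter fun i => l i < 0)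
        (fun i => c i / (-l i)) ⟨i1, by simp [h3]⟩
      rw [Finset.mem_filter] at hi0
      have hl0 : 0 < -l i0 := by linarith [hi0.2]
      obtain ⟨τ, hτ⟩ : ∃ τ, τ = c i0 / (-l i0) := ⟨_, rfl⟩
      have hτ0 : 0 ≤ τ := by rw [hτ]; exact div_nonneg (h0 i0) hl0.le
      have hl0' : l i0 ≠ 0 := ne_of_lt hi0.2
      have hz : c i0 + τ * l i0 = 0 := by
        rw [hτ, div_neg, neg_mul, div_mul_cancel₀ _ hl0', add_neg_cancel]
      have hnn : ∀ i, 0 ≤ c i + τ * l i := by
        intro i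
        rcases lt_or_ge (l i) 0 with h | h
        · have h5 := hmin i (by rw [Finset.mem_filter]; exact ⟨Finset.mem_univ _, h⟩)
          rw [← hτ, le_div_iff₀ (by linarith)] at h5
          linarith
        · exact add_nonneg (h0 i) (mul_nonneg hτ0 h)
      obtain ⟨c', b1, b2, b3, b4⟩ := ih (fun i => c i + τ * l i) hnn (by
        have h6 : (Finset.univ.filter fun i => c i + τ * l i ≠ 0) ⊂
            (Finset.univ.filter fun i => c i ≠ 0) := by
          rw [Finset.ssubset_iff_of_subset]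
          · refine ⟨i0, ?_, ?_⟩
            · rw [Finset.mem_filter]
              refine ⟨Finset.mem_univ _, fun h => ?_⟩
              have := h1 i0 h
              linarith
            · rw [Finset.mem_filter]
              exact fun h => h.2 hz
          · intro i hi
            rw [Finset.mem_filter] at hi ⊢
            refine ⟨hi.1, fun h => hi.2 ?_⟩
            rw [h, h1 i h]
            ring
        have := Finset.card_lt_card h6
        omega)
      refine ⟨c', b1, fun j => ?_, b3.trans ?_, b4⟩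
      · rw [b2 j]
        simp only [add_mul, Finset.sum_add_distrib, mul_assoc]
        rw [← Finset.mul_sum, h2 j, mul_zero, add_zero]
      · rw [Finset.sum_add_distrib, ← Finset.mul_sum]
        have := mul_nonneg hτ0 (neg_nonneg.2 hs)
        linarith

/-- A common denominator for the coefficients with respect to an independent family. -/
theorem denom {m N : ℕ} (A : Fin N → Fin m → ℚ) (s : Finset (Fin N))
    (hs : ∀ l : Fin N → ℚ, (∀ i, i ∉ s → l i = 0) → (∀ j, ∑ i, l i * A i j = 0) →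
      ∀ i, l i = 0) :
    ∃ q : ℕ, 0 < q ∧ ∀ (x : Fin N → ℚ) (u : Fin m → ℤ), (∀ i, i ∉ s → x i = 0) →
      (∀ j, ∑ i, x i * A i j = u j) → ∀ i, ∃ z : ℤ, (q : ℚ) * x i = z := by
  classical
  obtain ⟨B, hB⟩ : ∃ B : Matrix (Fin m ⊕ Fin N) (Fin N) ℚ, B = fun r i =>
    Sum.elim (fun j => A i j) (fun k => if k = i ∧ i ∉ s then 1 else 0) r := ⟨_, rfl⟩
  have hB1 : ∀ (x : Fin N → ℚ) (j : Fin m), B.mulVecLin x (Sum.inl j) = ∑ i, x i * A i j := by
    intro x j
    rw [Matrix.mulVecLin_apply, Matrix.mulVec, dotProduct, hB]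
    exact Finset.sum_congr rfl fun i _ => mul_comm _ _
  have hB2 : ∀ (x : Fin N → ℚ) (k : Fin N), B.mulVecLin x (Sum.inr k) =
      if k ∉ s then x k else 0 := by
    intro x k
    rw [Matrix.mulVecLin_apply, Matrix.mulVec, dotProduct, hB]
    simp only [Sum.elim_inr]
    rw [Finset.sum_eq_single k]
    · by_cases h : k ∈ s <;> simp [h]
    · intro i _ hi
      rw [if_neg (fun h => hi h.1.symm), zero_mul]
    · intro h; exact absurd (Finset.mem_univ _) h
  have hker : LinearMap.ker B.mulVecLin = ⊥ := by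
    rw [LinearMap.ker_eq_bot']
    intro x hx
    funext i
    refine hs x ?_ ?_ i
    · intro k hk
      have := congrFun hx (Sum.inr k)
      rw [hB2, if_pos hk] at this
      exact this
    · intro j
      have := congrFun hx (Sum.inl j)
      rw [hB1] at this
      exact this
  obtain ⟨G, hG⟩ := LinearMap.exists_leftInverse_of_injective B.mulVecLin hker
  obtain ⟨E, hE⟩ : ∃ E : (Fin m ⊕ Fin N) → Fin N → ℚ, ∀ w i, G w i = ∑ r, w r * E r i := by
    refine ⟨fun r i => G (fun j => if r = j then 1 else 0) i, fun w i => ?_⟩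
    conv_lhs => rw [LinearMap.pi_apply_eq_sum_univ G w]
    rw [Finset.sum_apply]
    rfl
  obtain ⟨D, hD0, hDd⟩ : ∃ D : ℕ, 0 < D ∧ ∀ r i, (E r i).den ∣ D := by
    refine ⟨∏ r, ∏ i, (E r i).den, Finset.prod_pos fun r _ => Finset.prod_pos fun i _ =>
      (E r i).den_pos, fun r i => ?_⟩
    exact (Finset.dvd_prod_of_mem (fun i => (E r i).den) (Finset.mem_univ i)).trans
        (Finset.dvd_prod_of_mem (fun r => ∏ i, (E r i).den) (Finset.mem_univ r))
  have hden : ∀ r i, ∃ z : ℤ, (D : ℚ) * E r i = z := by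
    intro r i
    obtain ⟨k, hk⟩ := hDd r i
    refine ⟨k * (E r i).num, ?_⟩
    rw [hk]
    push_cast
    have := Rat.mul_den_eq_num (E r i)
    calc ((E r i).den : ℚ) * k * E r i = k * (E r i * (E r i).den) := by ring
      _ = _ := by rw [this]
  refine ⟨D, hD0, ?_⟩
  intro x u hx hu i
  have hxG : x = G (B.mulVecLin x) := by
    have := LinearMap.congr_fun hG x
    exact this.symm
  have hxi : x i = ∑ j, (u j : ℚ) * E (Sum.inl j) i := by
    conv_lhs => rw [hxG]
    rw [hE, Fintype.sum_sum_type]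
    have h0 : ∑ k : Fin N, B.mulVecLin x (Sum.inr k) * E (Sum.inr k) i = 0 := by
      refine Finset.sum_eq_zero fun k _ => ?_
      rw [hB2]
      by_cases h : k ∈ s
      · rw [if_neg (not_not.2 h), zero_mul]
      · rw [if_pos h, hx k h, zero_mul]
    rw [h0, add_zero]
    exact Finset.sum_congr rfl fun j _ => by rw [hB1, hu]
  choose Z hZ using hden
  refine ⟨∑ j, u j * Z (Sum.inl j) i, ?_⟩
  rw [hxi, Finset.mul_sum]
  push_cast
  refine Finset.sum_congr rfl fun j _ => ?_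
  rw [← hZ]
  ring

end LPCM

open LPCM in
theorem specLPC : SpecLPC := by
  classical
  intro m N a len hlen
  obtain ⟨A, hA⟩ : ∃ A : Fin N → Fin m → ℚ, ∀ i j, A i j = (a i j : ℚ) := ⟨_, fun _ _ => rfl⟩
  have hq : ∀ s : Finset (Fin N), ∃ q : ℕ, 0 < q ∧
      ((∀ l : Fin N → ℚ, (∀ i, i ∉ s → l i = 0) → (∀ j, ∑ i, l i * A i j = 0) →
        ∀ i, l i = 0) → ∀ (x : Fin N → ℚ) (u : Fin m → ℤ), (∀ i, i ∉ s → x i = 0) →
        (∀ j, ∑ i, x i * A i j = u j) → ∀ i, ∃ z : ℤ, (q : ℚ) * x i = z) := by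
    intro s
    by_cases h : ∀ l : Fin N → ℚ, (∀ i, i ∉ s → l i = 0) → (∀ j, ∑ i, l i * A i j = 0) →
        ∀ i, l i = 0
    · obtain ⟨q, h1, h2⟩ := denom A s h
      exact ⟨q, h1, fun _ => h2⟩
    · exact ⟨1, one_pos, fun h' => absurd h' h⟩
  choose qf hq1 hq2 using hq
  obtain ⟨q, hqd⟩ : ∃ q, q = ∏ s : Finset (Fin N), qf s := ⟨_, rfl⟩
  have hq0 : 0 < q := by rw [hqd]; exact Finset.prod_pos fun s _ => hq1 s
  have hqx : ∀ s : Finset (Fin N), (∀ l : Fin N → ℚ, (∀ i, i ∉ s → l i = 0) →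
      (∀ j, ∑ i, l i * A i j = 0) → ∀ i, l i = 0) → ∀ (x : Fin N → ℚ) (u : Fin m → ℤ),
      (∀ i, i ∉ s → x i = 0) → (∀ j, ∑ i, x i * A i j = u j) → ∀ i, ∃ z : ℤ,
      (q : ℚ) * x i = z := by
    intro s hs x u hx hu i
    obtain ⟨z, hz⟩ := hq2 s hs x u hx hu i
    obtain ⟨k, hk⟩ : qf s ∣ q := by
      rw [hqd]; exact Finset.dvd_prod_of_mem qf (Finset.mem_univ s)
    refine ⟨k * z, ?_⟩
    rw [hk]
    push_cast
    rw [← hz]
    ring
  -- the finite set of remainders
  obtain ⟨C', hC'⟩ : ∃ C' : ℕ, ∀ r : Fin N → Fin q,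
      len (fun j => (∑ i, ((r i : ℕ) : ℤ) * a i j) / (q : ℤ)) ≤ C' := by
    refine ⟨Finset.univ.sup fun r : Fin N → Fin q =>
      len (fun j => (∑ i, ((r i : ℕ) : ℤ) * a i j) / (q : ℤ)), fun r => ?_⟩
    exact Finset.le_sup (f := fun r : Fin N → Fin q =>
      len (fun j => (∑ i, ((r i : ℕ) : ℤ) * a i j) / (q : ℤ))) (Finset.mem_univ r)
  refine ⟨q, q * C', hq0, fun p u => ⟨?_, ?_⟩⟩
  · rcases Nat.eq_zero_or_pos p with hp | hp
    · rw [hp]; simp
    obtain ⟨c, hc1, hc2⟩ := (hlen ((p : ℤ) • u) _).1 le_rfl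
    obtain ⟨c', b1, b2, b3, b4⟩ := carath A _ (fun i => (c i : ℚ))
      (fun i => Nat.cast_nonneg _) le_rfl
    have hpq : (0 : ℚ) < p := by exact_mod_cast hp
    have hcu : ∀ j, ∑ i, c' i * A i j = p * u j := by
      intro j
      rw [b2 j]
      have h := congrFun hc2 j
      rw [Finset.sum_apply] at h
      simp only [Pi.smul_apply, smul_eq_mul] at h
      have h' : ((∑ i, (c i : ℤ) * a i j : ℤ) : ℚ) = ((p : ℤ) * u j : ℤ) := by rw [h]
      push_cast at h'
      rw [← h']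
      exact Finset.sum_congr rfl fun i _ => by rw [hA]
    have hint : ∀ i, ∃ z : ℤ, (q : ℚ) * (c' i / p) = z := by
      refine hqx (Finset.univ.filter fun i => c' i ≠ 0) ?_ (fun i => c' i / p) u ?_ ?_
      · intro l hl1 hl2
        refine b4 l (fun i hi => hl1 i ?_) hl2
        rw [Finset.mem_filter]
        exact fun h => h.2 hi
      · intro i hi
        have : c' i = 0 := by
          by_contra h
          exact hi (by rw [Finset.mem_filter]; exact ⟨Finset.mem_univ _, h⟩)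
        rw [this, zero_div]
      · intro j
        have : ∑ i, c' i / p * A i j = (∑ i, c' i * A i j) / p := by
          rw [Finset.sum_div]
          exact Finset.sum_congr rfl fun i _ => by ring
        rw [this, hcu j]
        field_simp
    choose z hz using hint
    have hz0 : ∀ i, 0 ≤ z i := by
      intro i
      have : (0 : ℚ) ≤ z i := by
        rw [← hz i]
        exact mul_nonneg (Nat.cast_nonneg _) (div_nonneg (b1 i) hpq.le)
      exact_mod_cast this
    have hzn : ∀ i, (((z i).toNat : ℕ) : ℤ) = z i := fun i => Int.toNat_of_nonneg (hz0 i)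
    have h1 : len ((q : ℤ) • u) ≤ ∑ i, (z i).toNat := by
      rw [hlen]
      refine ⟨fun i => (z i).toNat, le_rfl, ?_⟩
      funext j
      rw [Finset.sum_apply]
      simp only [Pi.smul_apply, smul_eq_mul, hzn]
      have : ((∑ i, z i * a i j : ℤ) : ℚ) = ((q : ℤ) * u j : ℤ) := by
        push_cast
        have h3 : ∑ i, (z i : ℚ) * (a i j : ℚ) = q * ((∑ i, c' i * A i j) / p) := by
          rw [Finset.sum_div, Finset.mul_sum]
          refine Finset.sum_congr rfl fun i _ => ?_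
          rw [← hz i, hA]
          ring
        rw [h3, hcu j]
        field_simp
      exact_mod_cast this
    have h2 : ((p * ∑ i, (z i).toNat : ℕ) : ℚ) ≤ ((q * len ((p : ℤ) • u) : ℕ) : ℚ) := by
      have h3 : ((∑ i, (z i).toNat : ℕ) : ℚ) = ∑ i, (z i : ℚ) := by
        push_cast
        refine Finset.sum_congr rfl fun i _ => ?_
        exact_mod_cast hzn i
      have h4 : (p : ℚ) * ∑ i, (z i : ℚ) = q * ∑ i, c' i := by
        rw [Finset.mul_sum, Finset.mul_sum]
        refine Finset.sum_congr rfl fun i _ => ?_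
        rw [← hz i]
        field_simp
      have h5 : ∑ i, c' i ≤ (len ((p : ℤ) • u) : ℚ) := by
        refine b3.trans ?_
        exact_mod_cast hc1
      rw [Nat.cast_mul, h3, h4, Nat.cast_mul]
      exact mul_le_mul_of_nonneg_left h5 (Nat.cast_nonneg _)
    have h2' : p * ∑ i, (z i).toNat ≤ q * len ((p : ℤ) • u) := by exact_mod_cast h2
    exact (Nat.mul_le_mul_left p h1).trans h2'
  · obtain ⟨b, hb1, hb2⟩ := (hlen ((q : ℤ) • u) _).1 le_rfl
    obtain ⟨y, hy⟩ : ∃ y : Fin m → ℤ, y = fun j =>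
      (∑ i, (((p * b i) % q : ℕ) : ℤ) * a i j) / (q : ℤ) := ⟨_, rfl⟩
    have hy1 : len y ≤ C' := by
      have := hC' (fun i => ⟨(p * b i) % q, Nat.mod_lt _ hq0⟩)
      rw [hy]
      exact this
    have hy2 : ∀ j, y j = p * u j - ∑ i, ((p * b i / q : ℕ) : ℤ) * a i j := by
      intro j
      have hqz : (q : ℤ) ≠ 0 := by exact_mod_cast hq0.ne'
      have e1 : ∑ i, (((p * b i) % q : ℕ) : ℤ) * a i j =
          (q : ℤ) * (p * u j - ∑ i, ((p * b i / q : ℕ) : ℤ) * a i j) := by
        have h := congrFun hb2 j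
        rw [Finset.sum_apply] at h
        simp only [Pi.smul_apply, smul_eq_mul] at h
        have h6 : ∀ i, (((p * b i) % q : ℕ) : ℤ) = p * b i - q * ((p * b i / q : ℕ) : ℤ) := by
          intro i
          have := Nat.mod_add_div (p * b i) q
          have h7 : (((p * b i) % q : ℕ) : ℤ) + q * ((p * b i / q : ℕ) : ℤ) = p * b i := by
            exact_mod_cast this
          linarith
        calc ∑ i, (((p * b i) % q : ℕ) : ℤ) * a i j
            = ∑ i, ((p : ℤ) * ((b i : ℤ) * a i j) - q * (((p * b i / q : ℕ) : ℤ) * a i j)) :=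
              Finset.sum_congr rfl fun i _ => by rw [h6]; ring
          _ = p * ∑ i, (b i : ℤ) * a i j - q * ∑ i, ((p * b i / q : ℕ) : ℤ) * a i j := by
              rw [Finset.sum_sub_distrib, ← Finset.mul_sum, ← Finset.mul_sum]
          _ = _ := by rw [h]; ring
      rw [hy]
      show (∑ i, (((p * b i) % q : ℕ) : ℤ) * a i j) / (q : ℤ) = _
      rw [e1, Int.mul_ediv_cancel_left _ hqz]
    obtain ⟨d, hd1, hd2⟩ := (hlen y _).1 hy1
    have h1 : len ((p : ℤ) • u) ≤ ∑ i, (p * b i / q) + C' := by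
      rw [hlen]
      refine ⟨fun i => p * b i / q + d i, ?_, ?_⟩
      · rw [Finset.sum_add_distrib]
        exact Nat.add_le_add_left hd1 _
      · funext j
        have h := congrFun hd2 j
        rw [Finset.sum_apply] at h ⊢
        simp only [Pi.smul_apply, smul_eq_mul] at h ⊢
        push_cast
        simp only [add_mul, Finset.sum_add_distrib]
        rw [h, hy2 j]
        push_cast
        ring
    have h2 : q * ∑ i, (p * b i / q) ≤ p * len ((q : ℤ) • u) := by
      calc q * ∑ i, (p * b i / q) = ∑ i, q * (p * b i / q) := Finset.mul_sum _ _ _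
        _ ≤ ∑ i, p * b i := Finset.sum_le_sum fun i _ => Nat.mul_div_le _ _
        _ = p * ∑ i, b i := (Finset.mul_sum _ _ _).symm
        _ ≤ _ := Nat.mul_le_mul_left _ hb1
    calc q * len ((p : ℤ) • u) ≤ q * (∑ i, (p * b i / q) + C') := Nat.mul_le_mul_left _ h1
      _ = q * ∑ i, (p * b i / q) + q * C' := Nat.mul_add _ _ _
      _ ≤ _ := Nat.add_le_add_right h2 _

end MPa1853d.HH
end

section
set_option autoImplicit false

/-!
# Module MOD: the model `HData` from the group-theoretic hypotheses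
-/

namespace MPa1853d.HH

open MPa1853d

namespace MODM

variable {G : Type} [Group G]

section pre

variable (z : G) (hc : ∀ x : G, x ∈ Subgroup.center G ↔ ∃ k : ℤ, x = z ^ k)
  (hinf : ∀ k : ℤ, z ^ k = 1 → k = 0)
  (hcomm : ∀ x y : G, x⁻¹ * y⁻¹ * x * y ∈ Subgroup.center G)

include hc hcomm in
theorem exists_om (x y : G) : ∃ k : ℤ, x⁻¹ * y⁻¹ * x * y = z ^ k := (hc _).1 (hcomm x y)

/-- the exponent of the commutator. -/
noncomputable def om (x y : G) : ℤ := (exists_om z hc hcomm x y).choose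

theorem om_spec (x y : G) : x⁻¹ * y⁻¹ * x * y = z ^ om z hc hcomm x y :=
  (exists_om z hc hcomm x y).choose_spec

include hinf in
theorem zinj' {k l : ℤ} (h : z ^ k = z ^ l) : k = l := by
  have : z ^ (k - l) = 1 := by rw [zpow_sub, h, mul_inv_cancel]
  have := hinf _ this
  omega

include hc in
theorem z_central (k : ℤ) (x : G) : z ^ k * x = x * z ^ k := by
  have := (hc (z ^ k)).2 ⟨k, rfl⟩
  exact (Subgroup.mem_center_iff.1 this x).symm

theorem swap' (x y : G) : x * y = y * x * z ^ om z hc hcomm x y := by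
  rw [← om_spec]; group

include hinf in
theorem om_eq {x y : G} {k : ℤ} (h : x * y = y * x * z ^ k) : om z hc hcomm x y = k := by
  apply zinj' z hinf
  rw [← om_spec]
  have : z ^ k = (y * x)⁻¹ * (x * y) := by rw [h]; group
  rw [this]; group

include hinf in
theorem om_mul (x y w : G) :
    om z hc hcomm (x * y) w = om z hc hcomm x w + om z hc hcomm y w := by
  apply om_eq z hc hinf hcomm
  calc x * y * w = x * (y * w) := mul_assoc _ _ _
    _ = x * (w * y * z ^ (om z hc hcomm y w)) := by rw [← swap' z hc hcomm y w]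
    _ = (x * w) * y * z ^ (om z hc hcomm y w) := by group
    _ = (w * x * z ^ (om z hc hcomm x w)) * y * z ^ (om z hc hcomm y w) := by
        rw [← swap' z hc hcomm x w]
    _ = w * x * (z ^ (om z hc hcomm x w) * y) * z ^ (om z hc hcomm y w) := by group
    _ = w * x * (y * z ^ (om z hc hcomm x w)) * z ^ (om z hc hcomm y w) := by
        rw [z_central z hc]
    _ = w * (x * y) * z ^ (om z hc hcomm x w + om z hc hcomm y w) := by rw [zpow_add]; group

include hinf in
theorem om_pow (x w : G) (n : ℕ) : om z hc hcomm (x ^ n) w = n * om z hc hcomm x w := by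
  induction n with
  | zero =>
    rw [pow_zero]
    rw [om_eq z hc hinf hcomm (k := 0) (by simp)]
    simp
  | succ n ih => rw [pow_succ, om_mul z hc hinf hcomm, ih]; push_cast; ring

theorem mem_center_of_om {x : G} (h : ∀ y, om z hc hcomm x y = 0) : x ∈ Subgroup.center G := by
  rw [Subgroup.mem_center_iff]
  intro y
  have := swap' z hc hcomm x y
  rw [h, zpow_zero, mul_one] at this
  exact this.symm

include hc hinf hcomm in
theorem torsion_free {x : G} {n : ℕ} (hn : n ≠ 0) (h : x ^ n ∈ Subgroup.center G) :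
    x ∈ Subgroup.center G := by
  apply mem_center_of_om z hc hcomm
  intro y
  have h1 : om z hc hcomm (x ^ n) y = 0 := by
    apply om_eq z hc hinf hcomm
    rw [zpow_zero, mul_one]
    exact (Subgroup.mem_center_iff.1 h y).symm
  rw [om_pow z hc hinf hcomm] at h1
  rcases mul_eq_zero.1 h1 with h2 | h2
  · exact absurd (by exact_mod_cast h2) hn
  · exact h2

end pre

/-- for `m ≤ 2` the group is generated by two elements and `z`. -/
theorem two_gen {m : ℕ} (D : HData G m) (hm : m ≤ 2) :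
    ∃ a c : G, ∀ x, ∃ i j k : ℤ, x = a ^ i * c ^ j * D.z ^ k := by
  have key : ∀ a c : G, (∀ x, ∃ i j : ℤ, D.φ x = i • D.φ a + j • D.φ c) →
      ∀ x, ∃ i j k : ℤ, x = a ^ i * c ^ j * D.z ^ k := by
    intro a c h x
    obtain ⟨i, j, hij⟩ := h x
    have h1 : D.φ (a ^ i * c ^ j) = D.φ x := by rw [D.φ_mul, D.φ_zpow, D.φ_zpow, hij]
    obtain ⟨k, hk⟩ := D.eq_of_φ h1
    exact ⟨i, j, k, hk⟩
  rcases m with _ | _ | _ | m
  · exact ⟨1, 1, key 1 1 fun x => ⟨0, 0, Subsingleton.elim _ _⟩⟩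
  · obtain ⟨a, ha⟩ := D.φ_surj (fun _ => 1)
    refine ⟨a, 1, key a 1 fun x => ⟨D.φ x 0, 0, ?_⟩⟩
    funext t
    rw [ha]
    fin_cases t
    simp
  · obtain ⟨a, ha⟩ := D.φ_surj ![1, 0]
    obtain ⟨c, hc⟩ := D.φ_surj ![0, 1]
    refine ⟨a, c, key a c fun x => ⟨D.φ x 0, D.φ x 1, ?_⟩⟩
    funext t
    rw [ha, hc]
    fin_cases t <;> simp
  · omega

end MODM

open MODM in
theorem specMOD : SpecMOD := by
  classical
  intro G _ S z hS hc hinf hcomm h2
  -- the quotient
  let A := G ⧸ Subgroup.center G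
  let instA : CommGroup A :=
    { (inferInstance : Group A) with
      mul_comm := by
        intro a b
        induction a using QuotientGroup.induction_on with
        | H x =>
          induction b using QuotientGroup.induction_on with
          | H y =>
            rw [← QuotientGroup.mk_mul, ← QuotientGroup.mk_mul, QuotientGroup.eq]
            have := hcomm y x
            have e : (x * y)⁻¹ * (y * x) = y⁻¹ * x⁻¹ * y * x := by group
            rw [e]
            exact this }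
  let π : G →* A := QuotientGroup.mk' (Subgroup.center G)
  have hπs : Function.Surjective π := QuotientGroup.mk'_surjective _
  have hπk : ∀ x, π x = 1 ↔ x ∈ Subgroup.center G := fun x => QuotientGroup.eq_one_iff x
  let B := Additive A
  have : AddGroup.FG B := by
    have : Group.FG G := ⟨⟨S, hS⟩⟩
    have : Group.FG A := Group.fg_of_surjective hπs
    infer_instance
  have : Module.Finite ℤ B := Module.Finite.iff_addGroup_fg.2 inferInstance
  have : IsMulTorsionFree A := by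
    refine ⟨fun n hn a c h => ?_⟩
    simp only at h
    obtain ⟨x, hx⟩ := hπs (a * c⁻¹)
    have h1 : (a * c⁻¹) ^ n = 1 := by rw [mul_pow, inv_pow, h, mul_inv_cancel]
    rw [← hx, ← map_pow, hπk] at h1
    have h3 := (hπk x).2 (torsion_free z hc hinf hcomm hn h1)
    rw [hx] at h3
    exact mul_inv_eq_one.1 h3
  have : Module.IsTorsionFree ℤ B := inferInstance
  have : Module.Free ℤ B := inferInstance
  let m := Module.finrank ℤ B
  let b : Module.Basis (Fin m) ℤ B := Module.finBasis ℤ B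
  let D : HData G m :=
    { z := z
      φ := fun x => b.equivFun (Additive.ofMul (π x))
      ω := om z hc hcomm
      zc := fun x => by simpa using z_central z hc 1 x
      zinf := hinf
      φ_mul := fun x y => by
        rw [map_mul, ofMul_mul, map_add]
      φ_surj := fun v => by
        obtain ⟨x, hx⟩ := hπs (Additive.toMul (b.equivFun.symm v))
        refine ⟨x, ?_⟩
        rw [hx, ofMul_toMul, LinearEquiv.apply_symm_apply]
      φ_ker := fun x => by
        rw [← hc, ← hπk]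
        constructor
        · intro h
          have h1 := (LinearEquiv.map_eq_zero_iff b.equivFun).1 h
          exact h1
        · intro h
          rw [h]
          exact map_zero _
      comm := fun x y => om_spec z hc hcomm x y
      nondeg := fun x h => by
        have h1 := (hπk x).2 (mem_center_of_om z hc hcomm h)
        rw [h1]
        exact map_zero _ }
  refine ⟨m, ?_, ⟨D⟩⟩
  by_contra hm
  obtain ⟨a, c, hac⟩ := two_gen D (by omega)
  apply h2 a c
  rw [eq_top_iff]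
  intro x _
  obtain ⟨i, j, k, hx⟩ := hac x
  rw [hx]
  have ha : a ∈ Subgroup.closure {a, c} ⊔ Subgroup.center G :=
    Subgroup.mem_sup_left (Subgroup.subset_closure (by simp))
  have hcc : c ∈ Subgroup.closure {a, c} ⊔ Subgroup.center G :=
    Subgroup.mem_sup_left (Subgroup.subset_closure (by simp))
  have hz : D.z ^ k ∈ Subgroup.closure {a, c} ⊔ Subgroup.center G :=
    Subgroup.mem_sup_right ((hc _).2 ⟨k, rfl⟩)
  exact Subgroup.mul_mem _ (Subgroup.mul_mem _ (Subgroup.zpow_mem _ ha i)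
    (Subgroup.zpow_mem _ hcc j)) hz

end MPa1853d.HH
end

section
set_option autoImplicit false

/-!
# Conjugacy growth of the higher Heisenberg groups, module QSY

Translations by `s ^ K` on the partition of `G` into the sets `qc K x`.
-/

namespace MPa1853d.HH

open MPa1853d

namespace QSYM

variable {G : Type} [Group G] {m : ℕ} (D : HData G m)

/-- right translate of a set. -/
def act (u : G) (q : Set G) : Set G := {y | y * u⁻¹ ∈ q}

theorem act_act (u v : G) (q : Set G) : act v (act u q) = act (u * v) q := by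
  ext y
  simp only [act, Set.mem_ofPred_eq, mul_inv_rev, mul_assoc]

theorem act_one (q : Set G) : act 1 q = q := by
  ext y
  simp [act]

theorem qc_shift {K : ℕ} {x w : G} (j : ℤ) (h : w ∈ D.qc K x) :
    w * D.z ^ ((K : ℤ) * j) ∈ D.qc K x := by
  obtain ⟨i, rfl⟩ := h
  obtain ⟨c, hc⟩ := Nat.gcd_dvd_right (D.gg x) K
  refine ⟨i + c * j, ?_⟩
  rw [mul_assoc, ← zpow_add]
  congr 2
  have h1 : (K : ℤ) = ((Nat.gcd (D.gg x) K : ℕ) : ℤ) * c := by exact_mod_cast hc
  conv_lhs => rw [h1]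
  ring

theorem act_qc (K : ℕ) (s x : G) (k : ℤ) :
    act (s ^ ((K : ℤ) * k)) (D.qc K x) = D.qc K (x * s ^ ((K : ℤ) * k)) := by
  ext y
  have hg : Nat.gcd (D.gg (x * s ^ ((K : ℤ) * k))) K = Nat.gcd (D.gg x) K := D.gcd_mul_pow x s K k
  constructor
  · rintro ⟨j, hj⟩
    refine ⟨j, ?_⟩
    rw [hg]
    have h1 : y = y * (s ^ ((K : ℤ) * k))⁻¹ * s ^ ((K : ℤ) * k) := by group
    rw [h1, hj, mul_assoc, D.zcp, mul_assoc]
  · rintro ⟨j, hj⟩
    refine ⟨j, ?_⟩
    rw [hg] at hj
    rw [hj, mul_assoc x, ← D.zcp]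
    group

theorem act_shift {K : ℕ} (q : D.QK K) (u : G) (j : ℤ) :
    act (u * D.z ^ ((K : ℤ) * j)) q.1 = act u q.1 := by
  obtain ⟨x, hx⟩ := q.2
  rw [hx]
  ext y
  have h1 : y * (u * D.z ^ ((K : ℤ) * j))⁻¹ = y * u⁻¹ * D.z ^ ((K : ℤ) * (-j)) := by
    have h2 : (u * D.z ^ ((K : ℤ) * j))⁻¹ = u⁻¹ * D.z ^ ((K : ℤ) * (-j)) := by
      rw [mul_inv_rev, ← zpow_neg, D.zcp]
      congr 2
      ring
    rw [h2, mul_assoc]
  constructor
  · intro h
    have h3 : y * u⁻¹ * D.z ^ ((K : ℤ) * (-j)) ∈ D.qc K x := by rw [← h1]; exact h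
    have h4 := qc_shift D j h3
    have h5 : y * u⁻¹ * D.z ^ ((K : ℤ) * (-j)) * D.z ^ ((K : ℤ) * j) = y * u⁻¹ := by
      rw [mul_assoc, ← zpow_add]
      have : (K : ℤ) * (-j) + K * j = 0 := by ring
      rw [this, zpow_zero, mul_one]
    rw [h5] at h4
    exact h4
  · intro h
    have h3 := qc_shift D (-j) (show y * u⁻¹ ∈ D.qc K x from h)
    rw [← h1] at h3
    exact h3

/-- translation by `s ^ (K k)`. -/
def tr (K : ℕ) (s : G) (k : ℤ) (q : D.QK K) : D.QK K :=
  ⟨act (s ^ ((K : ℤ) * k)) q.1, by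
    obtain ⟨x, hx⟩ := q.2
    exact ⟨x * s ^ ((K : ℤ) * k), by rw [hx, act_qc]⟩⟩

theorem tr_tr (K : ℕ) (s : G) (k l : ℤ) (q : D.QK K) :
    tr D K s k (tr D K s l q) = tr D K s (l + k) q := by
  apply Subtype.ext
  show act (s ^ ((K : ℤ) * k)) (act (s ^ ((K : ℤ) * l)) q.1) = act (s ^ ((K : ℤ) * (l + k))) q.1
  rw [act_act, ← zpow_add, mul_add]

theorem tr_zero (K : ℕ) (s : G) (q : D.QK K) : tr D K s 0 q = q := by
  apply Subtype.ext
  show act (s ^ ((K : ℤ) * 0)) q.1 = q.1
  rw [mul_zero, zpow_zero, act_one]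

/-- translation as a permutation. -/
def trE (K : ℕ) (s : G) (k : ℤ) : Equiv.Perm (D.QK K) where
  toFun := tr D K s k
  invFun := tr D K s (-k)
  left_inv q := by rw [tr_tr, add_neg_cancel, tr_zero]
  right_inv q := by rw [tr_tr, neg_add_cancel, tr_zero]

theorem trE_pow (K : ℕ) (s : G) (M : ℕ) : (trE D K s 1) ^ M = trE D K s M := by
  induction M with
  | zero =>
    ext1 q
    show q = tr D K s ((0 : ℕ) : ℤ) q
    rw [Nat.cast_zero, tr_zero]
  | succ M ih =>
    ext1 q
    rw [pow_succ, ih]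
    show tr D K s M (tr D K s 1 q) = tr D K s ((M + 1 : ℕ) : ℤ) q
    rw [tr_tr]
    congr 1
    push_cast
    ring

theorem tr_comm (K : ℕ) (s t : G) (q : D.QK K) :
    tr D K s 1 (tr D K t 1 q) = tr D K t 1 (tr D K s 1 q) := by
  apply Subtype.ext
  show act (s ^ ((K : ℤ) * 1)) (act (t ^ ((K : ℤ) * 1)) q.1) =
    act (t ^ ((K : ℤ) * 1)) (act (s ^ ((K : ℤ) * 1)) q.1)
  rw [act_act, act_act, D.swap (s ^ ((K : ℤ) * 1)) (t ^ ((K : ℤ) * 1)), D.ω_zpow_left]
  have : (K : ℤ) * 1 * D.ω s (t ^ ((K : ℤ) * 1)) = (K : ℤ) * D.ω s (t ^ ((K : ℤ) * 1)) := by ring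
  rw [this, act_shift]

variable {S : Finset G}

/-- appending `n` letters `s` to a word. -/
theorem ln_act_le (hS : Subgroup.closure (S : Set G) = ⊤) {s : G} (hs : s ∈ S ∨ s⁻¹ ∈ S)
    {q : Set G} (hq : q.Nonempty) (n : ℕ) : ln S (act (s ^ n) q) ≤ ln S q + n := by
  obtain ⟨l, h1, h2, h3⟩ := ln_spec hS hq
  have h4 : ln S (act (s ^ n) q) ≤ (l ++ List.replicate n s).length := by
    apply ln_le (IsW.append h2 (IsW.replicate n hs))
    show (l ++ List.replicate n s).prod * (s ^ n)⁻¹ ∈ q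
    rw [List.prod_append, List.prod_replicate, mul_inv_cancel_right]
    exact h3
  rw [List.length_append, List.length_replicate, h1] at h4
  exact h4

theorem act_nonempty {u : G} {q : Set G} (hq : q.Nonempty) : (act u q).Nonempty := by
  obtain ⟨x, hx⟩ := hq
  exact ⟨x * u, by show x * u * u⁻¹ ∈ q; rwa [mul_inv_cancel_right]⟩

theorem QK_nonempty {K : ℕ} (q : D.QK K) : q.1.Nonempty := by
  obtain ⟨x, hx⟩ := q.2
  rw [hx]
  exact ⟨x, D.mem_qc_self K x⟩

theorem ln_le_act (hS : Subgroup.closure (S : Set G) = ⊤) {s : G} (hs : s ∈ S ∨ s⁻¹ ∈ S)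
    {q : Set G} (hq : q.Nonempty) (n : ℕ) : ln S q ≤ ln S (act (s ^ n) q) + n := by
  have h1 : q = act (s⁻¹ ^ n) (act (s ^ n) q) := by
    rw [act_act, inv_pow, mul_inv_cancel, act_one]
  have h2 := ln_act_le (S := S) hS (s := s⁻¹) (by rwa [inv_inv, or_comm])
    (act_nonempty (u := s ^ n) hq) n
  rwa [← h1] at h2

open Classical in
/-- the number of the letters `s` of the word whose remaining word `l₂` has `ω s l₂ ≡ c`. -/
noncomputable def cnt (K : ℕ) (s : G) (c : ℤ) : List G → ℕ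
  | [] => 0
  | a :: l => cnt K s c l + if a = s ∧ (K : ℤ) ∣ D.ω s l.prod - c then 1 else 0

open Classical in
/-- moving letters to the end of the word. -/
theorem move (K : ℕ) (s : G) (c : ℤ) (l : List G) (hl : IsW S l) (t : ℕ) (ht : t ≤ cnt D K s c l) :
    ∃ (l' : List G) (j : ℤ), l'.length + t = l.length ∧ IsW S l' ∧
      l.prod = l'.prod * s ^ t * D.z ^ ((t : ℤ) * c + K * j) := by
  induction l generalizing t with
  | nil =>
    have : t = 0 := by simpa [cnt] using ht
    subst this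
    exact ⟨[], 0, rfl, hl, by simp⟩
  | cons a l ih =>
    have hl' : IsW S l := fun x hx => hl x (List.mem_cons_of_mem _ hx)
    by_cases h1 : t ≤ cnt D K s c l
    · obtain ⟨l', j, h2, h3, h4⟩ := ih hl' t h1
      refine ⟨a :: l', j, by simp only [List.length_cons]; omega, ?_, ?_⟩
      · intro x hx
        rcases List.mem_cons.1 hx with rfl | hx
        · exact hl _ List.mem_cons_self
        · exact h3 x hx
      · rw [List.prod_cons, List.prod_cons, h4]
        group
    · have h2 : cnt D K s c (a :: l) = cnt D K s c l +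
          if a = s ∧ (K : ℤ) ∣ D.ω s l.prod - c then 1 else 0 := rfl
      rw [h2] at ht
      split_ifs at ht with h3
      · obtain ⟨rfl, d, hd⟩ := h3
        obtain ⟨l', j, h4, h5, h6⟩ := ih hl' (cnt D K a c l) le_rfl
        have h7 : t = cnt D K a c l + 1 := by omega
        refine ⟨l', j + d, by simp only [List.length_cons]; omega, h5, ?_⟩
        rw [List.prod_cons, D.swap a l.prod]
        conv_lhs => rw [h6]
        have h8 : l'.prod * a ^ cnt D K a c l * D.z ^ ((cnt D K a c l : ℤ) * c + K * j) * a =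
            l'.prod * a ^ (cnt D K a c l + 1) * D.z ^ ((cnt D K a c l : ℤ) * c + K * j) := by
          rw [mul_assoc _ (D.z ^ _) a, D.zcp, pow_succ]
          group
        rw [← h6, h6, h8, mul_assoc _ (D.z ^ _) (D.z ^ _), ← zpow_add, h7, ← h6]
        congr 2
        have h9 : D.ω a l.prod = c + K * d := by linarith
        rw [h9]
        push_cast
        ring
      · omega

open Classical in
/-- every letter of the word is counted once. -/
theorem sum_cnt (K : ℕ) (hK : 0 < K) (L : Finset G) (l : List G) (hl : ∀ x ∈ l, x ∈ L) :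
    ∑ s ∈ L, ∑ c ∈ Finset.range K, cnt D K s c l = l.length := by
  induction l with
  | nil => simp [cnt]
  | cons a l ih =>
    have hl' : ∀ x ∈ l, x ∈ L := fun x hx => hl x (List.mem_cons_of_mem _ hx)
    have ha : a ∈ L := hl a List.mem_cons_self
    have h1 : ∀ s (c : ℕ), cnt D K s (c : ℤ) (a :: l) = cnt D K s c l +
          if a = s ∧ (K : ℤ) ∣ D.ω s l.prod - c then 1 else 0 := fun _ _ => rfl
    simp_rw [h1, Finset.sum_add_distrib]
    rw [ih hl', List.length_cons]
    congr 1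
    rw [Finset.sum_eq_single_of_mem a ha]
    · have hK' : (0 : ℤ) < K := by exact_mod_cast hK
      have h2 := Int.emod_nonneg (D.ω a l.prod) hK'.ne'
      have h3 := Int.emod_lt_of_pos (D.ω a l.prod) hK'
      set r := (D.ω a l.prod % K).toNat with hr
      have h4 : (r : ℤ) = D.ω a l.prod % K := Int.toNat_of_nonneg h2
      rw [Finset.sum_eq_single_of_mem r (by rw [Finset.mem_range]; omega)]
      · rw [if_pos]
        refine ⟨rfl, ?_⟩
        rw [h4]
        exact Int.dvd_self_sub_emod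
      · intro c hc hcr
        rw [Finset.mem_range] at hc
        rw [if_neg]
        rintro ⟨-, h5⟩
        apply hcr
        have h6 : (D.ω a l.prod) % K = (c : ℤ) % K :=
          Int.emod_eq_emod_iff_emod_sub_eq_zero.2 (Int.emod_eq_zero_of_dvd h5)
        rw [← h4, Int.emod_eq_of_lt (by positivity) (by exact_mod_cast hc)] at h6
        exact_mod_cast h6.symm
    · intro s _ hs
      apply Finset.sum_eq_zero
      intro c _
      rw [if_neg]
      rintro ⟨h5, -⟩
      exact hs h5.symm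

end QSYM

open QSYM in
theorem specQSY : SpecQSY := by
  classical
  intro G _ m D S K hK hS
  set L : Finset G := S ∪ S.image (·⁻¹) with hL
  have hmem : ∀ x, x ∈ L ↔ (x ∈ S ∨ x⁻¹ ∈ S) := by
    intro x
    rw [hL, Finset.mem_union, Finset.mem_image]
    constructor
    · rintro (h | ⟨y, hy, rfl⟩)
      · exact Or.inl h
      · exact Or.inr (by rwa [inv_inv])
    · rintro (h | h)
      · exact Or.inl h
      · exact Or.inr ⟨x⁻¹, h, inv_inv x⟩
  let e : L ≃ Fin L.card := L.equivFin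
  refine ⟨L.card, fun i => trE D K (e.symm i).1 1, ?_, ?_, ?_, ?_⟩
  · intro i j y
    exact tr_comm D K _ _ y
  · intro i y
    have h := ln_act_le hS ((hmem _).1 (e.symm i).2) (QK_nonempty D y) K
    have h2 : (trE D K (e.symm i).1 1 y).1 = act ((e.symm i).1 ^ K) y.1 := by
      show act ((e.symm i).1 ^ ((K : ℤ) * 1)) y.1 = _
      rw [mul_one, zpow_natCast]
    rw [h2]
    exact h
  · intro i y
    have h := ln_le_act hS ((hmem _).1 (e.symm i).2) (QK_nonempty D y) K
    have h2 : (trE D K (e.symm i).1 1 y).1 = act ((e.symm i).1 ^ K) y.1 := by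
      show act ((e.symm i).1 ^ ((K : ℤ) * 1)) y.1 = _
      rw [mul_one, zpow_natCast]
    rw [h2]
    exact h
  · intro M
    set B := L.card * (K * (M * K)) with hB
    -- the finite set
    have hfin : {y : D.QK K | ln S y.1 ≤ B}.Finite := by
      let f : List (Fin L.card) → D.QK K := fun w =>
        ⟨D.qc K (w.map fun i => (e.symm i).1).prod, _, rfl⟩
      refine ((List.finite_length_le (Fin L.card) B).image f).subset ?_
      intro y hy
      obtain ⟨l, h1, h2, h3⟩ := ln_spec hS (QK_nonempty D y)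
      have h4 : ∀ x ∈ l, x ∈ L := fun x hx => (hmem x).2 (h2 x hx)
      refine ⟨l.attach.map fun x => e ⟨x.1, h4 x.1 x.2⟩, ?_, ?_⟩
      · show (List.map _ _).length ≤ B
        rw [List.length_map, List.length_attach, h1]
        exact hy
      · apply Subtype.ext
        show D.qc K _ = y.1
        have h5 : ((l.attach.map fun x => e ⟨x.1, h4 x.1 x.2⟩).map fun i => (e.symm i).1) = l := by
          rw [List.map_map]
          have : ((fun i => (e.symm i).1) ∘ fun x : {x // x ∈ l} => e ⟨x.1, h4 x.1 x.2⟩) =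
              Subtype.val := by
            funext x
            simp
          rw [this, List.attach_map_subtype_val]
        rw [h5]
        obtain ⟨x, hx⟩ := y.2
        rw [hx] at h3 ⊢
        exact D.qc_eq_of_mem h3
    refine ⟨hfin.toFinset, fun y hy => ?_⟩
    rw [Set.Finite.mem_toFinset] at hy
    have hy' : B < ln S y.1 := not_le.1 hy
    obtain ⟨l, h1, h2, h3⟩ := ln_spec hS (QK_nonempty D y)
    have h4 : ∀ x ∈ l, x ∈ L := fun x hx => (hmem x).2 (h2 x hx)
    obtain ⟨s, hs, c, hc, h5⟩ : ∃ s ∈ L, ∃ c ∈ Finset.range K, M * K < cnt D K s (c : ℤ) l := by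
      by_contra hcon
      push Not at hcon
      have h6 := sum_cnt D K hK L l h4
      have h7 : ∑ s ∈ L, ∑ c ∈ Finset.range K, cnt D K s (c : ℤ) l ≤
          ∑ s ∈ L, ∑ c ∈ Finset.range K, M * K :=
        Finset.sum_le_sum fun s hs => Finset.sum_le_sum fun c hc => hcon s hs c hc
      rw [h6, Finset.sum_const, Finset.sum_const, Finset.card_range, smul_eq_mul,
        smul_eq_mul, h1, ← hB] at h7
      omega
    obtain ⟨l', j, h8, h9, h10⟩ := move D K s c l h2 (M * K) h5.le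
    refine ⟨e ⟨s, hs⟩, ?_⟩
    have h11 : (((trE D K (e.symm (e ⟨s, hs⟩)).1 1) ^ M).symm y).1 =
        act (s ^ ((K : ℤ) * (-(M : ℤ)))) y.1 := by
      rw [trE_pow]
      show act ((e.symm (e ⟨s, hs⟩)).1 ^ ((K : ℤ) * (-(M : ℤ)))) y.1 = _
      rw [Equiv.symm_apply_apply]
    rw [h11]
    apply le_antisymm
    · have h12 : ln S (act (s ^ ((K : ℤ) * (-(M : ℤ)))) y.1) ≤ l'.length := by
        apply ln_le h9
        show l'.prod * (s ^ ((K : ℤ) * (-(M : ℤ))))⁻¹ ∈ y.1
        have h13 : (s ^ ((K : ℤ) * (-(M : ℤ))))⁻¹ = s ^ (M * K) := by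
          rw [← zpow_neg, ← zpow_natCast]
          congr 1
          push_cast
          ring
        rw [h13]
        obtain ⟨x, hx⟩ := y.2
        rw [hx] at h3 ⊢
        have h14 := qc_shift D (-((M : ℤ) * c + j)) h3
        have h15 : l.prod * D.z ^ ((K : ℤ) * (-((M : ℤ) * c + j))) = l'.prod * s ^ (M * K) := by
          rw [h10, mul_assoc, ← zpow_add]
          have : ((M * K : ℕ) : ℤ) * c + K * j + K * (-((M : ℤ) * c + j)) = 0 := by
            push_cast
            ring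
          rw [this, zpow_zero, mul_one]
        rw [h15] at h14
        exact h14
      omega
    · have h12 := ln_act_le hS ((hmem s).1 hs)
        (act_nonempty (u := s ^ ((K : ℤ) * (-(M : ℤ)))) (QK_nonempty D y)) (M * K)
      have h13 : act (s ^ (M * K)) (act (s ^ ((K : ℤ) * (-(M : ℤ)))) y.1) = y.1 := by
        rw [act_act, ← zpow_natCast, ← zpow_add]
        have : (K : ℤ) * (-(M : ℤ)) + ((M * K : ℕ) : ℤ) = 0 := by push_cast; ring
        rw [this, zpow_zero, act_one]
      rw [h13] at h12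
      exact h12

end MPa1853d.HH
end

section
/-!
# MP_a1853d, HH: module SIG
-/
set_option autoImplicit false

namespace MPa1853d.HH

open MPa1853d

theorem specSIG : SpecSIG := by
  intro G _ m D S K hS
  have hne : ∀ q : D.QK K, (q.1).Nonempty := by
    rintro ⟨X, x, rfl⟩
    exact ⟨x, D.mem_qc_self K x⟩
  have hsp := fun q : D.QK K => ln_spec (S := S) hS (hne q)
  choose l hl1 hl2 hl3 using hsp
  have hmem : ∀ q : D.QK K, ∀ y, y ∈ q.1 → D.qc K y = q.1 := by
    rintro ⟨X, x, rfl⟩ y hy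
    exact D.qc_eq_of_mem hy
  have hcar : ∀ q : D.QK K, (ConjClasses.mk (l q).prod).carrier ⊆ q.1 := by
    intro q y hy
    rw [ConjClasses.mem_carrier_iff_mk_eq, ConjClasses.mk_eq_mk_iff_isConj] at hy
    have h1 := D.mem_qc_of_isConj (K := K) hy.symm
    rw [hmem q _ (hl3 q)] at h1
    exact h1
  refine ⟨fun q => ConjClasses.mk (l q).prod, ?_, ?_, hcar⟩
  · intro q q' h
    simp only at h
    rw [ConjClasses.mk_eq_mk_iff_isConj] at h
    have h1 := D.mem_qc_of_isConj (K := K) h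
    rw [hmem q _ (hl3 q)] at h1
    apply Subtype.ext
    rw [← hmem q _ h1, hmem q' _ (hl3 q')]
  · intro q
    apply le_antisymm
    · rw [← hl1 q]
      exact ln_le (hl2 q) (ConjClasses.mem_carrier_mk)
    · exact ln_anti hS ⟨_, ConjClasses.mem_carrier_mk⟩ (hcar q)

end MPa1853d.HH
end

section
set_option autoImplicit false

/-!
# Conjugacy growth of the higher Heisenberg groups: module SKL (roots of unity filter)
-/

namespace MPa1853d.HH

namespace SKLM

open Finset in
/-- roots of unity filter for one exponent. -/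
theorem filter_one {p : ℕ} (hp : p.Prime) {ζ : ℂ} (hζ : IsPrimitiveRoot ζ p) (b n : ℕ)
    (h : n % p ≠ b % p) (r : ℂ) :
    ∑ j ∈ range p, (ζ ^ j) ^ (b * (p - 1)) * (r * ζ ^ j) ^ n = 0 := by
  have h1 : ¬ p ∣ (b * (p - 1) + n) := by
    intro hd
    apply h
    obtain ⟨k, hk⟩ := hd
    have hp1 : 1 ≤ p := hp.one_lt.le
    have e : n + b * p = b + p * k := by
      have : b * (p - 1) + b = b * p := by
        conv_rhs => rw [← Nat.sub_add_cancel hp1]
        ring
      omega
    have e2 : (n + b * p) % p = (b + p * k) % p := by rw [e]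
    simpa using e2
  have h2 : ζ ^ (b * (p - 1) + n) ≠ 1 := fun h' => h1 ((hζ.pow_eq_one_iff_dvd _).1 h')
  have h3 : ∀ j ∈ range p, (ζ ^ j) ^ (b * (p - 1)) * (r * ζ ^ j) ^ n =
      r ^ n * (ζ ^ (b * (p - 1) + n)) ^ j := by
    intro j _
    rw [mul_pow, ← pow_mul, ← pow_mul, ← pow_mul, add_mul, pow_add]
    rw [mul_comm j (b * (p - 1)), mul_comm j n]
    ring
  rw [sum_congr rfl h3, ← mul_sum, geom_sum_eq h2, ← pow_mul, mul_comm _ p, pow_mul,
    hζ.pow_eq_one, one_pow, sub_self, zero_div, mul_zero]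

theorem norm_r {p : ℕ} (hp : p ≠ 0) {ω : ℂ} (h : ω ^ p = 1) {r : ℝ} (h0 : 0 ≤ r) :
    ‖(r : ℂ) * ω‖ = r := by
  rw [norm_mul, Complex.norm_eq_one_of_pow_eq_one h hp, mul_one, Complex.norm_real, Real.norm_eq_abs,
    abs_of_nonneg h0]

theorem summ {I : Type} (len : I → ℕ) (A : Set I) (t : ℂ)
    (hS : Summable (fun i => ‖t‖ ^ len i)) :
    Summable (fun i => A.indicator (fun i => t ^ len i) i) := by
  refine Summable.of_norm_bounded hS fun i => ?_
  by_cases h : i ∈ A
  · rw [Set.indicator_of_mem h, norm_pow]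
  · rw [Set.indicator_of_notMem h, norm_zero]
    exact pow_nonneg (norm_nonneg _) _

theorem summ' {I : Type} (len : I → ℕ) (A : Set I) (r : ℝ) (h0 : 0 ≤ r)
    (hS : Summable (fun i => r ^ len i)) :
    Summable (fun i => A.indicator (fun i => r ^ len i) i) := by
  refine Summable.of_nonneg_of_le (fun i => ?_) (fun i => ?_) hS
  · exact Set.indicator_nonneg (fun i _ => pow_nonneg h0 _) i
  · exact Set.indicator_le_self' (fun i _ => pow_nonneg h0 _) i

open Finset in
/-- the filter inequality. -/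
theorem filter_bound {I : Type} (len : I → ℕ) (J Cent Big : Set I) {p : ℕ} (hp : p.Prime)
    {ζ : ℂ} (hζ : IsPrimitiveRoot ζ p) (b : ℕ) (r : ℝ) (h0 : 0 ≤ r)
    (hS : Summable (fun i => r ^ len i))
    (hres : ∀ i, i ∈ J → i ∉ Cent → i ∉ Big → len i % p ≠ b % p) :
    ‖∑' i, J.indicator (fun i => (r : ℂ) ^ len i) i‖ ≤
      p * (∑' i, Cent.indicator (fun i => r ^ len i) i + ∑' i, Big.indicator (fun i => r ^ len i) i)
      + ∑ j ∈ (range p).erase 0, ‖∑' i, J.indicator (fun i => ((r : ℂ) * ζ ^ j) ^ len i) i‖ := by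
  have hz : ∀ j : ℕ, (ζ ^ j) ^ p = 1 := by
    intro j
    rw [← pow_mul, mul_comm, pow_mul, hζ.pow_eq_one, one_pow]
  have hn : ∀ j : ℕ, ‖(r : ℂ) * ζ ^ j‖ = r := fun j => norm_r hp.ne_zero (hz j) h0
  have hsj : ∀ j : ℕ, Summable (fun i => J.indicator (fun i => ((r : ℂ) * ζ ^ j) ^ len i) i) :=
    fun j => summ len J _ (by rw [hn]; exact hS)
  have e1 : ∑' i, (∑ j ∈ range p, (ζ ^ j) ^ (b * (p - 1)) *
      J.indicator (fun i => ((r : ℂ) * ζ ^ j) ^ len i) i) =
      ∑ j ∈ range p, (ζ ^ j) ^ (b * (p - 1)) *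
        ∑' i, J.indicator (fun i => ((r : ℂ) * ζ ^ j) ^ len i) i := by
    rw [Summable.tsum_finsetSum (fun j _ => (hsj j).mul_left _)]
    exact sum_congr rfl fun j _ => tsum_mul_left
  have e2 : ∑ j ∈ range p, (ζ ^ j) ^ (b * (p - 1)) *
        ∑' i, J.indicator (fun i => ((r : ℂ) * ζ ^ j) ^ len i) i =
      ∑' i, J.indicator (fun i => (r : ℂ) ^ len i) i +
      ∑ j ∈ (range p).erase 0, (ζ ^ j) ^ (b * (p - 1)) *
        ∑' i, J.indicator (fun i => ((r : ℂ) * ζ ^ j) ^ len i) i := by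
    rw [← add_sum_erase (range p) _ (mem_range.2 hp.pos)]
    simp
  have hz1 : ∀ j : ℕ, ‖(ζ ^ j) ^ (b * (p - 1))‖ = 1 := by
    intro j
    rw [norm_pow, Complex.norm_eq_one_of_pow_eq_one (hz j) hp.ne_zero, one_pow]
  have e3 : ‖∑' i, (∑ j ∈ range p, (ζ ^ j) ^ (b * (p - 1)) *
      J.indicator (fun i => ((r : ℂ) * ζ ^ j) ^ len i) i)‖ ≤
      p * (∑' i, Cent.indicator (fun i => r ^ len i) i +
        ∑' i, Big.indicator (fun i => r ^ len i) i) := by
    rw [← Summable.tsum_add (summ' len Cent r h0 hS) (summ' len Big r h0 hS), ← tsum_mul_left]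
    refine tsum_of_norm_bounded
      (((summ' len Cent r h0 hS).add (summ' len Big r h0 hS)).mul_left _).hasSum fun i => ?_
    have hc0 : 0 ≤ Cent.indicator (fun i => r ^ len i) i :=
      Set.indicator_nonneg (fun i _ => pow_nonneg h0 _) i
    have hb0 : 0 ≤ Big.indicator (fun i => r ^ len i) i :=
      Set.indicator_nonneg (fun i _ => pow_nonneg h0 _) i
    have hp0 : (0 : ℝ) ≤ p := Nat.cast_nonneg _
    by_cases hJ : i ∈ J
    · simp only [Set.indicator_of_mem hJ]
      by_cases hcb : i ∈ Cent ∨ i ∈ Big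
      · have h1 : ‖∑ j ∈ range p, (ζ ^ j) ^ (b * (p - 1)) * ((r : ℂ) * ζ ^ j) ^ len i‖ ≤
            p * r ^ len i := by
          refine (norm_sum_le _ _).trans ?_
          have : ∀ j ∈ range p, ‖(ζ ^ j) ^ (b * (p - 1)) * ((r : ℂ) * ζ ^ j) ^ len i‖ =
              r ^ len i := by
            intro j _
            rw [norm_mul, hz1, one_mul, norm_pow, hn]
          rw [sum_congr rfl this, sum_const, card_range, nsmul_eq_mul]
        refine h1.trans (mul_le_mul_of_nonneg_left ?_ hp0)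
        rcases hcb with h | h
        · rw [Set.indicator_of_mem h]; linarith
        · rw [Set.indicator_of_mem h (f := fun i => r ^ len i)]; linarith
      · rw [not_or] at hcb
        rw [filter_one hp hζ b (len i) (hres i hJ hcb.1 hcb.2), norm_zero]
        exact mul_nonneg hp0 (add_nonneg hc0 hb0)
    · simp only [Set.indicator_of_notMem hJ, mul_zero, sum_const_zero, norm_zero]
      exact mul_nonneg hp0 (add_nonneg hc0 hb0)
  have e4 : ∑' i, J.indicator (fun i => (r : ℂ) ^ len i) i =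
      ∑' i, (∑ j ∈ range p, (ζ ^ j) ^ (b * (p - 1)) *
        J.indicator (fun i => ((r : ℂ) * ζ ^ j) ^ len i) i) -
      ∑ j ∈ (range p).erase 0, (ζ ^ j) ^ (b * (p - 1)) *
        ∑' i, J.indicator (fun i => ((r : ℂ) * ζ ^ j) ^ len i) i := by
    rw [e1, e2]; ring
  rw [e4]
  refine (norm_sub_le _ _).trans (add_le_add e3 ?_)
  refine (norm_sum_le _ _).trans (le_of_eq (sum_congr rfl fun j _ => ?_))
  rw [norm_mul, hz1, one_mul]

theorem set_bound (hGFA : SpecGFA) {I : Type} (len : I → ℕ) (A : Set I) (k : ℕ) (C : ℝ)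
    (hC : 0 ≤ C) (hfin : ∀ n : ℕ, {i | len i ≤ n}.Finite)
    (hcnt : ∀ n : ℕ, ({i | i ∈ A ∧ len i ≤ n}.ncard : ℝ) ≤ C * ((n : ℝ) + 1) ^ k)
    (r : ℝ) (h0 : 0 ≤ r) (h1 : r < 1) :
    ∑' i, A.indicator (fun i => r ^ len i) i ≤ C * k.factorial * ((1 - r)⁻¹) ^ k := by
  have him : ∀ n : ℕ, (Subtype.val '' {x : A | len x.1 ≤ n}) = {i | i ∈ A ∧ len i ≤ n} := by
    intro n
    ext i
    constructor
    · rintro ⟨x, hx, rfl⟩
      exact ⟨x.2, hx⟩
    · rintro ⟨h2, h3⟩
      exact ⟨⟨i, h2⟩, h3, rfl⟩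
  have h2 := hGFA A (fun x => len x.1) k C hC
    (fun n => Set.Finite.of_finite_image
      (by rw [him]; exact (hfin n).subset fun i hi => hi.2) Subtype.val_injective.injOn)
    (fun n => by
      rw [← Set.ncard_image_of_injective _ Subtype.val_injective, him]
      exact hcnt n) r h0 h1
  rw [← tsum_subtype]
  exact h2.2

end SKLM

open SKLM Finset in
theorem specSKL (hCRI : SpecCRI) (hGFA : SpecGFA) (hGFB : SpecGFB) : SpecSKL := by
  classical
  intro I len m C Cent P0 hm hC hfin hcnt hcent hmain ⟨P, hP0, hP⟩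
  have hS : ∀ r : ℝ, 0 ≤ r → r < 1 → Summable (fun i => r ^ len i) :=
    fun r h0 h1 => (hGFA I len m C hC hfin hcnt r h0 h1).1
  have hfin' : ∀ n : ℕ, {i | len i = n}.Finite :=
    fun n => (hfin n).subset (fun i hi => le_of_eq hi)
  have hF : ∀ t : ℂ, ‖t‖ < 1 →
      Summable (fun n : ℕ => ({i | len i = n}.ncard : ℝ) * ‖t‖ ^ n) ∧
      ∑' n : ℕ, ({i | len i = n}.ncard : ℂ) * t ^ n = ∑' i, t ^ len i :=
    fun t ht => hGFB I len t hfin' (hS _ (norm_nonneg _) ht)
  obtain ⟨B, hB⟩ := hCRI (fun n => {i | len i = n}.ncard) (fun r h0 h1 => by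
    have hn : ‖(r : ℂ)‖ = r := by
      rw [Complex.norm_real, Real.norm_eq_abs, abs_of_nonneg h0]
    have := (hF (r : ℂ) (by rw [hn]; exact h1)).1
    rw [hn] at this
    exact this) P hP0 hP
  obtain ⟨p, hpB, hp⟩ := Nat.exists_infinite_primes (max B P0 + 1)
  have hpB' : B < p := lt_of_le_of_lt (le_max_left B P0) hpB
  have hpP : P0 < p := lt_of_le_of_lt (le_max_right B P0) hpB
  obtain ⟨b, c, hc, hT⟩ := hmain p hp hpP
  have hp0 : (0 : ℝ) < p := by exact_mod_cast hp.pos
  have hM : ∀ ω : ℂ, ω ^ p = 1 → ω ≠ 1 → ∃ M : ℝ, ∀ r : ℝ, 0 ≤ r → r < 1 →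
      ‖∑' i, ((r : ℂ) * ω) ^ len i‖ ≤ M := by
    intro ω h1 h2
    obtain ⟨M, hM⟩ := hB p hp hpB' ω h1 h2
    refine ⟨M, fun r h0 h1' => ?_⟩
    rw [← (hF _ (by rw [norm_r hp.ne_zero h1 h0]; exact h1')).2]
    exact hM r h0 h1'
  -- choice of T
  obtain ⟨T, hTT⟩ : ∃ T : ℕ, p * (C / ((T : ℝ) + 1) * m.factorial) ≤ c / 4 := by
    obtain ⟨T, hT'⟩ := exists_nat_ge (4 * (p * (C * m.factorial)) / c)
    refine ⟨T, ?_⟩
    have hT1 : (0 : ℝ) < (T : ℝ) + 1 := by positivity
    rw [div_le_iff₀ hc] at hT'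
    have : p * (C / ((T : ℝ) + 1) * m.factorial) = (p * (C * m.factorial)) / ((T : ℝ) + 1) := by
      field_simp
    rw [this, div_le_iff₀ hT1]
    nlinarith
  obtain ⟨Q, σ, Big, hσ, hQ, hBig, hres, hlow⟩ := hT T
  obtain ⟨J, hJ⟩ : ∃ J : Set I, J = (Set.range σ)ᶜ := ⟨_, rfl⟩
  -- bounds at the roots of unity
  have hGJ : ∀ ω : ℂ, ω ^ p = 1 → ω ≠ 1 → ∃ K : ℝ, 0 ≤ K ∧ ∀ r : ℝ, 0 ≤ r → r < 1 →
      ‖∑' i, J.indicator (fun i => ((r : ℂ) * ω) ^ len i) i‖ ≤
        K + c / (4 * p) * ((1 - r)⁻¹) ^ m := by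
    intro ω h1 h2
    obtain ⟨M, hM'⟩ := hM ω h1 h2
    obtain ⟨R, hR⟩ := hQ ω h1 h2 (c / (4 * p)) (by positivity)
    refine ⟨|M| + |R|, by positivity, fun r h0 h1' => ?_⟩
    have hnr := norm_r hp.ne_zero h1 h0
    have hs := hS r h0 h1'
    have e1 : ∑' i, J.indicator (fun i => ((r : ℂ) * ω) ^ len i) i =
        ∑' i, ((r : ℂ) * ω) ^ len i - ∑' q, ((r : ℂ) * ω) ^ len (σ q) := by
      have e2 : ∑' q, ((r : ℂ) * ω) ^ len (σ q) =
          ∑' i, (Set.range σ).indicator (fun i => ((r : ℂ) * ω) ^ len i) i := by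
        rw [← _root_.tsum_subtype, tsum_range (fun i => ((r : ℂ) * ω) ^ len i) hσ]
      rw [e2, eq_sub_iff_add_eq, ← Summable.tsum_add
        (summ len J _ (by rw [hnr]; exact hs)) (summ len (Set.range σ) _ (by rw [hnr]; exact hs))]
      refine tsum_congr fun i => ?_
      by_cases h : i ∈ Set.range σ
      · have h' : i ∉ J := by rw [hJ]; exact fun h' => h' h
        rw [Set.indicator_of_notMem h', Set.indicator_of_mem h, zero_add]
      · have h' : i ∈ J := by rw [hJ]; exact h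
        rw [Set.indicator_of_mem h', Set.indicator_of_notMem h, add_zero]
    rw [e1]
    refine (norm_sub_le _ _).trans ?_
    have := hM' r h0 h1'
    have := hR r h0 h1'
    have := le_abs_self M
    have := le_abs_self R
    linarith
  have hζ : IsPrimitiveRoot (Complex.exp (2 * Real.pi * Complex.I / p)) p :=
    Complex.isPrimitiveRoot_exp p hp.ne_zero
  obtain ⟨ζ, hζe⟩ : ∃ ζ : ℂ, ζ = Complex.exp (2 * Real.pi * Complex.I / p) := ⟨_, rfl⟩
  rw [← hζe] at hζ
  have hKf : ∀ j : ℕ, ∃ K : ℝ, 0 ≤ K ∧ (j ∈ (range p).erase 0 → ∀ r : ℝ, 0 ≤ r → r < 1 →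
      ‖∑' i, J.indicator (fun i => ((r : ℂ) * ζ ^ j) ^ len i) i‖ ≤
        K + c / (4 * p) * ((1 - r)⁻¹) ^ m) := by
    intro j
    by_cases hj : j ∈ (range p).erase 0
    · obtain ⟨K, h1, h2⟩ := hGJ (ζ ^ j)
        (by rw [← pow_mul, mul_comm, pow_mul, hζ.pow_eq_one, one_pow]) (by
          intro h
          rw [hζ.pow_eq_one_iff_dvd] at h
          rw [mem_erase, mem_range] at hj
          exact absurd (Nat.le_of_dvd (Nat.pos_of_ne_zero hj.1) h) (not_le.2 hj.2))
      exact ⟨K, h1, fun _ => h2⟩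
    · exact ⟨0, le_rfl, fun h => absurd h hj⟩
  choose Kf hKf0 hKf1 using hKf
  obtain ⟨K, hK⟩ : ∃ K : ℝ, K = ∑ j ∈ (range p).erase 0, Kf j := ⟨_, rfl⟩
  have hK0 : 0 ≤ K := by rw [hK]; exact sum_nonneg fun j _ => hKf0 j
  obtain ⟨K', hK'⟩ : ∃ K' : ℝ, K' = p * (C * (m - 1).factorial) + K := ⟨_, rfl⟩
  -- main inequality
  have key : ∀ N : ℕ, 2 ≤ N → c / 2 * N ≤ K' := by
    intro N hN
    have hN0 : (0 : ℝ) < N := by positivity
    have hN1 : (1 : ℝ) ≤ N := by exact_mod_cast (by omega : 1 ≤ N)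
    obtain ⟨r, hr⟩ : ∃ r : ℝ, r = 1 - 1 / (N : ℝ) := ⟨_, rfl⟩
    have hr0 : 0 ≤ r := by
      rw [hr, sub_nonneg, div_le_one hN0]; exact hN1
    have hr1 : r < 1 := by
      rw [hr]
      have : 0 < 1 / (N : ℝ) := by positivity
      linarith
    have hrN : (1 - r)⁻¹ = N := by
      rw [hr]; simp
    have hs := hS r hr0 hr1
    obtain ⟨s, hs1, hs2⟩ := hlow N hN
    have a1 : c * (N : ℝ) ^ m ≤ ∑' i, J.indicator (fun i => r ^ len i) i := by
      refine hs2.trans ?_
      rw [← hr]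
      have : ∑ i ∈ s, r ^ len i = ∑ i ∈ s, J.indicator (fun i => r ^ len i) i := by
        refine sum_congr rfl fun i hi => ?_
        rw [Set.indicator_of_mem (by rw [hJ]; exact hs1 i hi)]
      rw [this]
      exact (summ' len J r hr0 hs).sum_le_tsum s
        (fun i _ => Set.indicator_nonneg (fun i _ => pow_nonneg hr0 _) i)
    have a2 : ∑' i, J.indicator (fun i => r ^ len i) i =
        ‖∑' i, J.indicator (fun i => (r : ℂ) ^ len i) i‖ := by
      have e1 : ∀ i, J.indicator (fun i => (r : ℂ) ^ len i) i =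
          ((J.indicator (fun i => r ^ len i) i : ℝ) : ℂ) := by
        intro i
        by_cases h : i ∈ J
        · rw [Set.indicator_of_mem h, Set.indicator_of_mem h]; push_cast; rfl
        · rw [Set.indicator_of_notMem h, Set.indicator_of_notMem h]; rfl
      rw [tsum_congr e1, ← Complex.ofReal_tsum, Complex.norm_real, Real.norm_eq_abs,
        abs_of_nonneg (tsum_nonneg fun i => Set.indicator_nonneg (fun i _ => pow_nonneg hr0 _) i)]
    have a3 := filter_bound len J Cent Big hp hζ b r hr0 hs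
      (fun i hi => hres i (by rw [hJ] at hi; exact hi))
    have a4 : ∑' i, Cent.indicator (fun i => r ^ len i) i ≤
        C * (m - 1).factorial * (N : ℝ) ^ (m - 1) := by
      have := set_bound hGFA len Cent (m - 1) C hC hfin hcent r hr0 hr1
      rw [hrN] at this
      exact this
    have a5 : ∑' i, Big.indicator (fun i => r ^ len i) i ≤
        C / ((T : ℝ) + 1) * m.factorial * (N : ℝ) ^ m := by
      have := set_bound hGFA len Big m (C / ((T : ℝ) + 1)) (by positivity) hfin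
        (fun n => (hBig n).trans (le_of_eq (by ring))) r hr0 hr1
      rw [hrN] at this
      exact this
    have a6 : ∑ j ∈ (range p).erase 0,
        ‖∑' i, J.indicator (fun i => ((r : ℂ) * ζ ^ j) ^ len i) i‖ ≤ K + c / 4 * (N : ℝ) ^ m := by
      have h1 : ∑ j ∈ (range p).erase 0,
          ‖∑' i, J.indicator (fun i => ((r : ℂ) * ζ ^ j) ^ len i) i‖ ≤
          ∑ j ∈ (range p).erase 0, (Kf j + c / (4 * p) * (N : ℝ) ^ m) := by
        refine sum_le_sum fun j hj => ?_
        have := hKf1 j hj r hr0 hr1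
        rw [hrN] at this
        exact this
      refine h1.trans ?_
      rw [sum_add_distrib, ← hK, sum_const, nsmul_eq_mul]
      have h2 : (((range p).erase 0).card : ℝ) ≤ p := by
        have : ((range p).erase 0).card ≤ p := by
          refine (card_le_card (erase_subset _ _)).trans ?_
          rw [card_range]
        exact_mod_cast this
      have h3 : 0 ≤ c / (4 * p) * (N : ℝ) ^ m := by positivity
      have h4 : (((range p).erase 0).card : ℝ) * (c / (4 * p) * (N : ℝ) ^ m) ≤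
          p * (c / (4 * p) * (N : ℝ) ^ m) := mul_le_mul_of_nonneg_right h2 h3
      have h5 : (p : ℝ) * (c / (4 * p) * (N : ℝ) ^ m) = c / 4 * (N : ℝ) ^ m := by
        field_simp
      linarith
    have a7 : c * (N : ℝ) ^ m ≤ p * (C * (m - 1).factorial * (N : ℝ) ^ (m - 1) +
        C / ((T : ℝ) + 1) * m.factorial * (N : ℝ) ^ m) + (K + c / 4 * (N : ℝ) ^ m) := by
      refine a1.trans ?_
      rw [a2]
      exact a3.trans (add_le_add (mul_le_mul_of_nonneg_left (add_le_add a4 a5) hp0.le) a6)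
    have hNm : (N : ℝ) ^ m = N * (N : ℝ) ^ (m - 1) := by
      rw [← pow_succ']
      congr 1
      omega
    have hY1 : (1 : ℝ) ≤ (N : ℝ) ^ (m - 1) := one_le_pow₀ hN1
    have a8 : p * (C / ((T : ℝ) + 1) * m.factorial * (N : ℝ) ^ m) ≤ c / 4 * (N : ℝ) ^ m := by
      have : p * (C / ((T : ℝ) + 1) * m.factorial * (N : ℝ) ^ m) =
          p * (C / ((T : ℝ) + 1) * m.factorial) * (N : ℝ) ^ m := by ring
      rw [this]
      exact mul_le_mul_of_nonneg_right hTT (by positivity)
    have a9 : c / 2 * N * (N : ℝ) ^ (m - 1) ≤ K' * (N : ℝ) ^ (m - 1) := by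
      have h1 : c / 2 * N * (N : ℝ) ^ (m - 1) = c / 2 * (N : ℝ) ^ m := by rw [hNm]; ring
      have h2 : K ≤ K * (N : ℝ) ^ (m - 1) := le_mul_of_one_le_right hK0 hY1
      rw [h1, hK']
      have h3 : p * (C * (m - 1).factorial * (N : ℝ) ^ (m - 1) +
          C / ((T : ℝ) + 1) * m.factorial * (N : ℝ) ^ m) =
          p * (C * (m - 1).factorial) * (N : ℝ) ^ (m - 1) +
          p * (C / ((T : ℝ) + 1) * m.factorial * (N : ℝ) ^ m) := by ring
      rw [h3] at a7
      rw [add_mul]
      linarith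
    exact le_of_mul_le_mul_right a9 (by linarith)
  obtain ⟨N, hN⟩ := exists_nat_gt (2 * K' / c)
  have h1 := key (N + 2) (by omega)
  rw [div_lt_iff₀ hc] at hN
  push_cast at h1
  nlinarith

end MPa1853d.HH
end

section
/-!
# MP_a1853d, HH: module XTR
-/
set_option autoImplicit false

namespace MPa1853d.HH

open MPa1853d

theorem specXTR : SpecXTR := by
  intro G _ m D K p σ hK hp hpK hσ u hu
  obtain ⟨w, hw⟩ := D.φ_surj u
  have hφ : D.φ (w ^ p) = (p : ℤ) • u := by rw [D.φ_pow, hw]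
  have hmem : ∀ q : D.QK K, ∀ y, y ∈ q.1 → D.qc K y = q.1 := by
    rintro ⟨X, x, rfl⟩ y hy
    exact D.qc_eq_of_mem hy
  set d : ℕ := Nat.gcd (D.gg (w ^ p)) K with hd
  have hy : w ^ p * D.z ^ (d : ℤ) ∈ D.qc K (w ^ p) := ⟨1, by rw [one_mul]⟩
  by_contra hcon
  push Not at hcon
  have h1 := hcon (w ^ p) hφ
  have h2 := hcon (w ^ p * D.z ^ (d : ℤ)) (by rw [D.φ_mul_z, hφ])
  obtain ⟨q1, hq1⟩ := h1
  obtain ⟨q2, hq2⟩ := h2
  have m1 : w ^ p ∈ q1.1 := by
    apply hσ q1; rw [hq1]; exact ConjClasses.mem_carrier_mk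
  have m2 : w ^ p * D.z ^ (d : ℤ) ∈ q2.1 := by
    apply hσ q2; rw [hq2]; exact ConjClasses.mem_carrier_mk
  rw [hmem q1 _ m1] at hy
  have he : q1 = q2 := by
    apply Subtype.ext
    rw [← hmem q1 _ hy, hmem q2 _ m2]
  rw [he, hq2] at hq1
  rw [ConjClasses.mk_eq_mk_iff_isConj] at hq1
  obtain ⟨j, hj⟩ := D.isConj_iff.1 hq1.symm
  have h3 : D.z ^ (d : ℤ) = D.z ^ (j * (D.gg (w ^ p) : ℤ)) := mul_left_cancel hj
  have h4 := D.zinj h3
  have h5 : D.gg (w ^ p) ∣ d := by
    rw [← Int.natCast_dvd_natCast, h4]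
    exact Dvd.intro_left _ rfl
  have h6 : p ∣ D.gg (w ^ p) := by
    rw [D.dvd_gg]
    intro y
    rw [D.ω_pow_left]
    exact Dvd.intro _ rfl
  exact hpK ((h6.trans h5).trans (Nat.gcd_dvd_right _ _))

end MPa1853d.HH
end
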